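import Mathlib

/-! MODULE N3/Avoid (50-100 lines).  The number of subsets `F` of `S` which contain none of the
disjoint pairs `K d`, `d ∈ D`, is `2^|S| (3/4)^|D|`.

Induction on `D` (with `S` generalised).  `D = insert e D'`: map `F ↦ (F ∩ K e, F \ K e)`, a
bijection from `S.powerset` to `(K e).powerset ×ˢ (S \ K e).powerset`; for `d ∈ D'` the pair `K d` is
disjoint from `K e`, so `K d ⊆ F ↔ K d ⊆ F \ K e`; and `K e ⊆ F ↔ F ∩ K e = K e`.  So the number is
`3 * (number for (S \ K e, D'))` and `|S \ K e| = |S| - 2`. -/

set_option autoImplicit false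
namespace H59.N3
open Finset

theorem card_avoid {α ι : Type*} [DecidableEq α] [DecidableEq ι] (S : Finset α) (D : Finset ι)
    (K : ι → Finset α) (hK : ∀ d ∈ D, K d ⊆ S) (hc : ∀ d ∈ D, (K d).card = 2)
    (hdisj : ∀ d ∈ D, ∀ e ∈ D, d ≠ e → Disjoint (K d) (K e)) :
    ((S.powerset.filter (fun F => ∀ d ∈ D, ¬ K d ⊆ F)).card : ℝ) =
      2 ^ S.card * (3 / 4) ^ D.card := by
  induction D using Finset.induction_on generalizing S with
  | empty => simp [Finset.card_powerset]
  | insert e D he ih =>
    have hKe : K e ⊆ S := hK e (mem_insert_self _ _)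
    have hKe2 : (K e).card = 2 := hc e (mem_insert_self _ _)
    have hd : ∀ d ∈ D, Disjoint (K d) (K e) := by
      intro d hd
      refine hdisj d (mem_insert_of_mem hd) e (mem_insert_self _ _) ?_
      rintro rfl
      exact he hd
    have ih' := ih (S \ K e)
      (fun d hdD => fun x hx => mem_sdiff.2 ⟨hK d (mem_insert_of_mem hdD) hx,
        fun hx' => (Finset.disjoint_left.1 (hd d hdD)) hx hx'⟩)
      (fun d hdD => hc d (mem_insert_of_mem hdD))
      (fun d hdD d' hdD' hne => hdisj d (mem_insert_of_mem hdD) d' (mem_insert_of_mem hdD') hne)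
    have hcard : (S.powerset.filter (fun F => ∀ d ∈ insert e D, ¬ K d ⊆ F)).card =
        (((K e).powerset.erase (K e)) ×ˢ
          ((S \ K e).powerset.filter (fun F => ∀ d ∈ D, ¬ K d ⊆ F))).card := by
      refine Finset.card_nbij' (fun F => (F ∩ K e, F \ K e)) (fun P => P.1 ∪ P.2) ?_ ?_ ?_ ?_
      · intro F hF
        simp only [coe_filter, mem_powerset, Set.mem_setOf_eq] at hF
        obtain ⟨hFS, hF⟩ := hF
        simp only [coe_product, Set.mem_prod, mem_coe, mem_erase, mem_powerset, mem_filter]
        refine ⟨⟨?_, inter_subset_right⟩, sdiff_subset_sdiff hFS subset_rfl, ?_⟩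
        · intro h
          exact hF e (mem_insert_self _ _) (inter_eq_right.1 h)
        · intro d hdD h
          exact hF d (mem_insert_of_mem hdD) (h.trans sdiff_subset)
      · intro P hP
        simp only [coe_product, Set.mem_prod, mem_coe, mem_erase, mem_powerset, mem_filter] at hP
        obtain ⟨⟨h1, h2⟩, h3, h4⟩ := hP
        simp only [coe_filter, mem_powerset, Set.mem_setOf_eq]
        refine ⟨union_subset (h2.trans hKe) (h3.trans sdiff_subset), ?_⟩
        intro d hdD h
        rcases mem_insert.1 hdD with rfl | hdD
        · apply h1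
          refine Subset.antisymm h2 fun x hx => ?_
          rcases mem_union.1 (h hx) with hx1 | hx2
          · exact hx1
          · exact absurd hx (mem_sdiff.1 (h3 hx2)).2
        · apply h4 d hdD
          intro x hx
          rcases mem_union.1 (h hx) with hx1 | hx2
          · exact absurd (h2 hx1) ((Finset.disjoint_left.1 (hd d hdD)) hx)
          · exact hx2
      · intro F hF
        show F ∩ K e ∪ F \ K e = F
        rw [union_comm]
        exact sdiff_union_inter F (K e)
      · intro P hP
        simp only [coe_product, Set.mem_prod, mem_coe, mem_erase, mem_powerset, mem_filter] at hP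
        obtain ⟨⟨h1, h2⟩, h3, h4⟩ := hP
        have h5 : Disjoint P.2 (K e) := Finset.disjoint_left.2 fun x hx => (mem_sdiff.1 (h3 hx)).2
        refine Prod.ext ?_ ?_
        · show (P.1 ∪ P.2) ∩ K e = P.1
          ext x
          simp only [mem_inter, mem_union]
          constructor
          · rintro ⟨hx | hx, hx'⟩
            · exact hx
            · exact absurd hx' ((Finset.disjoint_left.1 h5) hx)
          · intro hx
            exact ⟨Or.inl hx, h2 hx⟩
        · show (P.1 ∪ P.2) \ K e = P.2
          ext x
          simp only [mem_sdiff, mem_union]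
          constructor
          · rintro ⟨hx | hx, hx'⟩
            · exact absurd (h2 hx) hx'
            · exact hx
          · intro hx
            exact ⟨Or.inr hx, (Finset.disjoint_left.1 h5) hx⟩
    have h3 : ((K e).powerset.erase (K e)).card = 3 := by
      rw [card_erase_of_mem (mem_powerset.2 subset_rfl), card_powerset, hKe2]
      norm_num
    have h2 : S.card = (S \ K e).card + 2 := by
      have := card_sdiff_add_card_eq_card hKe
      omega
    rw [hcard, card_product, h3, card_insert_of_notMem he, h2]
    push_cast
    rw [ih', pow_add, pow_succ]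
    ring

end H59.N3
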