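import Pool.Agent.H59.N3.ChS

/-! MODULE N3/Bavg (30-60 lines).  Exchange the sums: the left side is
`∑ t ∈ T, N^3 * #{V | {t.1, t.2.1, t.2.2} ⊆ V, #V = K}` and the three elements are distinct, so
`card_super_le` with `S = {t.1, t.2.1, t.2.2}`, `S.card = 3`, bounds each term by `K^3 C(N, K)`. -/

set_option autoImplicit false
namespace H59.N3
open Finset

theorem avg_triples {α : Type*} [Fintype α] [DecidableEq α] (T : Finset (α × α × α))
    (hT : ∀ t ∈ T, t.1 ≠ t.2.1 ∧ t.1 ≠ t.2.2 ∧ t.2.1 ≠ t.2.2) (K : ℕ) :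
    (Fintype.card α) ^ 3 * ∑ V ∈ (univ : Finset α).powersetCard K,
      (T.filter (fun t => t.1 ∈ V ∧ t.2.1 ∈ V ∧ t.2.2 ∈ V)).card ≤
      T.card * (K ^ 3 * (Fintype.card α).choose K) := by
  rw [← Finset.sum_const_nat (s := T) (m := K ^ 3 * (Fintype.card α).choose K)
    (f := fun _ => K ^ 3 * (Fintype.card α).choose K) (fun _ _ => rfl)]
  have h1 : ∑ V ∈ (univ : Finset α).powersetCard K,
      (T.filter (fun t => t.1 ∈ V ∧ t.2.1 ∈ V ∧ t.2.2 ∈ V)).card =
      ∑ t ∈ T, (((univ : Finset α).powersetCard K).filter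
        (fun V => t.1 ∈ V ∧ t.2.1 ∈ V ∧ t.2.2 ∈ V)).card :=
    Finset.sum_card_bipartiteAbove_eq_sum_card_bipartiteBelow
      (r := fun (V : Finset α) (t : α × α × α) => t.1 ∈ V ∧ t.2.1 ∈ V ∧ t.2.2 ∈ V)
  rw [h1, Finset.mul_sum]
  refine Finset.sum_le_sum fun t ht => ?_
  obtain ⟨h2, h3, h4⟩ := hT t ht
  have h5 : ({t.1, t.2.1, t.2.2} : Finset α).card = 3 := Finset.card_eq_three.2
    ⟨t.1, t.2.1, t.2.2, h2, h3, h4, rfl⟩
  have h6 := card_super_le ({t.1, t.2.1, t.2.2} : Finset α) K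
  rw [h5] at h6
  have h7 : ((univ : Finset α).powersetCard K).filter
      (fun V => t.1 ∈ V ∧ t.2.1 ∈ V ∧ t.2.2 ∈ V) =
      ((univ : Finset α).powersetCard K).filter
        (fun V => ({t.1, t.2.1, t.2.2} : Finset α) ⊆ V) := by
    refine Finset.filter_congr fun V _ => ?_
    simp only [Finset.insert_subset_iff, Finset.singleton_subset_iff]
  rw [h7]
  exact h6

end H59.N3
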