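import Pool.Agent.H59.N3.Num

/-! MODULE N3/Bcol (70-120 lines).  Number of cells on the line through two cells.

Let `u = (dx p q, dy p q) ≠ 0`, `g = gcd`, `u = g (a, b)`, `(a, b)` coprime, `h = max |u.1| |u.2|`.
`det p q c = 0` means `a (c.2 - p.2) = b (c.1 - p.1)`.
If `h = |u.1|` (so `a ≠ 0`): `a ∣ c.1 - p.1` (coprime), so `c.1` is in one residue class modulo `|a|` and
`c.2` is determined by `c.1` (`a ≠ 0`): at most `(n - 1) / |a| + 1` cells, and `|a| ≤ |u.1| ≤ n - 1`,
so the number times `|a|` is at most `(n - 1) + |a| ≤ 2 (n - 1) ≤ 2 n`; multiply by `g`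
(`g |a| = h`).  The case `h = |u.2|` is symmetric.  (For the count: inject `c ↦ c.1 / |a|` into
`range ((n - 1) / |a| + 1)`, since `c.1 % |a|` is constant.) -/

set_option autoImplicit false
namespace H59.N3
open Finset

private theorem aux {n : ℕ} (S : Finset (Cell n)) (x y : Cell n → ℕ) (hx : ∀ c, x c < n)
    (hinj : ∀ c c', x c = x c' → y c = y c' → c = c') (x0 y0 A B : ℤ) (hA : A ≠ 0)
    (hAn : A.natAbs ≤ n) (hS : ∀ c ∈ S, A * ((y c : ℤ) - y0) = B * ((x c : ℤ) - x0)) :
    S.card * A.natAbs ≤ 2 * n * Int.gcd A B := by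
  obtain ⟨g, hg⟩ : ∃ g, g = Int.gcd A B := ⟨_, rfl⟩
  have hgpos : 0 < g := by rw [hg]; exact Int.gcd_pos_of_ne_zero_left _ hA
  obtain ⟨a, ha⟩ : (g : ℤ) ∣ A := by rw [hg]; exact Int.gcd_dvd_left _ _
  obtain ⟨b, hb⟩ : (g : ℤ) ∣ B := by rw [hg]; exact Int.gcd_dvd_right _ _
  have hg0 : (g : ℤ) ≠ 0 := by exact_mod_cast hgpos.ne'
  have ha0 : a ≠ 0 := by
    rintro rfl
    exact hA (by rw [ha, mul_zero])
  have hcop : Int.gcd a b = 1 := by
    have h1 : Int.gcd A B = g * Int.gcd a b := by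
      rw [ha, hb, Int.gcd_mul_left]
      simp
    rw [← hg] at h1
    have h2 : g * 1 = g * Int.gcd a b := by rw [mul_one]; exact h1
    exact (Nat.eq_of_mul_eq_mul_left hgpos h2).symm
  have hS' : ∀ c ∈ S, a * ((y c : ℤ) - y0) = b * ((x c : ℤ) - x0) := by
    intro c hc
    have h1 := hS c hc
    rw [ha, hb, mul_assoc, mul_assoc] at h1
    exact mul_left_cancel₀ hg0 h1
  have key : ∀ c ∈ S, a ∣ ((x c : ℤ) - x0) := by
    intro c hc
    have h1 : a ∣ b * ((x c : ℤ) - x0) := ⟨_, (hS' c hc).symm⟩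
    exact (Int.isCoprime_iff_gcd_eq_one.2 hcop).dvd_of_dvd_mul_left h1
  obtain ⟨m, hm⟩ : ∃ m, m = a.natAbs := ⟨_, rfl⟩
  have hmpos : 0 < m := by rw [hm]; exact Int.natAbs_pos.2 ha0
  have hAm : A.natAbs = g * m := by
    rw [ha, Int.natAbs_mul, ← hm]
    simp
  have hcard : S.card ≤ (n - 1) / m + 1 := by
    rw [← card_range ((n - 1) / m + 1)]
    apply card_le_card_of_injOn (fun c => x c / m)
    · intro c _
      rw [mem_coe, mem_range]
      have h1 := hx c
      exact Nat.lt_succ_of_le (Nat.div_le_div_right (by omega))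
    · intro c hc c' hc' h
      have h1 : (m : ℤ) ∣ (x c : ℤ) - (x c' : ℤ) := by
        rw [hm, Int.natAbs_dvd]
        have h2 := dvd_sub (key c hc) (key c' hc')
        have h3 : (x c : ℤ) - x0 - ((x c' : ℤ) - x0) = (x c : ℤ) - (x c' : ℤ) := by ring
        rwa [h3] at h2
      have h2 : x c' % m = x c % m := (Nat.modEq_iff_dvd).2 h1
      have h3 : x c = x c' := by
        have h4 := Nat.div_add_mod (x c) m
        have h5 := Nat.div_add_mod (x c') m
        have h6 : x c / m = x c' / m := h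
        rw [← h4, ← h5, h2, h6]
      refine hinj c c' h3 ?_
      have h4 := hS' c hc
      have h5 := hS' c' hc'
      rw [h3, ← h5] at h4
      have h6 := mul_left_cancel₀ ha0 h4
      have h7 : (y c : ℤ) = (y c' : ℤ) := by linarith
      exact_mod_cast h7
  have hmn : m ≤ n := by
    have h1 : m ≤ g * m := Nat.le_mul_of_pos_left m hgpos
    rw [← hAm] at h1
    exact h1.trans hAn
  rw [← hg, hAm]
  calc S.card * (g * m) ≤ ((n - 1) / m + 1) * (g * m) := Nat.mul_le_mul_right _ hcard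
    _ = g * ((n - 1) / m * m + m) := by ring
    _ ≤ g * (n + n) := Nat.mul_le_mul_left _
        (Nat.add_le_add ((Nat.div_mul_le_self _ _).trans (Nat.sub_le _ _)) hmn)
    _ = 2 * n * g := by ring

theorem card_col {n : ℕ} {p q : Cell n} (hpq : p ≠ q) :
    (univ.filter (fun c : Cell n => det p q c = 0)).card * max (dx p q).natAbs (dy p q).natAbs ≤
      2 * n * Int.gcd (dx p q) (dy p q) := by
  have hb1 : (dx p q).natAbs ≤ n := by
    have h1 := p.1.2
    have h2 := q.1.2
    unfold dx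
    omega
  have hb2 : (dy p q).natAbs ≤ n := by
    have h1 := p.2.2
    have h2 := q.2.2
    unfold dy
    omega
  have hne : ¬ (dx p q = 0 ∧ dy p q = 0) := by
    rintro ⟨h1, h2⟩
    apply hpq
    unfold dx at h1
    unfold dy at h2
    refine Prod.ext (Fin.ext ?_) (Fin.ext ?_)
    · omega
    · omega
  rcases le_total (dy p q).natAbs (dx p q).natAbs with h | h
  · rw [max_eq_left h]
    refine aux _ (fun c => (c.1 : ℕ)) (fun c => (c.2 : ℕ)) (fun c => c.1.2)
      (fun c c' h1 h2 => Prod.ext (Fin.ext h1) (Fin.ext h2)) ((p.1 : ℕ) : ℤ) ((p.2 : ℕ) : ℤ)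
      (dx p q) (dy p q) ?_ hb1 ?_
    · intro h0
      apply hne
      refine ⟨h0, ?_⟩
      rw [h0] at h
      exact Int.natAbs_eq_zero.1 (Nat.le_zero.1 h)
    · intro c hc
      have h1 := (mem_filter.1 hc).2
      unfold det at h1
      unfold dx dy
      linarith
  · rw [max_eq_right h, Int.gcd_comm]
    refine aux _ (fun c => (c.2 : ℕ)) (fun c => (c.1 : ℕ)) (fun c => c.2.2)
      (fun c c' h1 h2 => Prod.ext (Fin.ext h2) (Fin.ext h1)) ((p.2 : ℕ) : ℤ) ((p.1 : ℕ) : ℤ)
      (dy p q) (dx p q) ?_ hb2 ?_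
    · intro h0
      apply hne
      refine ⟨?_, h0⟩
      rw [h0] at h
      exact Int.natAbs_eq_zero.1 (Nat.le_zero.1 h)
    · intro c hc
      have h1 := (mem_filter.1 hc).2
      unfold det at h1
      unfold dx dy
      linarith

end H59.N3
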