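import Pool.Agent.H59.N3.Num

/-! MODULE N3/Bdel (30-60 lines).  Deletion.  Induction on `j`.  If `V` has no three in line take
`S = V` (for `j = 0` this is the case: a failure of `NoThree V` gives a triple in the filter).
Otherwise there is a collinear triple `(p, q, r)` of distinct elements of `V`; for `V.erase p` the
filter is contained in the old one without `(p, q, r)`, so it has at most `j - 1` elements. -/

set_option autoImplicit false
namespace H59.N3
open Finset

open Classical in
theorem deletion {n : ℕ} (V : Finset (Cell n)) (j : ℕ)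
    (hbad : ((badT n).filter (fun t => t.1 ∈ V ∧ t.2.1 ∈ V ∧ t.2.2 ∈ V)).card ≤ j) :
    ∃ S ⊆ V, NoThree S ∧ V.card ≤ S.card + j := by
  induction j generalizing V with
  | zero =>
    by_cases h : NoThree V
    · exact ⟨V, subset_rfl, h, by omega⟩
    · exfalso
      unfold NoThree at h
      push Not at h
      obtain ⟨p, hp, q, hq, r, hr, h1, h2, h3, h4⟩ := h
      have h5 : (p, q, r) ∈ (badT n).filter (fun t => t.1 ∈ V ∧ t.2.1 ∈ V ∧ t.2.2 ∈ V) := by
        rw [mem_filter]
        refine ⟨?_, hp, hq, hr⟩
        unfold badT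
        rw [mem_filter]
        exact ⟨mem_univ _, h1, h2, h3, h4⟩
      have h6 := card_pos.2 ⟨_, h5⟩
      omega
  | succ j ih =>
    by_cases h : NoThree V
    · exact ⟨V, subset_rfl, h, by omega⟩
    · unfold NoThree at h
      push Not at h
      obtain ⟨p, hp, q, hq, r, hr, h1, h2, h3, h4⟩ := h
      have h5 : (p, q, r) ∈ (badT n).filter (fun t => t.1 ∈ V ∧ t.2.1 ∈ V ∧ t.2.2 ∈ V) := by
        rw [mem_filter]
        refine ⟨?_, hp, hq, hr⟩
        unfold badT
        rw [mem_filter]
        exact ⟨mem_univ _, h1, h2, h3, h4⟩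
      have h6 : ((badT n).filter
          (fun t => t.1 ∈ V.erase p ∧ t.2.1 ∈ V.erase p ∧ t.2.2 ∈ V.erase p)).card ≤ j := by
        have hsub : (badT n).filter
            (fun t => t.1 ∈ V.erase p ∧ t.2.1 ∈ V.erase p ∧ t.2.2 ∈ V.erase p) ⊆
            ((badT n).filter (fun t => t.1 ∈ V ∧ t.2.1 ∈ V ∧ t.2.2 ∈ V)).erase (p, q, r) := by
          intro t ht
          rw [mem_filter] at ht
          obtain ⟨a1, a2, a3, a4⟩ := ht
          rw [mem_erase, mem_filter]
          refine ⟨?_, a1, mem_of_mem_erase a2, mem_of_mem_erase a3, mem_of_mem_erase a4⟩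
          intro h7
          rw [h7] at a2
          exact (notMem_erase p V) a2
        have h8 := card_le_card hsub
        rw [card_erase_of_mem h5] at h8
        omega
      obtain ⟨S, hS1, hS2, hS3⟩ := ih (V.erase p) h6
      refine ⟨S, hS1.trans (erase_subset p V), hS2, ?_⟩
      rw [card_erase_of_mem hp] at hS3
      omega

end H59.N3
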