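import Mathlib

/-! MODULE N3/Bsum (80-140 lines, Mathlib only).  `∑ gcd(u) / |u|` over the nonzero `u` of the box.

The map `u ↦ (g, v)`, `g = gcd u`, `v = u / g`, is injective with values in the pairs `1 ≤ g ≤ n`,
`v ≠ 0`, `g |v| ≤ n` (`|v| = max |v.1| |v.2|`), and `gcd(u) / |u| = 1 / |v|`.  So the sum is at most
`∑ g ∈ Icc 1 n, ∑ v ≠ 0 with |v| ≤ n / g, 1 / |v|`.  The number of `v` with `|v| = s` is `8 s` (`s ≥ 1`:
`(2 s + 1)^2 - (2 s - 1)^2`), so the inner sum is `8 (n / g)` (natural division) `≤ 8 n / g` and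
`∑ g ∈ Icc 1 n, 1 / g ≤ 1 + log n` (`harmonic_le_one_add_log`).
(Also fine: any other proof.  For `n = 0` both sides are `0`.) -/

set_option autoImplicit false
namespace H59.N3
open Finset

/-- the nonzero vectors of the box -/
private noncomputable def bx (N : ℕ) : Finset (ℤ × ℤ) :=
  ((Icc (-(N : ℤ)) N) ×ˢ (Icc (-(N : ℤ)) N)).filter (fun u => u ≠ 0)

private lemma mem_bx {N : ℕ} {u : ℤ × ℤ} :
    u ∈ bx N ↔ max u.1.natAbs u.2.natAbs ≤ N ∧ u ≠ 0 := by
  unfold bx
  rw [mem_filter, mem_product, mem_Icc, mem_Icc, max_le_iff]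
  constructor
  · rintro ⟨⟨⟨h1, h2⟩, h3, h4⟩, h5⟩
    exact ⟨⟨by omega, by omega⟩, h5⟩
  · rintro ⟨⟨h1, h2⟩, h5⟩
    exact ⟨⟨⟨by omega, by omega⟩, by omega, by omega⟩, h5⟩

private lemma card_bx (N : ℕ) : (bx N).card = (2 * N + 1) * (2 * N + 1) - 1 := by
  unfold bx
  rw [Finset.filter_ne', card_erase_of_mem, card_product, Int.card_Icc]
  · have : ((N : ℤ) + 1 - -(N : ℤ)).toNat = 2 * N + 1 := by omega
    rw [this]
  · rw [mem_product, mem_Icc, mem_Icc]
    simp

private lemma sum_bx (N : ℕ) :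
    ∑ v ∈ bx N, (1 : ℝ) / (max v.1.natAbs v.2.natAbs : ℕ) = 8 * N := by
  induction N with
  | zero =>
    have : bx 0 = ∅ := by
      rw [← card_eq_zero, card_bx]
    rw [this]
    simp
  | succ N ih =>
    rw [← Finset.sum_filter_add_sum_filter_not (bx (N + 1))
      (fun v => max v.1.natAbs v.2.natAbs ≤ N)]
    have h1 : (bx (N + 1)).filter (fun v => max v.1.natAbs v.2.natAbs ≤ N) = bx N := by
      ext v
      rw [mem_filter, mem_bx, mem_bx]
      constructor
      · rintro ⟨⟨_, h⟩, h'⟩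
        exact ⟨h', h⟩
      · rintro ⟨h', h⟩
        exact ⟨⟨by omega, h⟩, h'⟩
    have h2 : ∑ v ∈ (bx (N + 1)).filter (fun v => ¬ max v.1.natAbs v.2.natAbs ≤ N),
        (1 : ℝ) / (max v.1.natAbs v.2.natAbs : ℕ) =
        ∑ _v ∈ (bx (N + 1)).filter (fun v => ¬ max v.1.natAbs v.2.natAbs ≤ N),
        (1 : ℝ) / ((N + 1 : ℕ) : ℝ) := by
      refine sum_congr rfl fun v hv => ?_
      rw [mem_filter, mem_bx] at hv
      have : max v.1.natAbs v.2.natAbs = N + 1 := by omega
      rw [this]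
    have h3 : ((bx (N + 1)).filter (fun v => ¬ max v.1.natAbs v.2.natAbs ≤ N)).card =
        8 * (N + 1) := by
      have := Finset.card_filter_add_card_filter_not (s := bx (N + 1))
        (fun v => max v.1.natAbs v.2.natAbs ≤ N)
      rw [h1, card_bx, card_bx] at this
      have e1 : (2 * N + 1) * (2 * N + 1) - 1 = 4 * N * N + 4 * N := by
        rw [show (2 * N + 1) * (2 * N + 1) = (4 * N * N + 4 * N) + 1 by ring]; rfl
      have e2 : (2 * (N + 1) + 1) * (2 * (N + 1) + 1) - 1 = 4 * N * N + 4 * N + 8 * (N + 1) := by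
        rw [show (2 * (N + 1) + 1) * (2 * (N + 1) + 1) = (4 * N * N + 4 * N + 8 * (N + 1)) + 1
          by ring]; rfl
      rw [e1, e2] at this
      omega
    rw [h1, h2, ih, sum_const, h3, nsmul_eq_mul]
    push_cast
    field_simp

theorem sum_gcd (n : ℕ) :
    ∑ u ∈ ((Icc (-(n : ℤ)) n) ×ˢ (Icc (-(n : ℤ)) n)).filter (fun u => u ≠ 0),
      (Int.gcd u.1 u.2 : ℝ) / (max u.1.natAbs u.2.natAbs : ℕ) ≤ 8 * n * (1 + Real.log n) := by
  change ∑ u ∈ bx n, (Int.gcd u.1 u.2 : ℝ) / (max u.1.natAbs u.2.natAbs : ℕ) ≤ _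
  have hmaps : ∀ u ∈ bx n, Int.gcd u.1 u.2 ∈ Icc 1 n := by
    intro u hu
    rw [mem_bx] at hu
    obtain ⟨h1, h2⟩ := hu
    rw [mem_Icc]
    have hne : ¬ (u.1 = 0 ∧ u.2 = 0) := fun h => h2 (Prod.ext h.1 h.2)
    constructor
    · apply Nat.one_le_iff_ne_zero.2
      intro h
      exact hne (Int.gcd_eq_zero_iff.1 h)
    · rw [max_le_iff] at h1
      by_cases h0 : u.1 = 0
      · have h3 : u.2 ≠ 0 := fun h => hne ⟨h0, h⟩
        have h4 : Int.gcd u.1 u.2 ∣ u.2.natAbs := by
          rw [Int.gcd_def]; exact Nat.gcd_dvd_right _ _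
        exact (Nat.le_of_dvd (by omega) h4).trans h1.2
      · have h4 : Int.gcd u.1 u.2 ∣ u.1.natAbs := by
          rw [Int.gcd_def]; exact Nat.gcd_dvd_left _ _
        exact (Nat.le_of_dvd (by omega) h4).trans h1.1
  rw [← sum_fiberwise_of_maps_to hmaps]
  have hin : ∀ g ∈ Icc 1 n, ∑ u ∈ (bx n).filter (fun u => Int.gcd u.1 u.2 = g),
      (Int.gcd u.1 u.2 : ℝ) / (max u.1.natAbs u.2.natAbs : ℕ) ≤ 8 * n * ((g : ℝ)⁻¹) := by
    intro g hg
    rw [mem_Icc] at hg
    have hg0 : (0 : ℝ) < g := by exact_mod_cast hg.1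
    have hgz : (g : ℤ) ≠ 0 := by omega
    have hinj : Set.InjOn (fun v : ℤ × ℤ => ((g : ℤ) * v.1, (g : ℤ) * v.2)) (bx (n / g)) := by
      intro a _ b _ hab
      simp only [Prod.mk.injEq] at hab
      exact Prod.ext (mul_left_cancel₀ hgz hab.1) (mul_left_cancel₀ hgz hab.2)
    calc ∑ u ∈ (bx n).filter (fun u => Int.gcd u.1 u.2 = g),
        (Int.gcd u.1 u.2 : ℝ) / (max u.1.natAbs u.2.natAbs : ℕ)
        = ∑ u ∈ (bx n).filter (fun u => Int.gcd u.1 u.2 = g),
        (g : ℝ) / (max u.1.natAbs u.2.natAbs : ℕ) := by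
          refine sum_congr rfl fun u hu => ?_
          rw [mem_filter] at hu
          rw [hu.2]
      _ ≤ ∑ u ∈ (bx (n / g)).image (fun v : ℤ × ℤ => ((g : ℤ) * v.1, (g : ℤ) * v.2)),
        (g : ℝ) / (max u.1.natAbs u.2.natAbs : ℕ) := by
          refine sum_le_sum_of_subset_of_nonneg ?_ fun _ _ _ => by positivity
          intro u hu
          rw [mem_filter, mem_bx] at hu
          obtain ⟨⟨h1, h2⟩, h3⟩ := hu
          have hd1 : (g : ℤ) ∣ u.1 := by rw [← h3]; exact Int.gcd_dvd_left ..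
          have hd2 : (g : ℤ) ∣ u.2 := by rw [← h3]; exact Int.gcd_dvd_right ..
          obtain ⟨a, ha⟩ := hd1
          obtain ⟨b, hb⟩ := hd2
          rw [mem_image]
          refine ⟨(a, b), ?_, ?_⟩
          · rw [mem_bx]
            rw [max_le_iff] at h1
            refine ⟨?_, ?_⟩
            · rw [max_le_iff]
              constructor
              · rw [Nat.le_div_iff_mul_le hg.1]
                have := h1.1
                rw [ha, Int.natAbs_mul, Int.natAbs_natCast] at this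
                rw [mul_comm]
                exact this
              · rw [Nat.le_div_iff_mul_le hg.1]
                have := h1.2
                rw [hb, Int.natAbs_mul, Int.natAbs_natCast] at this
                rw [mul_comm]
                exact this
            · intro h0
              apply h2
              simp only [Prod.mk_eq_zero] at h0
              exact Prod.ext (by rw [ha, h0.1]; simp) (by rw [hb, h0.2]; simp)
          · exact Prod.ext ha.symm hb.symm
      _ = ∑ v ∈ bx (n / g), (g : ℝ) /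
          (max ((g : ℤ) * v.1).natAbs ((g : ℤ) * v.2).natAbs : ℕ) := sum_image hinj
      _ = ∑ v ∈ bx (n / g), (1 : ℝ) / (max v.1.natAbs v.2.natAbs : ℕ) := by
          refine sum_congr rfl fun v _ => ?_
          rw [Int.natAbs_mul, Int.natAbs_mul, Int.natAbs_natCast, Nat.mul_max_mul_left,
            Nat.cast_mul]
          rw [div_mul_eq_div_div, div_self hg0.ne']
      _ = 8 * ((n / g : ℕ) : ℝ) := sum_bx _
      _ ≤ 8 * n * ((g : ℝ)⁻¹) := by
          have := @Nat.cast_div_le ℝ _ _ _ n g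
          rw [div_eq_mul_inv] at this
          linarith
  calc _ ≤ ∑ g ∈ Icc 1 n, 8 * (n : ℝ) * ((g : ℝ)⁻¹) := sum_le_sum hin
    _ = 8 * n * ∑ g ∈ Icc 1 n, ((g : ℝ)⁻¹) := by rw [mul_sum]
    _ ≤ 8 * n * (1 + Real.log n) := by
      refine mul_le_mul_of_nonneg_left ?_ (by positivity)
      have h := harmonic_le_one_add_log n
      rw [harmonic_eq_sum_Icc] at h
      push_cast at h
      exact h

end H59.N3
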