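import Pool.Agent.H59.N3.Bcol
import Pool.Agent.H59.N3.Bsum

/-! MODULE N3/Btot (50-90 lines).  Number of ordered collinear triples of distinct cells.

For fixed `p` the map `q ↦ (dx p q, dy p q)` is injective from the cells `q ≠ p` to the nonzero
vectors of the box `[-n, n]^2`, and for `q ≠ p` the number of `c` is at most
`2 n * gcd / max` (`card_col`, `max > 0`).  So for fixed `p` the number of `(q, c)` is at most
`2 n * 8 n (1 + log n)` (`sum_gcd`), and there are `n^2` cells `p`. -/

set_option autoImplicit false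
namespace H59.N3
open Finset

private lemma bt_card (n : ℕ) : (badT n).card ≤ ∑ p : Cell n, ∑ q ∈ univ.filter (fun q => p ≠ q),
    (univ.filter (fun c : Cell n => det p q c = 0)).card := by
  unfold badT
  rw [card_filter, Fintype.sum_prod_type]
  refine sum_le_sum fun p _ => ?_
  rw [Fintype.sum_prod_type, sum_filter]
  refine sum_le_sum fun q _ => ?_
  by_cases h : p ≠ q
  · rw [if_pos h, card_filter]
    refine sum_le_sum fun c _ => ?_
    by_cases h2 : det p q c = 0
    · rw [if_pos h2]
      split_ifs <;> omega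
    · rw [if_neg h2, if_neg]
      intro h3
      exact h2 h3.2.2.2
  · rw [if_neg h]
    refine (sum_eq_zero fun c _ => ?_).le
    rw [if_neg]
    intro h3
    exact h h3.1

private lemma bt_ne {n : ℕ} {p q : Cell n} (h : p ≠ q) : (dx p q, dy p q) ≠ (0, 0) := by
  intro h2
  apply h
  have h3 := congrArg Prod.fst h2
  have h4 := congrArg Prod.snd h2
  unfold dx at h3
  unfold dy at h4
  simp only at h3 h4
  apply Prod.ext
  · apply Fin.ext
    omega
  · apply Fin.ext
    omega

private lemma bt_one {n : ℕ} {p q : Cell n} (h : p ≠ q) :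
    ((univ.filter (fun c : Cell n => det p q c = 0)).card : ℝ) ≤
      2 * n * ((Int.gcd (dx p q) (dy p q) : ℝ) / (max (dx p q).natAbs (dy p q).natAbs : ℕ)) := by
  have h1 := card_col h
  have h2 : 0 < max (dx p q).natAbs (dy p q).natAbs := by
    have h3 := bt_ne h
    by_contra hcon
    apply h3
    have h4 : (dx p q).natAbs = 0 := by omega
    have h5 : (dy p q).natAbs = 0 := by omega
    rw [Int.natAbs_eq_zero.1 h4, Int.natAbs_eq_zero.1 h5]
  have h3 : (0 : ℝ) < (max (dx p q).natAbs (dy p q).natAbs : ℕ) := by exact_mod_cast h2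
  rw [← mul_div_assoc, le_div_iff₀ h3]
  exact_mod_cast h1

private lemma bt_inner {n : ℕ} (p : Cell n) :
    ∑ q ∈ univ.filter (fun q => p ≠ q),
      ((Int.gcd (dx p q) (dy p q) : ℝ) / (max (dx p q).natAbs (dy p q).natAbs : ℕ)) ≤
      ∑ u ∈ ((Icc (-(n : ℤ)) n) ×ˢ (Icc (-(n : ℤ)) n)).filter (fun u => u ≠ 0),
        (Int.gcd u.1 u.2 : ℝ) / (max u.1.natAbs u.2.natAbs : ℕ) := by
  have hinj : Set.InjOn (fun q : Cell n => (dx p q, dy p q))
      (univ.filter (fun q => p ≠ q) : Finset (Cell n)) := by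
    intro q _ q' _ h
    have h1 := congrArg Prod.fst h
    have h2 := congrArg Prod.snd h
    simp only [dx, dy] at h1 h2
    apply Prod.ext
    · apply Fin.ext
      omega
    · apply Fin.ext
      omega
  have h1 : ∑ q ∈ univ.filter (fun q => p ≠ q),
      ((Int.gcd (dx p q) (dy p q) : ℝ) / (max (dx p q).natAbs (dy p q).natAbs : ℕ)) =
      ∑ u ∈ (univ.filter (fun q => p ≠ q)).image (fun q : Cell n => (dx p q, dy p q)),
        (Int.gcd u.1 u.2 : ℝ) / (max u.1.natAbs u.2.natAbs : ℕ) :=
    (sum_image (f := fun u : ℤ × ℤ =>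
      (Int.gcd u.1 u.2 : ℝ) / (max u.1.natAbs u.2.natAbs : ℕ)) hinj).symm
  rw [h1]
  refine sum_le_sum_of_subset_of_nonneg ?_ fun u _ _ => by positivity
  intro u hu
  rw [mem_image] at hu
  obtain ⟨q, hq, rfl⟩ := hu
  rw [mem_filter] at hq
  rw [mem_filter, mem_product, mem_Icc, mem_Icc]
  refine ⟨?_, bt_ne hq.2⟩
  have h1 := p.1.2
  have h2 := p.2.2
  have h3 := q.1.2
  have h4 := q.2.2
  simp only [dx, dy]
  omega

theorem card_badT (n : ℕ) : ((badT n).card : ℝ) ≤ 16 * (n : ℝ) ^ 4 * (1 + Real.log n) := by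
  have h1 : ((badT n).card : ℝ) ≤ ∑ p : Cell n, ∑ q ∈ univ.filter (fun q => p ≠ q),
      ((univ.filter (fun c : Cell n => det p q c = 0)).card : ℝ) := by
    exact_mod_cast bt_card n
  have h2 : ∀ p : Cell n, ∑ q ∈ univ.filter (fun q => p ≠ q),
      ((univ.filter (fun c : Cell n => det p q c = 0)).card : ℝ) ≤
      2 * n * (8 * n * (1 + Real.log n)) := by
    intro p
    refine (sum_le_sum fun q hq => bt_one (mem_filter.1 hq).2).trans ?_
    rw [← mul_sum]
    exact mul_le_mul_of_nonneg_left ((bt_inner p).trans (sum_gcd n)) (by positivity)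
  refine h1.trans ((sum_le_sum fun p _ => h2 p).trans ?_)
  rw [sum_const, card_univ, Fintype.card_prod, Fintype.card_fin, nsmul_eq_mul]
  push_cast
  apply le_of_eq
  ring

end H59.N3
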