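import Pool.Agent.H59.N3.Bavg
import Pool.Agent.H59.N3.Bdel
import Pool.Agent.H59.N3.Btot

/-! MODULE N3/Bfin (90-150 lines).  Lower bound for the number of sets.

`k = 0`: both sides are `1`.  Let `k ≥ 1`, `N = n^2`, `K = 2 k` (`≤ N`, since `256 k^2 ≤ n^2`; `log n ≥ 0`).
(1) `∑ V, b(V) ≤ card_badT * (K/N)^3 * C(N,K) ≤ 16 n^4 (1 + log n) * 8 k^3 / n^6 * C(N,K)
   = 128 k^3 (1 + log n) / n^2 * C(N,K) ≤ (k/2) C(N,K)`, `b(V)` = number of triples in `V`
   (`avg_triples` with `T = badT n`, `card_badT`, hypothesis `h`).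
(2) so at least half of the `V` have `b(V) ≤ k` (Markov: the others have `b(V) > k`).
(3) by `deletion` such a `V` contains a set `S` without three in line with at least `2 k - k = k`
   elements, and (a subset of it, `Finset.exists_subset_card_eq`) one with exactly `k` elements.
(4) every `k`-set `S` is contained in `C(N-k, k)` sets `V` (`card_super`), so
   `C(N, 2k) / 2 ≤ numNT n k * C(N-k, k)`.
(5) `C(N, 2k) C(2k, k) = C(N, k) C(N-k, k)` (`Nat.choose_mul`), `C(2k, k) ≤ 4^k`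
   (`Nat.centralBinom` / `Nat.choose_le_..`: at most `2^(2k)`, `Nat.choose_le_two_pow`) and
   `C(N-k, k) > 0`, so `C(N, k) ≤ 2 * 4^k * numNT n k ≤ 8^k numNT n k`. -/

set_option autoImplicit false
namespace H59.N3
open Finset

open Classical in
private theorem bfin_good {n k : ℕ} (hn : 1 ≤ n) (hk : 1 ≤ k)
    (h : 256 * (k : ℝ) ^ 2 * (1 + Real.log n) ≤ (n : ℝ) ^ 2) :
    (n ^ 2).choose (2 * k) ≤ 2 * (((univ : Finset (Cell n)).powersetCard (2 * k)).filter
      (fun V => ((badT n).filter (fun t => t.1 ∈ V ∧ t.2.1 ∈ V ∧ t.2.2 ∈ V)).card ≤ k)).card := by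
  have hcell : Fintype.card (Cell n) = n ^ 2 := by
    simp [Cell, Fintype.card_prod, pow_two]
  set A : Finset (Finset (Cell n)) := (univ : Finset (Cell n)).powersetCard (2 * k) with hA
  set b : Finset (Cell n) → ℕ := fun V =>
    ((badT n).filter (fun t => t.1 ∈ V ∧ t.2.1 ∈ V ∧ t.2.2 ∈ V)).card with hb
  have hAc : A.card = (n ^ 2).choose (2 * k) := by
    rw [hA, Finset.card_powersetCard, Finset.card_univ, hcell]
  have havg : (n ^ 2) ^ 3 * ∑ V ∈ A, b V ≤
      (badT n).card * ((2 * k) ^ 3 * (n ^ 2).choose (2 * k)) := by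
    have h1 := avg_triples (badT n) (fun t ht => by
      have h2 := (Finset.mem_filter.mp ht).2
      exact ⟨h2.1, h2.2.1, h2.2.2.1⟩) (2 * k)
    rw [hcell] at h1
    exact h1
  have hn' : (0 : ℝ) < n := by exact_mod_cast hn
  have havgR : ((n : ℝ) ^ 2) ^ 3 * ((∑ V ∈ A, b V : ℕ) : ℝ) ≤
      16 * (n : ℝ) ^ 4 * (1 + Real.log n) * ((2 * (k : ℝ)) ^ 3 * ((n ^ 2).choose (2 * k) : ℝ)) := by
    have h1 : ((n : ℝ) ^ 2) ^ 3 * ((∑ V ∈ A, b V : ℕ) : ℝ) ≤
        ((badT n).card : ℝ) * ((2 * (k : ℝ)) ^ 3 * ((n ^ 2).choose (2 * k) : ℝ)) := by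
      exact_mod_cast havg
    refine h1.trans ?_
    exact mul_le_mul_of_nonneg_right (card_badT n) (by positivity)
  have hsum : 2 * ((∑ V ∈ A, b V : ℕ) : ℝ) ≤ k * ((n ^ 2).choose (2 * k) : ℝ) := by
    have hC : (0 : ℝ) ≤ ((n ^ 2).choose (2 * k) : ℝ) := by positivity
    have h6 : (0 : ℝ) < (n : ℝ) ^ 6 := by positivity
    have h3 : (n : ℝ) ^ 6 * (2 * ((∑ V ∈ A, b V : ℕ) : ℝ)) ≤
        (n : ℝ) ^ 6 * (k * ((n ^ 2).choose (2 * k) : ℝ)) := by
      have e1 : (n : ℝ) ^ 6 * (2 * ((∑ V ∈ A, b V : ℕ) : ℝ)) =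
          2 * (((n : ℝ) ^ 2) ^ 3 * ((∑ V ∈ A, b V : ℕ) : ℝ)) := by ring
      have e2 : 2 * (16 * (n : ℝ) ^ 4 * (1 + Real.log n) *
          ((2 * (k : ℝ)) ^ 3 * ((n ^ 2).choose (2 * k) : ℝ))) =
          (256 * (k : ℝ) ^ 2 * (1 + Real.log n)) *
            ((n : ℝ) ^ 4 * k * ((n ^ 2).choose (2 * k) : ℝ)) := by ring
      rw [e1]
      calc 2 * (((n : ℝ) ^ 2) ^ 3 * ((∑ V ∈ A, b V : ℕ) : ℝ)) ≤
          2 * (16 * (n : ℝ) ^ 4 * (1 + Real.log n) *
            ((2 * (k : ℝ)) ^ 3 * ((n ^ 2).choose (2 * k) : ℝ))) := by linarith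
        _ = (256 * (k : ℝ) ^ 2 * (1 + Real.log n)) *
            ((n : ℝ) ^ 4 * k * ((n ^ 2).choose (2 * k) : ℝ)) := e2
        _ ≤ (n : ℝ) ^ 2 * ((n : ℝ) ^ 4 * k * ((n ^ 2).choose (2 * k) : ℝ)) :=
            mul_le_mul_of_nonneg_right h (by positivity)
        _ = (n : ℝ) ^ 6 * (k * ((n ^ 2).choose (2 * k) : ℝ)) := by ring
    exact le_of_mul_le_mul_left h3 h6
  have hsumN : 2 * ∑ V ∈ A, b V ≤ k * (n ^ 2).choose (2 * k) := by
    exact_mod_cast hsum
  have hmarkov : (k + 1) * (A.filter (fun V => ¬ b V ≤ k)).card ≤ ∑ V ∈ A, b V := by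
    calc (k + 1) * (A.filter (fun V => ¬ b V ≤ k)).card
        = ∑ V ∈ A.filter (fun V => ¬ b V ≤ k), (k + 1) := by
          rw [Finset.sum_const, smul_eq_mul, mul_comm]
      _ ≤ ∑ V ∈ A.filter (fun V => ¬ b V ≤ k), b V := by
          refine Finset.sum_le_sum (fun V hV => ?_)
          have := (Finset.mem_filter.mp hV).2
          omega
      _ ≤ ∑ V ∈ A, b V :=
          Finset.sum_le_sum_of_subset (Finset.filter_subset _ _)
  have hsplit : (A.filter (fun V => b V ≤ k)).card + (A.filter (fun V => ¬ b V ≤ k)).card =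
      A.card := Finset.card_filter_add_card_filter_not _
  rw [hAc] at hsplit
  set x := (A.filter (fun V => b V ≤ k)).card with hx
  set y := (A.filter (fun V => ¬ b V ≤ k)).card with hy
  set C := (n ^ 2).choose (2 * k) with hCdef
  have h2y : 2 * y ≤ C := by
    have h7 : (k + 1) * (2 * y) ≤ (k + 1) * C := by
      calc (k + 1) * (2 * y) = 2 * ((k + 1) * y) := by ring
        _ ≤ 2 * ∑ V ∈ A, b V := Nat.mul_le_mul_left 2 hmarkov
        _ ≤ k * C := hsumN
        _ ≤ (k + 1) * C := Nat.mul_le_mul_right C (Nat.le_succ k)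
    exact Nat.le_of_mul_le_mul_left h7 (Nat.succ_pos k)
  omega

open Classical in
private theorem bfin_cover {n k : ℕ} :
    (((univ : Finset (Cell n)).powersetCard (2 * k)).filter
      (fun V => ((badT n).filter (fun t => t.1 ∈ V ∧ t.2.1 ∈ V ∧ t.2.2 ∈ V)).card ≤ k)).card ≤
      numNT n k * (n ^ 2 - k).choose k := by
  have hcell : Fintype.card (Cell n) = n ^ 2 := by
    simp [Cell, Fintype.card_prod, pow_two]
  set B : Finset (Finset (Cell n)) :=
    ((univ : Finset (Cell n)).powersetCard k).filter (fun S => NoThree S) with hB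
  have hsub : (((univ : Finset (Cell n)).powersetCard (2 * k)).filter
      (fun V => ((badT n).filter (fun t => t.1 ∈ V ∧ t.2.1 ∈ V ∧ t.2.2 ∈ V)).card ≤ k)) ⊆
      B.biUnion (fun S => ((univ : Finset (Cell n)).powersetCard (2 * k)).filter
        (fun V => S ⊆ V)) := by
    intro V hV
    obtain ⟨hV1, hV2⟩ := Finset.mem_filter.mp hV
    have hVc : V.card = 2 * k := (Finset.mem_powersetCard.mp hV1).2
    obtain ⟨S, hSV, hS, hc⟩ := deletion V k hV2
    obtain ⟨S', hS', hc'⟩ := Finset.exists_subset_card_eq (s := S) (n := k) (by omega)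
    have hNT : NoThree S' := fun p hp q hq r hr => hS p (hS' hp) q (hS' hq) r (hS' hr)
    refine Finset.mem_biUnion.mpr ⟨S', ?_, ?_⟩
    · exact Finset.mem_filter.mpr ⟨Finset.mem_powersetCard.mpr ⟨Finset.subset_univ _, hc'⟩, hNT⟩
    · exact Finset.mem_filter.mpr ⟨hV1, hS'.trans hSV⟩
  refine (Finset.card_le_card hsub).trans ?_
  refine Finset.card_biUnion_le.trans ?_
  have hterm : ∀ S ∈ B, (((univ : Finset (Cell n)).powersetCard (2 * k)).filter
      (fun V => S ⊆ V)).card = (n ^ 2 - k).choose k := by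
    intro S hS
    have hSc : S.card = k := (Finset.mem_powersetCard.mp (Finset.mem_filter.mp hS).1).2
    have h1 := card_super S (m := 2 * k) (by omega)
    rw [hcell, hSc] at h1
    rw [h1]
    congr 1
    omega
  rw [Finset.sum_congr rfl hterm, Finset.sum_const, smul_eq_mul]
  exact le_rfl

theorem lower_bound {n k : ℕ} (hn : 1 ≤ n)
    (h : 256 * (k : ℝ) ^ 2 * (1 + Real.log n) ≤ (n : ℝ) ^ 2) :
    ((n ^ 2).choose k : ℝ) ≤ 8 ^ k * numNT n k := by
  classical
  rcases Nat.eq_zero_or_pos k with rfl | hk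
  · have h1 : 1 ≤ numNT n 0 := by
      unfold numNT
      refine Finset.card_pos.mpr ⟨∅, Finset.mem_filter.mpr ⟨?_, ?_⟩⟩
      · exact Finset.mem_powersetCard.mpr ⟨Finset.empty_subset _, rfl⟩
      · intro p hp
        exact absurd hp (Finset.notMem_empty p)
    have h2 : (1 : ℝ) ≤ (numNT n 0 : ℝ) := by exact_mod_cast h1
    simpa using h2
  · have hn' : (1 : ℝ) ≤ n := by exact_mod_cast hn
    have hlog : 0 ≤ Real.log n := Real.log_nonneg hn'
    have hk' : (1 : ℝ) ≤ k := by exact_mod_cast hk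
    have hkn : 2 * k ≤ n ^ 2 := by
      have h1 : (2 : ℝ) * k ≤ (n : ℝ) ^ 2 := by
        refine le_trans ?_ h
        nlinarith [mul_nonneg (sq_nonneg (k : ℝ)) hlog]
      exact_mod_cast h1
    have hg := bfin_good hn hk h
    have hc := bfin_cover (n := n) (k := k)
    have hmul : (n ^ 2).choose (2 * k) * (2 * k).choose k =
        (n ^ 2).choose k * (n ^ 2 - k).choose k := by
      have h1 := Nat.choose_mul (n := n ^ 2) (k := 2 * k) (s := k) (by omega)
      rw [h1]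
      congr 2
      omega
    have hcent : (2 * k).choose k ≤ 4 ^ k := by
      calc (2 * k).choose k ≤ 2 ^ (2 * k) := Nat.choose_le_two_pow (2 * k) k
        _ = 4 ^ k := by rw [pow_mul]; norm_num
    have hpos : 0 < (n ^ 2 - k).choose k := Nat.choose_pos (by omega)
    have hfin : (n ^ 2).choose k * (n ^ 2 - k).choose k ≤
        (8 ^ k * numNT n k) * (n ^ 2 - k).choose k := by
      have h2 : 2 * 4 ^ k ≤ 8 ^ k := by
        have h3 : (2 : ℕ) ≤ 2 ^ k := by
          calc 2 = 2 ^ 1 := rfl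
            _ ≤ 2 ^ k := Nat.pow_le_pow_right (by omega) hk
        calc 2 * 4 ^ k ≤ 2 ^ k * 4 ^ k := Nat.mul_le_mul_right _ h3
          _ = 8 ^ k := by rw [← mul_pow]; norm_num
      calc (n ^ 2).choose k * (n ^ 2 - k).choose k
          = (n ^ 2).choose (2 * k) * (2 * k).choose k := hmul.symm
        _ ≤ (2 * (numNT n k * (n ^ 2 - k).choose k)) * 4 ^ k :=
            Nat.mul_le_mul (hg.trans (Nat.mul_le_mul_left 2 hc)) hcent
        _ = (2 * 4 ^ k) * (numNT n k * (n ^ 2 - k).choose k) := by ring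
        _ ≤ 8 ^ k * (numNT n k * (n ^ 2 - k).choose k) := Nat.mul_le_mul_right _ h2
        _ = (8 ^ k * numNT n k) * (n ^ 2 - k).choose k := by ring
    have hres : (n ^ 2).choose k ≤ 8 ^ k * numNT n k := Nat.le_of_mul_le_mul_right hfin hpos
    exact_mod_cast hres

end H59.N3
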