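import Pool.Agent.H59.N3.NoTh
import Pool.Agent.H59.N3.Avoid

/-! MODULE N3/CardUnc (40-80 lines).  For a cell `c` the number of `F ⊆ S` with `c ∈ Unc F` is at most
`2^|S| (3/4)^(M S c)`.

Let `D' = {d ∈ Dir A B | 2 ≤ #K d}` with `K d = {v ∈ S | v ≠ c ∧ Lin d v = Lin d c}`, so
`M S c = #D'`.  `#K d ≤ 2` by `card_class_le`, so `#K d = 2` on `D'`.  For `d ≠ e` the sets are
disjoint by `dir_unique` (`v ≠ c`).  If `c ∈ Unc F` and `F ⊆ S` then no `K d` (`d ∈ D'`) is contained in
`F` (otherwise `K d ⊆ {v ∈ F | v ≠ c ∧ Lin d v = Lin d c}` has at most one element).  Apply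
`card_avoid` and `Finset.card_le_card`. -/

set_option autoImplicit false
namespace H59.N3
open Finset

open Classical in
theorem card_unc {n A B : ℕ} {S : Finset (Cell n)} (hS : NoThree S) (c : Cell n) :
    ((S.powerset.filter (fun F => c ∈ Unc (Dir A B) F)).card : ℝ) ≤
      2 ^ S.card * (3 / 4) ^ (M (Dir A B) S c) := by
  have key := card_avoid S
    ((Dir A B).filter (fun d => 2 ≤ (S.filter (fun v => v ≠ c ∧ Lin d v = Lin d c)).card))
    (fun d => S.filter (fun v => v ≠ c ∧ Lin d v = Lin d c))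
    (fun d _ => Finset.filter_subset _ _)
    (by
      intro d hd
      have hd' := (Finset.mem_filter.1 hd)
      refine le_antisymm ?_ hd'.2
      refine le_trans (Finset.card_le_card ?_) (card_class_le hS hd'.1 (Lin d c))
      intro v hv
      rw [Finset.mem_filter] at hv ⊢
      exact ⟨hv.1, hv.2.2⟩)
    (by
      intro d hd e he hde
      rw [Finset.disjoint_left]
      intro v hv hv'
      rw [Finset.mem_filter] at hv hv'
      exact hde (dir_unique (Finset.mem_filter.1 hd).1 (Finset.mem_filter.1 he).1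
        hv.2.1 hv.2.2 hv'.2.2))
  have hM : M (Dir A B) S c =
      ((Dir A B).filter (fun d =>
        2 ≤ (S.filter (fun v => v ≠ c ∧ Lin d v = Lin d c)).card)).card := rfl
  rw [hM, ← key]
  exact_mod_cast Finset.card_le_card (by
    intro F hF
    rw [Finset.mem_filter, Finset.mem_powerset] at hF ⊢
    refine ⟨hF.1, ?_⟩
    intro d hd hsub
    have hd' := (Finset.mem_filter.1 hd)
    have h1 : c ∈ Unc (Dir A B) F := hF.2
    rw [Unc, Finset.mem_filter] at h1
    have h2 := h1.2 d hd'.1
    have h3 : (S.filter (fun v => v ≠ c ∧ Lin d v = Lin d c)) ⊆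
        (F.filter (fun v => v ≠ c ∧ Lin d v = Lin d c)) := by
      intro v hv
      rw [Finset.mem_filter]
      exact ⟨hsub hv, (Finset.mem_filter.1 hv).2⟩
    have h4 := Finset.card_le_card h3
    exact absurd (le_trans hd'.2 (le_trans h4 h2)) (by norm_num))

end H59.N3
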