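import Mathlib

/-! MODULE N3/ChS (50-90 lines, Mathlib only).

* `choose_sub_le`: induction on `k`: `(m - k) C(N-k, m-k) = (N-k) C(N-k-1, m-k-1)`
  (`Nat.succ_mul_choose_eq` or `Nat.add_one_mul_choose_eq`) and `N (m - k) ≤ m (N - k)`; so
  `N^(k+1) C(N-k-1, m-k-1) (N-k) = N^k C(N-k,m-k) N (m-k) ≤ m^k C(N,m) m (N-k)`.
* `card_super`: `V ↦ V \ S` is a bijection from the `m`-sets which contain `S` to the
  `(m - |S|)`-subsets of `univ \ S`.
* `card_super_le`: the two together (`S.card = k ≤ m`, otherwise there is no such `V`;
  `m ≤ N`, otherwise there is no `V`). -/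

set_option autoImplicit false
namespace H59.N3
open Finset

theorem choose_sub_le {N m k : ℕ} (hk : k ≤ m) (hm : m ≤ N) :
    N ^ k * (N - k).choose (m - k) ≤ m ^ k * N.choose m := by
  induction k with
  | zero => simp
  | succ k ih =>
    have ih' := ih (by omega)
    obtain ⟨a, ha⟩ : ∃ a, N = a + 1 + k := ⟨N - k - 1, by omega⟩
    obtain ⟨b, hb⟩ : ∃ b, m = b + 1 + k := ⟨m - k - 1, by omega⟩
    have hab : b ≤ a := by omega
    have e1 : N - k = a + 1 := by omega
    have e2 : m - k = b + 1 := by omega
    have e3 : N - (k + 1) = a := by omega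
    have e4 : m - (k + 1) = b := by omega
    rw [e1, e2] at ih'
    rw [e3, e4]
    have hid := Nat.add_one_mul_choose_eq a b
    have hNb : N * (b + 1) ≤ m * (a + 1) := by
      rw [ha, hb]; nlinarith
    refine Nat.le_of_mul_le_mul_right (c := a + 1) ?_ (by omega)
    calc N ^ (k + 1) * a.choose b * (a + 1) = N ^ (k + 1) * ((a + 1) * a.choose b) := by ring
      _ = N ^ (k + 1) * ((a + 1).choose (b + 1) * (b + 1)) := by rw [hid]
      _ = (N ^ k * (a + 1).choose (b + 1)) * (N * (b + 1)) := by ring
      _ ≤ (m ^ k * N.choose m) * (m * (a + 1)) := Nat.mul_le_mul ih' hNb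
      _ = m ^ (k + 1) * N.choose m * (a + 1) := by ring

theorem card_super {α : Type*} [Fintype α] [DecidableEq α] (S : Finset α) {m : ℕ}
    (hS : S.card ≤ m) :
    (((univ : Finset α).powersetCard m).filter (fun V => S ⊆ V)).card =
      (Fintype.card α - S.card).choose (m - S.card) := by
  have h : (powersetCard (m - S.card) (univ \ S)).card =
      (Fintype.card α - S.card).choose (m - S.card) := by
    rw [card_powersetCard, card_univ_sdiff]
  rw [← h]
  refine Finset.card_nbij' (fun V => V \ S) (fun W => W ∪ S) ?_ ?_ ?_ ?_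
  · intro V hV
    simp only [coe_filter, mem_powersetCard, Set.mem_ofPred_eq] at hV
    simp only [mem_coe, mem_powersetCard]
    refine ⟨sdiff_subset_sdiff (subset_univ _) (Subset.refl _), ?_⟩
    rw [card_sdiff_of_subset hV.2, hV.1.2]
  · intro W hW
    simp only [mem_coe, mem_powersetCard] at hW
    simp only [coe_filter, mem_powersetCard, Set.mem_ofPred_eq]
    have hd : Disjoint W S := by
      rw [disjoint_left]
      intro x hx hxS
      have := hW.1 hx
      simp [hxS] at this
    refine ⟨⟨subset_univ _, ?_⟩, subset_union_right⟩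
    rw [card_union_of_disjoint hd, hW.2]; omega
  · intro V hV
    simp only [coe_filter, mem_powersetCard, Set.mem_ofPred_eq] at hV
    exact sdiff_union_of_subset hV.2
  · intro W hW
    simp only [mem_coe, mem_powersetCard] at hW
    have hd : Disjoint W S := by
      rw [disjoint_left]
      intro x hx hxS
      have := hW.1 hx
      simp [hxS] at this
    exact union_sdiff_cancel_right hd

theorem card_super_le {α : Type*} [Fintype α] [DecidableEq α] (S : Finset α) (m : ℕ) :
    (Fintype.card α) ^ S.card * (((univ : Finset α).powersetCard m).filter (fun V => S ⊆ V)).card ≤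
      m ^ S.card * (Fintype.card α).choose m := by
  by_cases hS : S.card ≤ m
  · by_cases hm : m ≤ Fintype.card α
    · rw [card_super S hS]
      exact choose_sub_le hS hm
    · have : (((univ : Finset α).powersetCard m).filter (fun V => S ⊆ V)) = ∅ := by
        rw [powersetCard_eq_empty.2 (by rw [card_univ]; omega)]; simp
      rw [this]; simp
  · have : (((univ : Finset α).powersetCard m).filter (fun V => S ⊆ V)) = ∅ := by
      rw [filter_eq_empty_iff]
      intro V hV hSV
      rw [mem_powersetCard] at hV
      have := card_le_card hSV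
      omega
    rw [this]; simp

end H59.N3
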