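import Pool.Agent.H59.N3.Wb

/-! MODULE N3/HalfB (50-100 lines).  At least half of `X` lies in `Bs`.

`X \ Bs ⊆ {s ∈ X | κ < gQ s} ∪ {p ∈ X | 16 κ < deg p}` where `deg p = ∑ s ∈ C1, ν s * W p s`.  The first
set has at most `|X|/4` elements (`h1`).  For the second:
`∑ p ∈ X, deg p = ∑ s ∈ C1, ν s * ∑ p ∈ X, W p s ≤ ∑ s ∈ C1, ν s * (4 κ |X|) ≤ 4 κ |X|` (`h2`, since
`gQ s ≤ κ` on `C1`), so (Markov, `deg ≥ 0`) at most `4 κ |X| / (16 κ) = |X|/4` elements.  Hence
`|X| - |X ∩ Bs| = |X \ Bs| ≤ |X|/2`. -/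

set_option autoImplicit false
namespace H59.N3
open Finset

open Classical in
theorem half_B {n q : ℕ} {D : Finset (ℕ × ℕ)} {X : Finset (Cell n)} {κ : ℝ} {ν : Cell n → ℝ}
    {Q : Fin q → Cell n} (h0 : ∀ c, 0 ≤ ν c) (hs : ∑ c, ν c ≤ 1) (hκ : 0 < κ)
    (h1 : ((X.filter (fun s => κ < gQ D ν Q s)).card : ℝ) ≤ X.card / 4)
    (h2 : ∀ s, gQ D ν Q s ≤ κ → ∑ p ∈ X, W D ν p s ≤ 4 * κ * X.card) :
    (X.card : ℝ) ≤ 2 * ((X ∩ Bs D κ (16 * κ) ν Q).card : ℝ) := by
  have hX0 : (0 : ℝ) ≤ (X.card : ℝ) := Nat.cast_nonneg _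
  set C : Finset (Cell n) := C1 D κ ν Q with hC
  have hdeg0 : ∀ p, 0 ≤ deg D ν C p := by
    intro p
    unfold deg
    exact Finset.sum_nonneg (fun s _ => mul_nonneg (h0 s) (W_nonneg D h0 p s))
  -- total degree
  have htot : ∑ p ∈ X, deg D ν C p ≤ 4 * κ * X.card := by
    have e1 : ∑ p ∈ X, deg D ν C p = ∑ s ∈ C, ν s * ∑ p ∈ X, W D ν p s := by
      unfold deg
      rw [Finset.sum_comm]
      exact Finset.sum_congr rfl (fun s _ => (Finset.mul_sum _ _ _).symm)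
    rw [e1]
    have e2 : ∑ s ∈ C, ν s * ∑ p ∈ X, W D ν p s ≤ ∑ s ∈ C, ν s * (4 * κ * X.card) := by
      refine Finset.sum_le_sum (fun s hs' => mul_le_mul_of_nonneg_left ?_ (h0 s))
      rw [hC] at hs'
      unfold C1 at hs'
      exact h2 s (Finset.mem_filter.mp hs').2
    have e3 : ∑ s ∈ C, ν s ≤ 1 :=
      le_trans (Finset.sum_le_sum_of_subset_of_nonneg (Finset.subset_univ _) (fun c _ _ => h0 c)) hs
    have e4 : ∑ s ∈ C, ν s * (4 * κ * X.card) = (∑ s ∈ C, ν s) * (4 * κ * X.card) :=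
      (Finset.sum_mul _ _ _).symm
    have e5 : (∑ s ∈ C, ν s) * (4 * κ * X.card) ≤ 1 * (4 * κ * X.card) :=
      mul_le_mul_of_nonneg_right e3 (by positivity)
    linarith
  -- Markov
  have hmark : ((X.filter (fun p => 16 * κ < deg D ν C p)).card : ℝ) ≤ X.card / 4 := by
    have e1 : ((X.filter (fun p => 16 * κ < deg D ν C p)).card : ℝ) * (16 * κ) ≤
        ∑ p ∈ X, deg D ν C p := by
      have e2 : ((X.filter (fun p => 16 * κ < deg D ν C p)).card : ℝ) * (16 * κ) =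
          ∑ p ∈ X.filter (fun p => 16 * κ < deg D ν C p), (16 * κ) := by
        rw [Finset.sum_const, nsmul_eq_mul]
      rw [e2]
      refine le_trans (Finset.sum_le_sum (fun p hp => (Finset.mem_filter.mp hp).2.le)) ?_
      exact Finset.sum_le_sum_of_subset_of_nonneg (Finset.filter_subset _ _)
        (fun p _ _ => hdeg0 p)
    have e3 := le_trans e1 htot
    have h16 : (0 : ℝ) < 16 * κ := by positivity
    rw [← le_div_iff₀ h16] at e3
    have e4 : 4 * κ * (X.card : ℝ) / (16 * κ) = X.card / 4 := by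
      field_simp
      ring
    rw [e4] at e3
    exact e3
  have hsub : X \ Bs D κ (16 * κ) ν Q ⊆
      (X.filter (fun s => κ < gQ D ν Q s)) ∪ (X.filter (fun p => 16 * κ < deg D ν C p)) := by
    intro p hp
    rw [Finset.mem_sdiff] at hp
    obtain ⟨hpX, hpB⟩ := hp
    rw [Finset.mem_union, Finset.mem_filter, Finset.mem_filter]
    by_cases hg : κ < gQ D ν Q p
    · exact Or.inl ⟨hpX, hg⟩
    · right
      refine ⟨hpX, ?_⟩
      by_contra hcon
      apply hpB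
      unfold Bs
      rw [Finset.mem_filter]
      refine ⟨?_, not_lt.mp hcon⟩
      unfold C1
      exact Finset.mem_filter.mpr ⟨Finset.mem_univ _, not_lt.mp hg⟩
  have hcard : ((X \ Bs D κ (16 * κ) ν Q).card : ℝ) ≤ X.card / 2 := by
    have e1 : ((X \ Bs D κ (16 * κ) ν Q).card : ℝ) ≤
        ((X.filter (fun s => κ < gQ D ν Q s)).card : ℝ) +
          ((X.filter (fun p => 16 * κ < deg D ν C p)).card : ℝ) := by
      have := (Finset.card_le_card hsub).trans (Finset.card_union_le _ _)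
      exact_mod_cast this
    linarith
  have hsum : ((X \ Bs D κ (16 * κ) ν Q).card : ℝ) + ((X ∩ Bs D κ (16 * κ) ν Q).card : ℝ) =
      X.card := by
    have := Finset.card_sdiff_add_card_inter X (Bs D κ (16 * κ) ν Q)
    exact_mod_cast this
  linarith

end H59.N3
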