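import Pool.Agent.H59.N3.NoTh

/-! MODULE N3/Low (60-120 lines).  Low weight of the pairs.

* `low`: split the sum over `c` into cells with `M S c < m0` (contribution `≤ m0 * ∑ ν c ≤ m0`) and
  `m0 ≤ M S c` (only cells of `Unc F` contribute, each at most `M0 * M S c`).
* `pair_sum`: exchange the sums: the left side is
  `∑ c, ν c * ∑ d ∈ Dir A B, #{(p, s) ∈ X × X | p ≠ s, p ≠ c, s ≠ c, Lin d p = Lin d s = Lin d c}`
  and the inner number is `k (k - 1)` with `k = #{v ∈ X | v ≠ c ∧ Lin d v = Lin d c} ≤ 2`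
  (`card_class_le`), which is `0` unless `2 ≤ k`, and then `d` is counted in `M S c` (`X ⊆ S`), so it
  is at most `2 *` the indicator of `2 ≤ #{v ∈ S | v ≠ c ∧ Lin d v = Lin d c}`. -/

set_option autoImplicit false
namespace H59.N3
open Finset

open Classical in
theorem low {n A B : ℕ} {S F : Finset (Cell n)} {m0 : ℕ} {M0 Z : ℝ} {ν : Cell n → ℝ}
    (h0 : ∀ c, 0 ≤ ν c) (hM : ∀ c, ν c ≤ M0) (hM0 : 0 ≤ M0)
    (hsupp : ∀ c, c ∉ Unc (Dir A B) F → ν c = 0) (hsum : ∑ c, ν c ≤ 1)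
    (hF : ∑ c ∈ (Unc (Dir A B) F).filter (fun c => m0 ≤ M (Dir A B) S c),
        (M (Dir A B) S c : ℝ) ≤ Z) :
    ∑ c, ν c * (M (Dir A B) S c : ℝ) ≤ m0 + M0 * Z := by
  have key : ∀ c, ν c * (M (Dir A B) S c : ℝ) ≤ ν c * m0 +
      (if c ∈ (Unc (Dir A B) F).filter (fun c => m0 ≤ M (Dir A B) S c) then
        M0 * (M (Dir A B) S c : ℝ) else 0) := by
    intro c
    by_cases hm : m0 ≤ M (Dir A B) S c
    · by_cases hu : c ∈ Unc (Dir A B) F
      · rw [if_pos (mem_filter.2 ⟨hu, hm⟩)]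
        have e1 := mul_le_mul_of_nonneg_right (hM c) (Nat.cast_nonneg (α := ℝ) (M (Dir A B) S c))
        have e2 := mul_nonneg (h0 c) (Nat.cast_nonneg (α := ℝ) m0)
        linarith
      · rw [hsupp c hu, if_neg (fun h => hu (mem_filter.1 h).1)]
        simp
    · have hn : ¬ (c ∈ (Unc (Dir A B) F).filter (fun c => m0 ≤ M (Dir A B) S c)) :=
        fun h => hm (mem_filter.1 h).2
      rw [if_neg hn, add_zero]
      apply mul_le_mul_of_nonneg_left _ (h0 c)
      exact_mod_cast le_of_lt (not_le.1 hm)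
  calc ∑ c, ν c * (M (Dir A B) S c : ℝ)
      ≤ ∑ c, (ν c * m0 + (if c ∈ (Unc (Dir A B) F).filter (fun c => m0 ≤ M (Dir A B) S c) then
        M0 * (M (Dir A B) S c : ℝ) else 0)) := Finset.sum_le_sum fun c _ => key c
    _ = (∑ c, ν c) * m0 + M0 * ∑ c ∈ (Unc (Dir A B) F).filter (fun c => m0 ≤ M (Dir A B) S c),
        (M (Dir A B) S c : ℝ) := by
        rw [Finset.sum_add_distrib, ← Finset.sum_mul, Finset.mul_sum]
        congr 1
        rw [← Finset.sum_filter]
        apply Finset.sum_congr _ (fun _ _ => rfl)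
        ext c
        simp
    _ ≤ m0 + M0 * Z := by
        have e1 : (∑ c, ν c) * (m0 : ℝ) ≤ 1 * m0 :=
          mul_le_mul_of_nonneg_right hsum (Nat.cast_nonneg _)
        have e2 := mul_le_mul_of_nonneg_left hF hM0
        linarith

open Classical in
theorem W_eq {n : ℕ} (D : Finset (ℕ × ℕ)) (ν : Cell n → ℝ) (p s : Cell n) :
    W D ν p s = ∑ d ∈ D, ∑ c, if (p ≠ s ∧ Lin d p = Lin d s ∧ c ≠ p ∧ c ≠ s ∧ Lin d c = Lin d p)
      then ν c else 0 := by
  unfold W
  by_cases hps : p = s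
  · rw [if_pos hps]
    symm
    apply Finset.sum_eq_zero
    intro d _
    apply Finset.sum_eq_zero
    intro c _
    rw [if_neg]
    rintro ⟨h, _⟩
    exact h hps
  · rw [if_neg hps]
    apply Finset.sum_congr rfl
    intro d _
    by_cases hl : Lin d p = Lin d s
    · rw [if_pos hl, Finset.sum_filter]
      apply Finset.sum_congr rfl
      intro c _
      by_cases hc : c ≠ p ∧ c ≠ s ∧ Lin d c = Lin d p
      · rw [if_pos hc, if_pos ⟨hps, hl, hc⟩]
      · rw [if_neg hc, if_neg]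
        rintro ⟨_, _, h⟩
        exact hc h
    · rw [if_neg hl]
      symm
      apply Finset.sum_eq_zero
      intro c _
      rw [if_neg]
      rintro ⟨_, h, _⟩
      exact hl h

open Classical in
theorem cnt_le {n A B : ℕ} {S X : Finset (Cell n)} (hS : NoThree S) (hX : X ⊆ S) {d : ℕ × ℕ}
    (hd : d ∈ Dir A B) (c : Cell n) :
    (∑ p ∈ X, ∑ s ∈ X, if (p ≠ s ∧ Lin d p = Lin d s ∧ c ≠ p ∧ c ≠ s ∧ Lin d c = Lin d p)
      then (1 : ℝ) else 0) ≤
      2 * (if 2 ≤ (S.filter (fun v => v ≠ c ∧ Lin d v = Lin d c)).card then 1 else 0) := by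
  set K := X.filter (fun v => v ≠ c ∧ Lin d v = Lin d c) with hK
  have hKS : K ⊆ S.filter (fun v => v ≠ c ∧ Lin d v = Lin d c) := by
    intro v hv
    rw [hK, mem_filter] at hv
    exact mem_filter.2 ⟨hX hv.1, hv.2⟩
  have hK2 : K.card ≤ 2 := by
    refine le_trans (Finset.card_le_card ?_) (card_class_le hS hd (Lin d c))
    intro v hv
    rw [hK, mem_filter] at hv
    exact mem_filter.2 ⟨hX hv.1, hv.2.2⟩
  have h1 : (∑ p ∈ X, ∑ s ∈ X, if (p ≠ s ∧ Lin d p = Lin d s ∧ c ≠ p ∧ c ≠ s ∧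
      Lin d c = Lin d p) then (1 : ℝ) else 0) = (K.offDiag.card : ℝ) := by
    rw [← Finset.sum_product' (s := X) (t := X)
      (f := fun p s => if (p ≠ s ∧ Lin d p = Lin d s ∧ c ≠ p ∧ c ≠ s ∧ Lin d c = Lin d p)
        then (1 : ℝ) else 0)]
    rw [← Finset.sum_filter, Finset.sum_const, nsmul_eq_mul, mul_one]
    congr 2
    ext ⟨p, s⟩
    simp only [mem_filter, mem_product, mem_offDiag, hK]
    constructor
    · rintro ⟨⟨hp, hs⟩, h1, h2, h3, h4, h5⟩
      exact ⟨⟨hp, fun h => h3 h.symm, h5.symm⟩, ⟨hs, fun h => h4 h.symm, h2 ▸ h5.symm⟩, h1⟩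
    · rintro ⟨⟨hp, h3, h5⟩, ⟨hs, h4, h6⟩, h1⟩
      exact ⟨⟨hp, hs⟩, h1, by rw [h5, h6], fun h => h3 h.symm, fun h => h4 h.symm, h5.symm⟩
  rw [h1, Finset.offDiag_card]
  by_cases h2 : 2 ≤ (S.filter (fun v => v ≠ c ∧ Lin d v = Lin d c)).card
  · rw [if_pos h2]
    have : K.card * K.card - K.card ≤ 2 := by
      interval_cases K.card <;> simp
    have h3 : ((K.card * K.card - K.card : ℕ) : ℝ) ≤ 2 := by exact_mod_cast this
    linarith
  · rw [if_neg h2]
    have h3 : K.card ≤ 1 := by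
      have := Finset.card_le_card hKS
      omega
    have : K.card * K.card - K.card = 0 := by
      interval_cases K.card <;> simp
    rw [this]
    simp

theorem pair_sum {n A B : ℕ} {S X : Finset (Cell n)} (hS : NoThree S) (hX : X ⊆ S)
    {ν : Cell n → ℝ} (h0 : ∀ c, 0 ≤ ν c) :
    ∑ p ∈ X, ∑ s ∈ X, W (Dir A B) ν p s ≤ 2 * ∑ c, ν c * (M (Dir A B) S c : ℝ) := by
  classical
  have h1 : ∑ p ∈ X, ∑ s ∈ X, W (Dir A B) ν p s = ∑ c, ν c * ∑ d ∈ Dir A B,
      ∑ p ∈ X, ∑ s ∈ X, if (p ≠ s ∧ Lin d p = Lin d s ∧ c ≠ p ∧ c ≠ s ∧ Lin d c = Lin d p)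
        then (1 : ℝ) else 0 := by
    calc ∑ p ∈ X, ∑ s ∈ X, W (Dir A B) ν p s
        = ∑ p ∈ X, ∑ s ∈ X, ∑ d ∈ Dir A B, ∑ c,
          (if (p ≠ s ∧ Lin d p = Lin d s ∧ c ≠ p ∧ c ≠ s ∧ Lin d c = Lin d p)
            then ν c else 0) := by
          apply Finset.sum_congr rfl
          intro p _
          apply Finset.sum_congr rfl
          intro s _
          exact W_eq _ _ _ _
      _ = ∑ p ∈ X, ∑ s ∈ X, ∑ c, ∑ d ∈ Dir A B,
          (if (p ≠ s ∧ Lin d p = Lin d s ∧ c ≠ p ∧ c ≠ s ∧ Lin d c = Lin d p)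
            then ν c else 0) := by
          apply Finset.sum_congr rfl
          intro p _
          apply Finset.sum_congr rfl
          intro s _
          exact Finset.sum_comm
      _ = ∑ p ∈ X, ∑ c, ∑ s ∈ X, ∑ d ∈ Dir A B,
          (if (p ≠ s ∧ Lin d p = Lin d s ∧ c ≠ p ∧ c ≠ s ∧ Lin d c = Lin d p)
            then ν c else 0) := by
          apply Finset.sum_congr rfl
          intro p _
          exact Finset.sum_comm
      _ = ∑ c, ∑ p ∈ X, ∑ s ∈ X, ∑ d ∈ Dir A B,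
          (if (p ≠ s ∧ Lin d p = Lin d s ∧ c ≠ p ∧ c ≠ s ∧ Lin d c = Lin d p)
            then ν c else 0) := Finset.sum_comm
      _ = ∑ c, ν c * ∑ d ∈ Dir A B, ∑ p ∈ X, ∑ s ∈ X,
          (if (p ≠ s ∧ Lin d p = Lin d s ∧ c ≠ p ∧ c ≠ s ∧ Lin d c = Lin d p)
            then (1 : ℝ) else 0) := by
          apply Finset.sum_congr rfl
          intro c _
          have e1 : ∑ p ∈ X, ∑ s ∈ X, ∑ d ∈ Dir A B,
              (if (p ≠ s ∧ Lin d p = Lin d s ∧ c ≠ p ∧ c ≠ s ∧ Lin d c = Lin d p)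
                then ν c else 0) = ∑ d ∈ Dir A B, ∑ p ∈ X, ∑ s ∈ X,
              (if (p ≠ s ∧ Lin d p = Lin d s ∧ c ≠ p ∧ c ≠ s ∧ Lin d c = Lin d p)
                then ν c else 0) := by
            rw [Finset.sum_comm (s := Dir A B) (t := X)]
            apply Finset.sum_congr rfl
            intro p _
            exact Finset.sum_comm
          rw [e1, Finset.mul_sum]
          apply Finset.sum_congr rfl
          intro d _
          rw [Finset.mul_sum]
          apply Finset.sum_congr rfl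
          intro p _
          rw [Finset.mul_sum]
          apply Finset.sum_congr rfl
          intro s _
          rw [mul_ite, mul_one, mul_zero]
  rw [h1, Finset.mul_sum]
  apply Finset.sum_le_sum
  intro c _
  have h2 : (∑ d ∈ Dir A B, ∑ p ∈ X, ∑ s ∈ X,
      if (p ≠ s ∧ Lin d p = Lin d s ∧ c ≠ p ∧ c ≠ s ∧ Lin d c = Lin d p)
        then (1 : ℝ) else 0) ≤ 2 * (M (Dir A B) S c : ℝ) := by
    calc _ ≤ ∑ d ∈ Dir A B, 2 * (if 2 ≤ (S.filter (fun v => v ≠ c ∧ Lin d v = Lin d c)).card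
          then (1 : ℝ) else 0) := Finset.sum_le_sum fun d hd => cnt_le hS hX hd c
      _ = 2 * (M (Dir A B) S c : ℝ) := by
          rw [← Finset.mul_sum]
          congr 1
          unfold M
          rw [← Finset.sum_filter, Finset.sum_const, nsmul_eq_mul, mul_one]
  calc _ ≤ ν c * (2 * (M (Dir A B) S c : ℝ)) := mul_le_mul_of_nonneg_left h2 (h0 c)
    _ = 2 * (ν c * (M (Dir A B) S c : ℝ)) := by ring

end H59.N3
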