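import Pool.Agent.H59.N3.Geo

/-! MODULE N3/Wb (40-80 lines).  Bounds for `W`.

* `W_nonneg`, `W_symm` (for any set `D` of directions): in the definition swap `p` and `s`
  (`Lin d p = Lin d s`, the filters agree).
* `W_le`: for `p ≠ s` at most one `d ∈ Dir A B` has `Lin d p = Lin d s` (`dir_unique`); its line has at
  most `n / d.1 + 1 ≤ n / A + 1 ≤ 2 n / A` cells (`card_line_le`, `A < d.1`, `1 ≤ A ≤ n`), each of mass
  `≤ M0` (`M0 ≥ 0` follows from `0 ≤ ν p ≤ M0`). -/

set_option autoImplicit false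
namespace H59.N3
open Finset

theorem W_nonneg {n : ℕ} (D : Finset (ℕ × ℕ)) {ν : Cell n → ℝ} (h0 : ∀ c, 0 ≤ ν c) (p s : Cell n) :
    0 ≤ W D ν p s := by
  unfold W
  split_ifs with h
  · exact le_rfl
  · refine sum_nonneg fun d _ => ?_
    split_ifs with h1
    · exact sum_nonneg fun c _ => h0 c
    · exact le_rfl

theorem W_symm {n : ℕ} (D : Finset (ℕ × ℕ)) (ν : Cell n → ℝ) (p s : Cell n) :
    W D ν p s = W D ν s p := by
  unfold W
  by_cases h : p = s
  · rw [if_pos h, if_pos h.symm]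
  · rw [if_neg h, if_neg fun h' => h h'.symm]
    refine sum_congr rfl fun d _ => ?_
    by_cases h1 : Lin d p = Lin d s
    · rw [if_pos h1, if_pos h1.symm]
      refine sum_congr ?_ fun _ _ => rfl
      ext c
      simp only [mem_filter, mem_univ, true_and, h1]
      tauto
    · rw [if_neg h1, if_neg fun h' => h1 h'.symm]

theorem W_le {n A B : ℕ} (hA : 1 ≤ A) (hAn : A ≤ n) {ν : Cell n → ℝ} {M0 : ℝ}
    (h0 : ∀ c, 0 ≤ ν c) (hM : ∀ c, ν c ≤ M0) (p s : Cell n) :
    W (Dir A B) ν p s ≤ M0 * (2 * n / A) := by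
  have hM0 : 0 ≤ M0 := (h0 p).trans (hM p)
  have hAr : (0 : ℝ) < A := by exact_mod_cast hA
  have hr : 0 ≤ M0 * (2 * (n : ℝ) / A) := by positivity
  unfold W
  by_cases h : p = s
  · rw [if_pos h]
    exact hr
  rw [if_neg h]
  by_cases hex : ∃ d ∈ Dir A B, Lin d p = Lin d s
  · obtain ⟨d, hd, hl⟩ := hex
    rw [sum_eq_single_of_mem d hd fun d' hd' hne => by
      rw [if_neg fun hl' => hne (dir_unique hd' hd h hl' hl)]]
    rw [if_pos hl]
    have hda : A < d.1 := by
      unfold Dir at hd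
      rw [mem_filter, mem_product, mem_Ioc] at hd
      exact hd.1.1.1
    have hc : (univ.filter (fun c : Cell n => c ≠ p ∧ c ≠ s ∧ Lin d c = Lin d p)).card ≤
        n / d.1 + 1 :=
      (card_le_card (by
        intro c hc
        rw [mem_filter] at hc ⊢
        exact ⟨hc.1, hc.2.2.2⟩)).trans (card_line_le hd (Lin d p))
    have h1 : ∑ c ∈ univ.filter (fun c : Cell n => c ≠ p ∧ c ≠ s ∧ Lin d c = Lin d p), ν c ≤
        ((univ.filter (fun c : Cell n => c ≠ p ∧ c ≠ s ∧ Lin d c = Lin d p)).card : ℝ) * M0 := by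
      have := sum_le_card_nsmul
        (univ.filter (fun c : Cell n => c ≠ p ∧ c ≠ s ∧ Lin d c = Lin d p)) ν M0
        fun c _ => hM c
      rwa [nsmul_eq_mul] at this
    have h2 : ((n / d.1 : ℕ) : ℝ) ≤ (n : ℝ) / A := by
      refine Nat.cast_div_le.trans ?_
      exact div_le_div_of_nonneg_left (Nat.cast_nonneg n) hAr (by exact_mod_cast hda.le)
    have h3 : (1 : ℝ) ≤ (n : ℝ) / A := by
      rw [le_div_iff₀ hAr, one_mul]
      exact_mod_cast hAn
    have h4 : ((univ.filter (fun c : Cell n => c ≠ p ∧ c ≠ s ∧ Lin d c = Lin d p)).card : ℝ) ≤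
        2 * (n : ℝ) / A := by
      have h5 : ((univ.filter (fun c : Cell n => c ≠ p ∧ c ≠ s ∧ Lin d c = Lin d p)).card : ℝ) ≤
          ((n / d.1 : ℕ) : ℝ) + 1 := by exact_mod_cast hc
      have h6 : 2 * (n : ℝ) / A = (n : ℝ) / A + (n : ℝ) / A := by ring
      rw [h6]
      linarith
    calc _ ≤ _ := h1
      _ ≤ 2 * (n : ℝ) / A * M0 := mul_le_mul_of_nonneg_right h4 hM0
      _ = M0 * (2 * (n : ℝ) / A) := mul_comm _ _
  · rw [sum_eq_zero fun d hd => by rw [if_neg fun hl => hex ⟨d, hd, hl⟩]]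
    exact hr

end H59.N3
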