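import Pool.Agent.H59.N3.Super
import Pool.Agent.H59.N3.Wb

/-! MODULE N3/Mass (60-100 lines).  `ν (Bs) ≤ 1/16`.

Let `B = Bs D κ τ ν Q ⊆ C = C1 D κ ν Q`, `f = ν * 1_B`, `β = ∑ f = ν(B)`.  Since `f ≤ ν` pointwise,
`W f p s ≤ W ν p s` and
`∑ p, ∑ s, f p f s W f p s ≤ ∑ p ∈ B, ν p ∑ s ∈ C, ν s W ν p s = ∑ p ∈ B, ν p deg p ≤ τ β`.
With `super`: `β^3 J / (32 n^2) - (9/2) M0^2 β |D| ≤ τ β`.  If `β > 0` divide by `β`:
`β^2 ≤ (32 n^2 / J) (τ + (9/2) M0^2 |D|) ≤ 1/256`, so `β ≤ 1/16`. -/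

set_option autoImplicit false
namespace H59.N3
open Finset

theorem mass_W_mono {n : ℕ} (D : Finset (ℕ × ℕ)) {f ν : Cell n → ℝ} (hf : ∀ c, f c ≤ ν c)
    (p s : Cell n) : W D f p s ≤ W D ν p s := by
  unfold W
  split_ifs with h
  · exact le_rfl
  · refine sum_le_sum fun d _ => ?_
    split_ifs with h1
    · exact sum_le_sum fun c _ => hf c
    · exact le_rfl

theorem mass_B {n q r J : ℕ} (hn : 1 ≤ n) (hr : 1 ≤ r) (hJ : 1 ≤ J) {κ τ M0 : ℝ}
    {ν : Cell n → ℝ} {Q : Fin q → Cell n} (h0 : ∀ c, 0 ≤ ν c) (hM : ∀ c, ν c ≤ M0)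
    (hpar : 32 * (n : ℝ) ^ 2 / J * (τ + 9 / 2 * M0 ^ 2 * (Dir r (4 ^ J * r)).card) ≤ 1 / 256) :
    ∑ c ∈ Bs (Dir r (4 ^ J * r)) κ τ ν Q, ν c ≤ 1 / 16 := by
  classical
  set D : Finset (ℕ × ℕ) := Dir r (4 ^ J * r) with hD
  set B : Finset (Cell n) := Bs D κ τ ν Q with hB
  set C : Finset (Cell n) := C1 D κ ν Q with hC
  set f : Cell n → ℝ := fun c => if c ∈ B then ν c else 0 with hf
  have hf0 : ∀ c, 0 ≤ f c := by
    intro c
    simp only [hf]
    split_ifs
    · exact h0 c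
    · exact le_rfl
  have hfν : ∀ c, f c ≤ ν c := by
    intro c
    simp only [hf]
    split_ifs
    · exact le_rfl
    · exact h0 c
  have hfM : ∀ c, f c ≤ M0 := fun c => (hfν c).trans (hM c)
  have hsum : ∑ c, f c = ∑ c ∈ B, ν c := by
    simp only [hf]
    rw [← Finset.sum_filter]
    refine Finset.sum_congr ?_ fun _ _ => rfl
    ext c
    simp
  have hBC : B ⊆ C := by
    rw [hB]
    unfold Bs
    exact filter_subset _ _
  have hsup := super (J := J) hn hr hf0 hfM
  rw [← hD, hsum] at hsup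
  set β : ℝ := ∑ c ∈ B, ν c with hβ
  have hβ0 : 0 ≤ β := Finset.sum_nonneg fun c _ => h0 c
  have hle : ∑ p, ∑ s, f p * f s * W D f p s ≤ τ * β := by
    have h1 : ∀ p, ∑ s, f p * f s * W D f p s ≤ if p ∈ B then ν p * τ else 0 := by
      intro p
      by_cases hp : p ∈ B
      · rw [if_pos hp]
        have hdeg : deg D ν C p ≤ τ := by
          have hp' := hp
          rw [hB] at hp'
          unfold Bs at hp'
          exact (mem_filter.1 hp').2
        have h2 : ∑ s, f p * f s * W D f p s ≤ ν p * deg D ν C p := by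
          unfold deg
          rw [Finset.mul_sum]
          have h3 : ∑ s, f p * f s * W D f p s = ∑ s ∈ B, f p * f s * W D f p s := by
            symm
            refine Finset.sum_subset (subset_univ _) fun s _ hs => ?_
            have : f s = 0 := by simp only [hf]; rw [if_neg hs]
            rw [this]
            ring
          rw [h3]
          have h4 : ∑ s ∈ B, f p * f s * W D f p s ≤ ∑ s ∈ B, ν p * (ν s * W D ν p s) := by
            refine Finset.sum_le_sum fun s _ => ?_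
            rw [mul_assoc]
            refine mul_le_mul (hfν p) ?_ (mul_nonneg (hf0 s) (W_nonneg D hf0 p s)) (h0 p)
            exact mul_le_mul (hfν s) (mass_W_mono D hfν p s) (W_nonneg D hf0 p s) (h0 s)
          refine h4.trans (Finset.sum_le_sum_of_subset_of_nonneg hBC fun s _ _ => ?_)
          exact mul_nonneg (h0 p) (mul_nonneg (h0 s) (W_nonneg D h0 p s))
        exact h2.trans (mul_le_mul_of_nonneg_left hdeg (h0 p))
      · rw [if_neg hp]
        have : f p = 0 := by simp only [hf]; rw [if_neg hp]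
        refine le_of_eq (Finset.sum_eq_zero fun s _ => ?_)
        rw [this]
        ring
    refine (Finset.sum_le_sum fun p _ => h1 p).trans ?_
    rw [← Finset.sum_filter]
    have h2 : (univ.filter (fun p => p ∈ B)) = B := by
      ext c
      simp
    rw [h2, ← Finset.sum_mul, mul_comm]
  have hfin := hsup.trans hle
  by_contra hcon
  push Not at hcon
  have hβpos : 0 < β := lt_trans (by norm_num) hcon
  have hn' : (0 : ℝ) < n := by exact_mod_cast hn
  have hJ' : (0 : ℝ) < J := by exact_mod_cast hJ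
  have h5 : β ^ 2 * J / (32 * (n : ℝ) ^ 2) ≤ τ + 9 / 2 * M0 ^ 2 * D.card := by
    have h6 : β * (β ^ 2 * J / (32 * (n : ℝ) ^ 2)) ≤ β * (τ + 9 / 2 * M0 ^ 2 * D.card) := by
      have h7 : β * (β ^ 2 * J / (32 * (n : ℝ) ^ 2)) = β ^ 3 * J / (32 * (n : ℝ) ^ 2) := by ring
      rw [h7]
      linarith
    exact le_of_mul_le_mul_left h6 hβpos
  have h8 : β ^ 2 ≤ 1 / 256 := by
    have h9 : β ^ 2 = 32 * (n : ℝ) ^ 2 / J * (β ^ 2 * J / (32 * (n : ℝ) ^ 2)) := by
      field_simp
    rw [h9]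
    exact (mul_le_mul_of_nonneg_left h5 (by positivity)).trans hpar
  nlinarith

end H59.N3
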