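import Mathlib

/-! MODULE N3/Sample (120-200 lines, Mathlib only).  Choice of the sample `Q`.

Let `N = |X|`, `κ = 12 b`.  Consider all functions `Q : Fin q → X` (`Fintype.piFinset fun _ => X`,
there are `N^q`).  Write `g s = (∑ p ∈ X, w p s) / N`, `g_Q s = (∑ j, w (Q j) s) / q`.
(a) `∑ Q, ∑ s ∈ X, g_Q s = N^(q-1) ∑ p ∈ X, ∑ s ∈ X, w p s ≤ N^q * N b`; so at most `N^q / 3` functions
have `∑ s ∈ X, g_Q s > 3 N b` (Markov).  For all other `Q`:
`#{s ∈ X | κ < g_Q s} * κ ≤ 3 N b`, so this number is `≤ N / 4`.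
(b) Fix `s` with `g s > 4 κ`.  For `y ∈ [0,1]`: `exp (-y) ≤ 1 - y/2`.  So
`∑ p ∈ X, exp (- w p s / wm) ≤ N - N g s / (2 wm) ≤ N exp (- g s / (2 wm))` and
`∑ Q, exp (- q g_Q s / wm) = (∑ p ∈ X, exp (- w p s / wm))^q ≤ N^q exp (- q g s / (2 wm))`
(`Finset.prod_univ_sum` / `Finset.sum_prod_piFinset`).  Every `Q` with `g_Q s ≤ κ` contributes at least
`exp (- q κ / wm)`, so there are at most `N^q exp (q κ / wm - q g s / (2 wm)) ≤ N^q exp (- q κ / wm)`
such `Q`.  Sum over the elements `s` of `α`: at most `N^q / 4` functions are bad for some `s`.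
(c) `1/3 + 1/4 < 1` and `N^q > 0`, so a good `Q` exists. -/

set_option autoImplicit false
namespace H59.N3
open Finset

private lemma marg {α : Type*} (X : Finset α) (q : ℕ) (j : Fin q) (f : α → ℝ) :
    ∑ Q ∈ Fintype.piFinset (fun _ : Fin q => X), f (Q j) =
      (X.card : ℝ) ^ (q - 1) * ∑ p ∈ X, f p := by
  classical
  have h := Finset.sum_prod_piFinset X (fun (i : Fin q) (a : α) => if i = j then f a else 1)
  have h1 : ∀ Q : Fin q → α, ∏ i, (if i = j then f (Q i) else 1) = f (Q j) := by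
    intro Q
    rw [Finset.prod_ite_eq']
    simp
  simp only [h1] at h
  rw [h, ← Finset.mul_prod_erase univ _ (Finset.mem_univ j)]
  have h2 : ∀ i ∈ univ.erase j, ∑ a ∈ X, (if i = j then f a else 1) = (X.card : ℝ) := by
    intro i hi
    simp [Finset.ne_of_mem_erase hi]
  rw [Finset.prod_congr rfl h2, Finset.prod_const, Finset.card_erase_of_mem (Finset.mem_univ j)]
  simp only [if_true, Finset.card_univ, Fintype.card_fin]
  ring

private lemma exp_half {y : ℝ} (h0 : 0 ≤ y) (h1 : y ≤ 1) : Real.exp (-y) ≤ 1 - y / 2 := by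
  have h2 : (1 : ℝ) + y ≤ Real.exp y := by
    have := Real.add_one_le_exp y
    linarith
  rw [Real.exp_neg]
  have h3 : (Real.exp y)⁻¹ ≤ (1 + y)⁻¹ := inv_anti₀ (by linarith) h2
  refine h3.trans ?_
  rw [inv_le_iff_one_le_mul₀ (by linarith)]
  nlinarith

private lemma bad_two {α : Type*} (X : Finset α) (hX : X.Nonempty) (v : α → ℝ)
    (h0 : ∀ p, 0 ≤ v p) {wm κ : ℝ} (hwm : 0 < wm) (hw : ∀ p, v p ≤ wm) {q : ℕ} (hq : 0 < q)
    (hbig : 4 * κ * X.card < ∑ p ∈ X, v p) :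
    (((Fintype.piFinset (fun _ : Fin q => X)).filter
      (fun Q => (∑ j, v (Q j)) / q ≤ κ)).card : ℝ) ≤
      (X.card : ℝ) ^ q * Real.exp (-(q * κ / wm)) := by
  classical
  have hN : (0 : ℝ) < X.card := by exact_mod_cast hX.card_pos
  have hqr : (0 : ℝ) < q := by exact_mod_cast hq
  have h1 : ∑ Q ∈ Fintype.piFinset (fun _ : Fin q => X), Real.exp (-((∑ j, v (Q j)) / wm)) =
      (∑ p ∈ X, Real.exp (-(v p / wm))) ^ q := by
    have h := Finset.sum_prod_piFinset X (fun (_ : Fin q) (a : α) => Real.exp (-(v a / wm)))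
    rw [Finset.prod_const, Finset.card_univ, Fintype.card_fin] at h
    rw [← h]
    refine Finset.sum_congr rfl fun Q _ => ?_
    rw [← Real.exp_sum, Finset.sum_neg_distrib, Finset.sum_div]
  have h2 : ∑ p ∈ X, Real.exp (-(v p / wm)) ≤ X.card * Real.exp (-(2 * κ / wm)) := by
    have h3 : ∑ p ∈ X, Real.exp (-(v p / wm)) ≤ ∑ p ∈ X, (1 - (v p / wm) / 2) :=
      Finset.sum_le_sum fun p _ => exp_half (div_nonneg (h0 p) hwm.le)
        ((div_le_one hwm).2 (hw p))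
    have h4 : ∑ p ∈ X, (1 - (v p / wm) / 2) = X.card - (∑ p ∈ X, v p) / wm / 2 := by
      rw [Finset.sum_sub_distrib, Finset.sum_const, nsmul_eq_mul, mul_one, Finset.sum_div,
        Finset.sum_div]
    have h5 : 4 * κ * X.card / wm ≤ (∑ p ∈ X, v p) / wm := by gcongr
    have h6 := Real.one_sub_le_exp_neg (2 * κ / wm)
    have h7 : (X.card : ℝ) * (1 - 2 * κ / wm) ≤ X.card * Real.exp (-(2 * κ / wm)) :=
      mul_le_mul_of_nonneg_left h6 hN.le
    have h8 : (X.card : ℝ) * (1 - 2 * κ / wm) = X.card - 4 * κ * X.card / wm / 2 := by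
      field_simp
      ring
    linarith
  have h9 : (∑ p ∈ X, Real.exp (-(v p / wm))) ^ q ≤
      (X.card * Real.exp (-(2 * κ / wm))) ^ q :=
    pow_le_pow_left₀ (Finset.sum_nonneg fun p _ => (Real.exp_pos _).le) h2 q
  have h10 : (((Fintype.piFinset (fun _ : Fin q => X)).filter
      (fun Q => (∑ j, v (Q j)) / q ≤ κ)).card : ℝ) * Real.exp (-(q * κ / wm)) ≤
      ∑ Q ∈ Fintype.piFinset (fun _ : Fin q => X), Real.exp (-((∑ j, v (Q j)) / wm)) := by
    rw [← nsmul_eq_mul, ← Finset.sum_const]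
    refine (Finset.sum_le_sum fun Q hQ => ?_).trans
      (Finset.sum_le_sum_of_subset_of_nonneg (Finset.filter_subset _ _)
        fun Q _ _ => (Real.exp_pos _).le)
    rw [Real.exp_le_exp, neg_le_neg_iff]
    rw [Finset.mem_filter, div_le_iff₀ hqr] at hQ
    have := hQ.2
    gcongr
    linarith
  have h11 : (X.card * Real.exp (-(2 * κ / wm))) ^ q =
      (X.card : ℝ) ^ q * Real.exp (-(q * κ / wm)) * Real.exp (-(q * κ / wm)) := by
    rw [mul_pow, ← Real.exp_nat_mul, mul_assoc, ← Real.exp_add]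
    congr 2
    ring
  have h12 : (((Fintype.piFinset (fun _ : Fin q => X)).filter
      (fun Q => (∑ j, v (Q j)) / q ≤ κ)).card : ℝ) * Real.exp (-(q * κ / wm)) ≤
      (X.card : ℝ) ^ q * Real.exp (-(q * κ / wm)) * Real.exp (-(q * κ / wm)) := by
    rw [← h11]
    exact h10.trans (h1 ▸ h9)
  exact le_of_mul_le_mul_right h12 (Real.exp_pos _)

open Classical in
theorem exists_sample {α : Type*} [Fintype α] (X : Finset α) (hX : X.Nonempty)
    (w : α → α → ℝ) (h0 : ∀ p s, 0 ≤ w p s) {wm b : ℝ} (hwm : 0 < wm) (hw : ∀ p s, w p s ≤ wm)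
    (hb : 0 < b) (hsum : ∑ p ∈ X, ∑ s ∈ X, w p s ≤ (X.card : ℝ) ^ 2 * b) {q : ℕ} (hq : 0 < q)
    (hexp : (Fintype.card α : ℝ) * Real.exp (-(q * (12 * b) / wm)) ≤ 1 / 4) :
    ∃ Q : Fin q → α, (∀ j, Q j ∈ X) ∧
      ((X.filter (fun s => 12 * b < (∑ j, w (Q j) s) / q)).card : ℝ) ≤ X.card / 4 ∧
      ∀ s, (∑ j, w (Q j) s) / q ≤ 12 * b → ∑ p ∈ X, w p s ≤ 4 * (12 * b) * X.card := by
  have hN : (0 : ℝ) < X.card := by exact_mod_cast hX.card_pos
  have hqr : (0 : ℝ) < q := by exact_mod_cast hq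
  obtain ⟨Ω, hΩ⟩ : ∃ Ω, Ω = Fintype.piFinset (fun _ : Fin q => X) := ⟨_, rfl⟩
  have hcard : (Ω.card : ℝ) = (X.card : ℝ) ^ q := by
    rw [hΩ, Fintype.card_piFinset_const]
    push_cast
    simp
  have hpos : (0 : ℝ) < (X.card : ℝ) ^ q := pow_pos hN q
  -- the first kind of bad functions
  have hA : ((Ω.filter (fun Q => 3 * X.card * b * q < ∑ s ∈ X, ∑ j, w (Q j) s)).card : ℝ) ≤
      (X.card : ℝ) ^ q / 3 := by
    have h1 : ∑ Q ∈ Ω, ∑ s ∈ X, ∑ j, w (Q j) s =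
        q * ((X.card : ℝ) ^ (q - 1) * ∑ p ∈ X, ∑ s ∈ X, w p s) := by
      have h2 : ∀ Q : Fin q → α, ∑ s ∈ X, ∑ j, w (Q j) s = ∑ j, ∑ s ∈ X, w (Q j) s :=
        fun Q => Finset.sum_comm
      simp only [h2]
      rw [Finset.sum_comm]
      have h3 : ∀ j : Fin q, ∑ Q ∈ Ω, ∑ s ∈ X, w (Q j) s =
          (X.card : ℝ) ^ (q - 1) * ∑ p ∈ X, ∑ s ∈ X, w p s := by
        intro j
        rw [hΩ]
        exact marg X q j (fun p => ∑ s ∈ X, w p s)
      rw [Finset.sum_congr rfl fun j _ => h3 j, Finset.sum_const, Finset.card_univ,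
        Fintype.card_fin, nsmul_eq_mul]
    have h4 : ((Ω.filter (fun Q => 3 * X.card * b * q < ∑ s ∈ X, ∑ j, w (Q j) s)).card : ℝ) *
        (3 * X.card * b * q) ≤ ∑ Q ∈ Ω, ∑ s ∈ X, ∑ j, w (Q j) s := by
      rw [← nsmul_eq_mul, ← Finset.sum_const]
      refine (Finset.sum_le_sum fun Q hQ => ?_).trans
        (Finset.sum_le_sum_of_subset_of_nonneg (Finset.filter_subset _ _)
          fun Q _ _ => Finset.sum_nonneg fun s _ => Finset.sum_nonneg fun j _ => h0 _ _)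
      exact (Finset.mem_filter.1 hQ).2.le
    have h5 : (X.card : ℝ) ^ (q - 1) * ∑ p ∈ X, ∑ s ∈ X, w p s ≤
        (X.card : ℝ) ^ (q - 1) * ((X.card : ℝ) ^ 2 * b) :=
      mul_le_mul_of_nonneg_left hsum (pow_nonneg hN.le _)
    have h6 : (X.card : ℝ) ^ q = (X.card : ℝ) ^ (q - 1) * X.card := by
      rw [← pow_succ]
      congr 1
      omega
    have h7 : ((Ω.filter (fun Q => 3 * X.card * b * q < ∑ s ∈ X, ∑ j, w (Q j) s)).card : ℝ) *
        (3 * X.card * b * q) ≤ (X.card : ℝ) ^ q / 3 * (3 * X.card * b * q) := by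
      have h8 : (q : ℝ) * ((X.card : ℝ) ^ (q - 1) * ∑ p ∈ X, ∑ s ∈ X, w p s) ≤
          q * ((X.card : ℝ) ^ (q - 1) * ((X.card : ℝ) ^ 2 * b)) :=
        mul_le_mul_of_nonneg_left h5 hqr.le
      rw [h6]
      calc _ ≤ _ := h4
        _ = _ := h1
        _ ≤ _ := h8
        _ = _ := by ring
    exact le_of_mul_le_mul_right h7 (by positivity)
  -- the second kind
  have hB : ((Ω.filter (fun Q => ∃ s, (∑ j, w (Q j) s) / q ≤ 12 * b ∧
      4 * (12 * b) * X.card < ∑ p ∈ X, w p s)).card : ℝ) ≤ (X.card : ℝ) ^ q / 4 := by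
    have h1 : Ω.filter (fun Q => ∃ s, (∑ j, w (Q j) s) / q ≤ 12 * b ∧
        4 * (12 * b) * X.card < ∑ p ∈ X, w p s) ⊆
        (univ.filter (fun s => 4 * (12 * b) * X.card < ∑ p ∈ X, w p s)).biUnion
          fun s => Ω.filter (fun Q => (∑ j, w (Q j) s) / q ≤ 12 * b) := by
      intro Q hQ
      rw [Finset.mem_filter] at hQ
      obtain ⟨hQ1, s, hs1, hs2⟩ := hQ
      rw [Finset.mem_biUnion]
      exact ⟨s, Finset.mem_filter.2 ⟨Finset.mem_univ _, hs2⟩, Finset.mem_filter.2 ⟨hQ1, hs1⟩⟩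
    have h2 := (Finset.card_le_card h1).trans Finset.card_biUnion_le
    have h3 : ((Ω.filter (fun Q => ∃ s, (∑ j, w (Q j) s) / q ≤ 12 * b ∧
        4 * (12 * b) * X.card < ∑ p ∈ X, w p s)).card : ℝ) ≤
        ∑ s ∈ univ.filter (fun s => 4 * (12 * b) * X.card < ∑ p ∈ X, w p s),
          ((Ω.filter (fun Q => (∑ j, w (Q j) s) / q ≤ 12 * b)).card : ℝ) := by
      exact_mod_cast h2
    refine h3.trans ?_
    have h4 : ∀ s ∈ univ.filter (fun s => 4 * (12 * b) * X.card < ∑ p ∈ X, w p s),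
        ((Ω.filter (fun Q => (∑ j, w (Q j) s) / q ≤ 12 * b)).card : ℝ) ≤
        (X.card : ℝ) ^ q * Real.exp (-(q * (12 * b) / wm)) := by
      intro s hs
      rw [hΩ]
      exact bad_two X hX (fun p => w p s) (fun p => h0 p s) hwm (fun p => hw p s) hq
        (Finset.mem_filter.1 hs).2
    refine (Finset.sum_le_sum h4).trans ?_
    rw [Finset.sum_const, nsmul_eq_mul]
    have h5 : ((univ.filter (fun s => 4 * (12 * b) * X.card < ∑ p ∈ X, w p s)).card : ℝ) ≤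
        Fintype.card α := by
      exact_mod_cast Finset.card_le_univ _
    calc _ ≤ (Fintype.card α : ℝ) * ((X.card : ℝ) ^ q * Real.exp (-(q * (12 * b) / wm))) :=
          mul_le_mul_of_nonneg_right h5 (mul_nonneg hpos.le (Real.exp_pos _).le)
      _ = (X.card : ℝ) ^ q * ((Fintype.card α : ℝ) * Real.exp (-(q * (12 * b) / wm))) := by ring
      _ ≤ (X.card : ℝ) ^ q * (1 / 4) := mul_le_mul_of_nonneg_left hexp hpos.le
      _ = _ := by ring
  -- a good function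
  have hC : ∃ Q ∈ Ω, ¬ (3 * X.card * b * q < ∑ s ∈ X, ∑ j, w (Q j) s) ∧
      ¬ (∃ s, (∑ j, w (Q j) s) / q ≤ 12 * b ∧ 4 * (12 * b) * X.card < ∑ p ∈ X, w p s) := by
    by_contra hcon
    push Not at hcon
    have h1 : Ω ⊆ Ω.filter (fun Q => 3 * X.card * b * q < ∑ s ∈ X, ∑ j, w (Q j) s) ∪
        Ω.filter (fun Q => ∃ s, (∑ j, w (Q j) s) / q ≤ 12 * b ∧
          4 * (12 * b) * X.card < ∑ p ∈ X, w p s) := by
      intro Q hQ
      rw [Finset.mem_union, Finset.mem_filter, Finset.mem_filter]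
      by_cases h : 3 * X.card * b * q < ∑ s ∈ X, ∑ j, w (Q j) s
      · exact Or.inl ⟨hQ, h⟩
      · exact Or.inr ⟨hQ, hcon Q hQ (not_lt.1 h)⟩
    have h2 := (Finset.card_le_card h1).trans (Finset.card_union_le _ _)
    have h3 : (Ω.card : ℝ) ≤
        ((Ω.filter (fun Q => 3 * X.card * b * q < ∑ s ∈ X, ∑ j, w (Q j) s)).card : ℝ) +
        ((Ω.filter (fun Q => ∃ s, (∑ j, w (Q j) s) / q ≤ 12 * b ∧
          4 * (12 * b) * X.card < ∑ p ∈ X, w p s)).card : ℝ) := by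
      exact_mod_cast h2
    rw [hcard] at h3
    linarith
  obtain ⟨Q, hQ, h1, h2⟩ := hC
  refine ⟨Q, fun j => ?_, ?_, ?_⟩
  · rw [hΩ, Fintype.mem_piFinset] at hQ
    exact hQ j
  · have h3 : ((X.filter (fun s => 12 * b < (∑ j, w (Q j) s) / q)).card : ℝ) * (12 * b * q) ≤
        ∑ s ∈ X, ∑ j, w (Q j) s := by
      rw [← nsmul_eq_mul, ← Finset.sum_const]
      refine (Finset.sum_le_sum fun s hs => ?_).trans
        (Finset.sum_le_sum_of_subset_of_nonneg (Finset.filter_subset _ _)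
          fun s _ _ => Finset.sum_nonneg fun j _ => h0 _ _)
      have h4 := (Finset.mem_filter.1 hs).2
      rw [lt_div_iff₀ hqr] at h4
      exact h4.le
    have h5 := not_lt.1 h1
    have h6 : ((X.filter (fun s => 12 * b < (∑ j, w (Q j) s) / q)).card : ℝ) * (12 * b * q) ≤
        (X.card : ℝ) / 4 * (12 * b * q) := by
      refine h3.trans (h5.trans (le_of_eq ?_))
      ring
    exact le_of_mul_le_mul_right h6 (by positivity)
  · intro s hs
    by_contra h3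
    exact h2 ⟨s, hs, not_le.1 h3⟩

end H59.N3
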