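import Pool.Agent.H59.N3.ExF
import Pool.Agent.H59.N3.Low
import Pool.Agent.H59.N3.Sample
import Pool.Agent.H59.N3.HalfB
import Pool.Agent.H59.N3.Mass

/-! N3/Chain (helper59).  The chain of updates. -/

set_option autoImplicit false
namespace H59.N3
open Finset

open Classical in
theorem nu0_props {n : ℕ} (hn : 1 ≤ n) (D : Finset (ℕ × ℕ)) (F : Finset (Cell n)) :
    (∀ c, 0 ≤ nu0 D F c) ∧ (∀ c, nu0 D F c ≤ 1 / (n : ℝ) ^ 2) ∧
      (∀ c, c ∉ Unc D F → nu0 D F c = 0) ∧ ∑ c, nu0 D F c ≤ 1 := by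
  have hn' : (0 : ℝ) < (n : ℝ) ^ 2 := by positivity
  have h2 : ∀ c, nu0 D F c ≤ 1 / (n : ℝ) ^ 2 := by
    intro c
    unfold nu0
    split_ifs
    · exact le_rfl
    · positivity
  refine ⟨?_, h2, ?_, ?_⟩
  · intro c
    unfold nu0
    split_ifs
    · positivity
    · exact le_rfl
  · intro c hc
    unfold nu0
    rw [if_neg hc]
  · calc ∑ c, nu0 D F c ≤ ∑ _c : Cell n, 1 / (n : ℝ) ^ 2 := Finset.sum_le_sum (fun c _ => h2 c)
      _ = 1 := by
        rw [Finset.sum_const, Finset.card_univ, Fintype.card_prod, Fintype.card_fin]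
        rw [nsmul_eq_mul]
        push_cast
        field_simp

open Classical in
theorem step_sum {n q : ℕ} (D : Finset (ℕ × ℕ)) (κ τ : ℝ) (ν : Cell n → ℝ) (Q : Fin q → Cell n) :
    ∑ c, step D κ τ ν Q c = (∑ c, ν c) / 2 + 8 * ∑ c ∈ Bs D κ τ ν Q, ν c := by
  have h : ∀ c, step D κ τ ν Q c = ν c / 2 + 8 * (if c ∈ Bs D κ τ ν Q then ν c else 0) := by
    intro c
    unfold step
    split_ifs <;> ring
  rw [Finset.sum_congr rfl (fun c _ => h c), Finset.sum_add_distrib, ← Finset.sum_div,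
    ← Finset.mul_sum, Finset.sum_ite_mem, Finset.univ_inter]

theorem nu_props {n q r J L : ℕ} (hn : 1 ≤ n) (hr : 1 ≤ r) (hJ : 1 ≤ J) {κ τ : ℝ}
    {F : Finset (Cell n)}
    (hpar : 32 * (n : ℝ) ^ 2 / J *
      (τ + 9 / 2 * ((16 : ℝ) ^ L / (n : ℝ) ^ 2) ^ 2 * (Dir r (4 ^ J * r)).card) ≤ 1 / 256)
    (l : List (Fin q → Cell n)) (hl : l.length ≤ L) :
    (∀ c, 0 ≤ nu (Dir r (4 ^ J * r)) κ τ F l c) ∧
      (∀ c, nu (Dir r (4 ^ J * r)) κ τ F l c ≤ (16 : ℝ) ^ l.length / (n : ℝ) ^ 2) ∧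
      (∀ c, c ∉ Unc (Dir r (4 ^ J * r)) F → nu (Dir r (4 ^ J * r)) κ τ F l c = 0) ∧
      ∑ c, nu (Dir r (4 ^ J * r)) κ τ F l c ≤ 1 := by
  induction l with
  | nil =>
    obtain ⟨a, b, c, d⟩ := nu0_props hn (Dir r (4 ^ J * r)) F
    refine ⟨a, ?_, c, d⟩
    intro x
    have h : nu (Dir r (4 ^ J * r)) κ τ F ([] : List (Fin q → Cell n)) x =
      nu0 (Dir r (4 ^ J * r)) F x := rfl
    rw [h]
    simpa using b x
  | cons Q l ih =>
    have hl' : l.length ≤ L := by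
      simp only [List.length_cons] at hl
      omega
    obtain ⟨a, b, c, d⟩ := ih hl'
    have hn' : (0 : ℝ) < (n : ℝ) ^ 2 := by positivity
    have hstep : ∀ x, nu (Dir r (4 ^ J * r)) κ τ F (Q :: l) x =
        step (Dir r (4 ^ J * r)) κ τ (nu (Dir r (4 ^ J * r)) κ τ F l) Q x := fun x => rfl
    refine ⟨?_, ?_, ?_, ?_⟩
    · intro x
      rw [hstep]
      have := a x
      unfold step
      split_ifs
      · positivity
      · positivity
    · intro x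
      rw [hstep]
      have h1 := a x
      have h2 := b x
      have h3 : step (Dir r (4 ^ J * r)) κ τ (nu (Dir r (4 ^ J * r)) κ τ F l) Q x ≤
          16 * nu (Dir r (4 ^ J * r)) κ τ F l x := by
        unfold step
        split_ifs
        · linarith
        · linarith
      calc _ ≤ 16 * nu (Dir r (4 ^ J * r)) κ τ F l x := h3
        _ ≤ 16 * ((16 : ℝ) ^ l.length / (n : ℝ) ^ 2) := by linarith
        _ = (16 : ℝ) ^ (Q :: l).length / (n : ℝ) ^ 2 := by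
          rw [List.length_cons, pow_succ]
          ring
    · intro x hx
      rw [hstep]
      have h := c x hx
      unfold step
      split_ifs <;> simp [h]
    · rw [Finset.sum_congr rfl (fun x _ => hstep x), step_sum]
      have hm : ∑ x ∈ Bs (Dir r (4 ^ J * r)) κ τ (nu (Dir r (4 ^ J * r)) κ τ F l) Q,
          nu (Dir r (4 ^ J * r)) κ τ F l x ≤ 1 / 16 := by
        refine mass_B (M0 := (16 : ℝ) ^ L / (n : ℝ) ^ 2) hn hr hJ a ?_ hpar
        intro x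
        refine (b x).trans ?_
        gcongr
        norm_num
      linarith

open Classical in
theorem prod_step {n q : ℕ} (D : Finset (ℕ × ℕ)) (κ τ : ℝ) {ν : Cell n → ℝ} (h0 : ∀ c, 0 ≤ ν c)
    (Q : Fin q → Cell n) (X : Finset (Cell n)) (hX : X.card ≤ 2 * (X ∩ Bs D κ τ ν Q).card) :
    (2 : ℝ) ^ X.card * ∏ x ∈ X, ν x ≤ ∏ x ∈ X, step D κ τ ν Q x := by
  set B := Bs D κ τ ν Q with hB
  have h1 : ∀ x ∈ X, step D κ τ ν Q x = (if x ∈ B then (17 / 2 : ℝ) else 1 / 2) * ν x := by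
    intro x _
    unfold step
    rw [← hB]
    split_ifs <;> ring
  rw [Finset.prod_congr rfl h1, Finset.prod_mul_distrib]
  have hp : 0 ≤ ∏ x ∈ X, ν x := Finset.prod_nonneg (fun x _ => h0 x)
  refine mul_le_mul_of_nonneg_right ?_ hp
  rw [Finset.prod_ite, Finset.prod_const, Finset.prod_const]
  have e1 : (X.filter (fun x => x ∈ B)) = X ∩ B := by
    ext x; simp
  have e2 : (X.filter (fun x => x ∉ B)).card = X.card - (X ∩ B).card := by
    have := Finset.card_filter_add_card_filter_not (s := X) (fun x => x ∈ B)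
    rw [e1] at this
    omega
  rw [e1, e2]
  set u := (X ∩ B).card with hu
  have hule : u ≤ X.card := Finset.card_le_card Finset.inter_subset_left
  obtain ⟨w, hw⟩ : ∃ w, X.card = u + w := ⟨X.card - u, by omega⟩
  have hwu : w ≤ u := by omega
  rw [hw]
  have e3 : u + w - u = w := by omega
  rw [e3]
  have a1 : (8 : ℝ) ^ u ≤ (17 / 2 : ℝ) ^ u := by
    gcongr
    norm_num
  have a2 : (2 : ℝ) ^ (u + w) ≤ 8 ^ u * (1 / 2) ^ w := by
    obtain ⟨v, hv⟩ : ∃ v, u = w + v := ⟨u - w, by omega⟩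
    rw [hv]
    have e8 : (8 : ℝ) = 2 ^ 3 := by norm_num
    rw [e8, ← pow_mul, one_div, inv_pow, ← div_eq_mul_inv, le_div_iff₀ (by positivity), ← pow_add]
    refine pow_le_pow_right₀ (by norm_num) ?_
    omega
  calc (2 : ℝ) ^ (u + w) ≤ 8 ^ u * (1 / 2) ^ w := a2
    _ ≤ (17 / 2 : ℝ) ^ u * (1 / 2) ^ w := by
      gcongr

/-- the conditions on the parameters -/
structure Par (n k r J m0 L q : ℕ) : Prop where
  hn : 1 ≤ n
  hk : 1 ≤ k
  hr : 1 ≤ r
  hrn : r ≤ n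
  hJ : 1 ≤ J
  hm : 6 ≤ m0
  hq : 0 < q
  c3 : (16 : ℝ) ^ L * (7 / 8) ^ m0 ≤ 1
  c4 : (n : ℝ) ^ 2 * Real.exp (-(q * (12 * (16 * m0 / (k : ℝ) ^ 2)) /
      ((16 : ℝ) ^ L / (n : ℝ) ^ 2 * (2 * n / r)))) ≤ 1 / 4
  c5 : 32 * (n : ℝ) ^ 2 / J * (16 * (12 * (16 * m0 / (k : ℝ) ^ 2)) +
      9 / 2 * ((16 : ℝ) ^ L / (n : ℝ) ^ 2) ^ 2 * (Dir r (4 ^ J * r)).card) ≤ 1 / 256

open Classical in
theorem chain_step {n k r J m0 L q : ℕ} (P : Par n k r J m0 L q) {S F : Finset (Cell n)}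
    (hS : NoThree S) (hSk : S.card = k) (_hF : F ⊆ S) (hX : S.card ≤ 2 * (S \ F).card)
    (hW : ∑ c ∈ (Unc (Dir r (4 ^ J * r)) F).filter (fun c => m0 ≤ M (Dir r (4 ^ J * r)) S c),
        (M (Dir r (4 ^ J * r)) S c : ℝ) ≤ 6 * (n : ℝ) ^ 2 * (7 / 8) ^ m0)
    (l : List (Fin q → Cell n)) (hl : l.length ≤ L) :
    ∃ Q : Fin q → Cell n, (S \ F).card ≤ 2 * ((S \ F) ∩ Bs (Dir r (4 ^ J * r))
      (12 * (16 * m0 / (k : ℝ) ^ 2)) (16 * (12 * (16 * m0 / (k : ℝ) ^ 2)))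
      (nu (Dir r (4 ^ J * r)) (12 * (16 * m0 / (k : ℝ) ^ 2))
        (16 * (12 * (16 * m0 / (k : ℝ) ^ 2))) F l) Q).card := by
  set D := Dir r (4 ^ J * r) with hD
  set b : ℝ := 16 * m0 / (k : ℝ) ^ 2 with hb
  obtain ⟨a1, a2, a3, a4⟩ := nu_props (F := F) P.hn P.hr P.hJ P.c5 l hl
  set ν := nu D (12 * b) (16 * (12 * b)) F l with hν
  set X := S \ F with hXdef
  have hn0 : (0 : ℝ) < n := by exact_mod_cast P.hn
  have hk0 : (0 : ℝ) < k := by exact_mod_cast P.hk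
  have hm0 : (6 : ℝ) ≤ m0 := by exact_mod_cast P.hm
  have hr0 : (0 : ℝ) < r := by exact_mod_cast P.hr
  have hb0 : 0 < b := by positivity
  have hM : ∀ c, ν c ≤ (16 : ℝ) ^ L / (n : ℝ) ^ 2 := by
    intro c
    refine (a2 c).trans ?_
    gcongr
    norm_num
  have hXk : (k : ℝ) ≤ 2 * X.card := by
    rw [hSk] at hX
    exact_mod_cast hX
  have hXne : X.Nonempty := by
    rw [← Finset.card_pos]
    have : (0 : ℝ) < X.card := by linarith
    exact_mod_cast this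
  -- low weight
  have hlow := low (m0 := m0) (S := S) a1 hM (by positivity) a3 a4 hW
  have hlow' : ∑ c, ν c * (M D S c : ℝ) ≤ 2 * m0 := by
    have : (16 : ℝ) ^ L / (n : ℝ) ^ 2 * (6 * (n : ℝ) ^ 2 * (7 / 8) ^ m0) =
        6 * ((16 : ℝ) ^ L * (7 / 8) ^ m0) := by
      field_simp
    rw [this] at hlow
    have := P.c3
    linarith
  have hpair := pair_sum (X := X) (A := r) (B := 4 ^ J * r) hS Finset.sdiff_subset a1
  have hsum : ∑ p ∈ X, ∑ s ∈ X, W D ν p s ≤ (X.card : ℝ) ^ 2 * b := by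
    have h1 : ∑ p ∈ X, ∑ s ∈ X, W D ν p s ≤ 4 * m0 := by linarith
    refine h1.trans ?_
    have h2 : (k : ℝ) ^ 2 ≤ 4 * (X.card : ℝ) ^ 2 := by nlinarith
    rw [hb, mul_div_assoc', le_div_iff₀ (by positivity)]
    nlinarith
  obtain ⟨Q, _, q2, q3⟩ := exists_sample X hXne (W D ν) (W_nonneg D a1)
    (wm := (16 : ℝ) ^ L / (n : ℝ) ^ 2 * (2 * n / r)) (by positivity)
    (fun p s => W_le P.hr P.hrn a1 hM p s) hb0 hsum P.hq (by
      have := P.c4
      rw [← hb] at this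
      simpa [Fintype.card_prod, Fintype.card_fin, pow_two] using this)
  refine ⟨Q, ?_⟩
  have h := half_B (D := D) (X := X) (κ := 12 * b) (ν := ν) (Q := Q) a1 a4 (by positivity) q2 q3
  exact_mod_cast h

open Classical in
theorem chain {n k r J m0 L q : ℕ} (P : Par n k r J m0 L q) {S F : Finset (Cell n)}
    (hS : NoThree S) (hSk : S.card = k) (hF : F ⊆ S) (hX : S.card ≤ 2 * (S \ F).card)
    (hW : ∑ c ∈ (Unc (Dir r (4 ^ J * r)) F).filter (fun c => m0 ≤ M (Dir r (4 ^ J * r)) S c),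
        (M (Dir r (4 ^ J * r)) S c : ℝ) ≤ 6 * (n : ℝ) ^ 2 * (7 / 8) ^ m0)
    (i : ℕ) (hi : i ≤ L) :
    ∃ l : List (Fin q → Cell n), l.length = i ∧
      (1 / (n : ℝ) ^ 2) ^ (S \ F).card * (2 ^ i) ^ (S \ F).card ≤
        ∏ x ∈ S \ F, nu (Dir r (4 ^ J * r)) (12 * (16 * m0 / (k : ℝ) ^ 2))
          (16 * (12 * (16 * m0 / (k : ℝ) ^ 2))) F l x := by
  induction i with
  | zero =>
    refine ⟨[], rfl, ?_⟩
    rw [pow_zero, one_pow, mul_one, ← Finset.prod_const]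
    refine le_of_eq (Finset.prod_congr rfl ?_)
    intro x hx
    have hx' : x ∈ Unc (Dir r (4 ^ J * r)) F :=
      subset_Unc hS hF (Finset.sdiff_subset hx)
    show 1 / (n : ℝ) ^ 2 = nu0 (Dir r (4 ^ J * r)) F x
    unfold nu0
    rw [if_pos hx']
  | succ i ih =>
    obtain ⟨l, hl, hprod⟩ := ih (by omega)
    obtain ⟨Q, hQ⟩ := chain_step P hS hSk hF hX hW l (by omega)
    refine ⟨Q :: l, by simp [hl], ?_⟩
    obtain ⟨a1, _, _, _⟩ := nu_props (F := F) P.hn P.hr P.hJ P.c5 l (by omega)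
    have h := prod_step (Dir r (4 ^ J * r)) (12 * (16 * m0 / (k : ℝ) ^ 2))
      (16 * (12 * (16 * m0 / (k : ℝ) ^ 2))) a1 Q (S \ F) hQ
    refine le_trans ?_ h
    have e : (1 / (n : ℝ) ^ 2) ^ (S \ F).card * (2 ^ (i + 1)) ^ (S \ F).card =
        2 ^ (S \ F).card * ((1 / (n : ℝ) ^ 2) ^ (S \ F).card * (2 ^ i) ^ (S \ F).card) := by
      rw [show (2 : ℝ) ^ (i + 1) = 2 ^ i * 2 from pow_succ 2 i, mul_pow ((2 : ℝ) ^ i) 2]
      ring
    rw [e]
    exact mul_le_mul_of_nonneg_left hprod (by positivity)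

end H59.N3
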