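import Mathlib

/-! MODULE N3/Esym (50-90 lines, Mathlib only).

* `esymm_le`: prove more generally for a finset `s` instead of `univ` by induction on `s`
  (`Finset.powersetCard_succ_insert`): `e_{k+1}(insert a s) = e_{k+1}(s) + ν a e_k(s)`, so
  `(k+1)! e_{k+1}(insert a s) ≤ x^(k+1) + (k+1) (ν a) x^k ≤ (x + ν a)^(k+1)` with `x = ∑ s`
  (binomial theorem, Bernoulli).
* `card_heavy`: the number of `X` times `P` is at most `∑ ∏ ≤ (∑ ν)^k / k! ≤ 1 / k!`. -/

set_option autoImplicit false
namespace H59.N3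
open Finset

private theorem add_pow_ge (x y : ℝ) (hx : 0 ≤ x) (hy : 0 ≤ y) (k : ℕ) :
    x ^ (k + 1) + (k + 1) * y * x ^ k ≤ (x + y) ^ (k + 1) := by
  induction k with
  | zero => simp
  | succ k ih =>
    have h1 : (x + y) * (x ^ (k + 1) + (k + 1) * y * x ^ k) ≤ (x + y) * (x + y) ^ (k + 1) :=
      mul_le_mul_of_nonneg_left ih (by positivity)
    have h2 : (x + y) ^ (k + 1 + 1) = (x + y) * (x + y) ^ (k + 1) := by ring
    have h3 : (x + y) * (x ^ (k + 1) + (k + 1) * y * x ^ k) =
        x ^ (k + 1 + 1) + ((k : ℝ) + 1 + 1) * y * x ^ (k + 1) + (k + 1) * y ^ 2 * x ^ k := by ring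
    have h4 : 0 ≤ ((k : ℝ) + 1) * y ^ 2 * x ^ k := by positivity
    rw [h2]
    push_cast
    linarith

private theorem esymm_le_aux {α : Type*} [DecidableEq α] (ν : α → ℝ) (h0 : ∀ x, 0 ≤ ν x)
    (s : Finset α) : ∀ k : ℕ, (k.factorial : ℝ) * ∑ X ∈ s.powersetCard k, ∏ x ∈ X, ν x ≤
      (∑ x ∈ s, ν x) ^ k := by
  induction s using Finset.induction_on with
  | empty =>
    intro k
    cases k with
    | zero => simp
    | succ k =>
      rw [Finset.powersetCard_eq_empty.mpr (by simp)]
      simp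
  | insert a s ha ih =>
    intro k
    cases k with
    | zero => simp
    | succ k =>
      rw [Finset.powersetCard_succ_insert ha, Finset.sum_insert ha]
      have hP0 : ∀ X : Finset α, 0 ≤ ∏ x ∈ X, ν x := fun X => Finset.prod_nonneg fun x _ => h0 x
      have h1 : ∑ X ∈ (s.powersetCard (k + 1)) ∪ ((s.powersetCard k).image (insert a)),
          ∏ x ∈ X, ν x ≤ ∑ X ∈ s.powersetCard (k + 1), ∏ x ∈ X, ν x +
          ∑ X ∈ (s.powersetCard k).image (insert a), ∏ x ∈ X, ν x := by
        rw [← Finset.sum_union_inter]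
        have : 0 ≤ ∑ X ∈ (s.powersetCard (k + 1)) ∩ ((s.powersetCard k).image (insert a)),
          ∏ x ∈ X, ν x := Finset.sum_nonneg fun X _ => hP0 X
        linarith
      have hmem : ∀ X ∈ s.powersetCard k, a ∉ X := by
        intro X hX haX
        rw [Finset.mem_powersetCard] at hX
        exact ha (hX.1 haX)
      have h2 : ∑ X ∈ (s.powersetCard k).image (insert a), ∏ x ∈ X, ν x =
          ν a * ∑ X ∈ s.powersetCard k, ∏ x ∈ X, ν x := by
        rw [Finset.sum_image, Finset.mul_sum]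
        · refine Finset.sum_congr rfl fun X hX => ?_
          rw [Finset.prod_insert (hmem X hX)]
        · intro X hX Y hY hXY
          have hX' := hmem X hX
          have hY' := hmem Y hY
          have h3 : (insert a X).erase a = (insert a Y).erase a := by
            have : insert a X = insert a Y := hXY
            rw [this]
          rwa [Finset.erase_insert hX', Finset.erase_insert hY'] at h3
      have h3 := ih (k + 1)
      have h4 := ih k
      set x := ∑ x ∈ s, ν x with hx
      have hx0 : 0 ≤ x := Finset.sum_nonneg fun i _ => h0 i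
      have h5 := add_pow_ge x (ν a) hx0 (h0 a) k
      have hf : ((k + 1).factorial : ℝ) = (k + 1) * k.factorial := by
        rw [Nat.factorial_succ]; push_cast; ring
      have hfp : (0 : ℝ) ≤ ((k + 1).factorial : ℝ) := by positivity
      rw [h2] at h1
      calc ((k + 1).factorial : ℝ) *
            ∑ X ∈ (s.powersetCard (k + 1)) ∪ ((s.powersetCard k).image (insert a)), ∏ x ∈ X, ν x
          ≤ ((k + 1).factorial : ℝ) * (∑ X ∈ s.powersetCard (k + 1), ∏ x ∈ X, ν x +
            ν a * ∑ X ∈ s.powersetCard k, ∏ x ∈ X, ν x) := mul_le_mul_of_nonneg_left h1 hfp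
        _ = ((k + 1).factorial : ℝ) * ∑ X ∈ s.powersetCard (k + 1), ∏ x ∈ X, ν x +
            (k + 1) * ν a * ((k.factorial : ℝ) * ∑ X ∈ s.powersetCard k, ∏ x ∈ X, ν x) := by
              rw [hf]; ring
        _ ≤ x ^ (k + 1) + (k + 1) * ν a * x ^ k := by
              have hna := h0 a
              have : (k + 1) * ν a * ((k.factorial : ℝ) * ∑ X ∈ s.powersetCard k, ∏ x ∈ X, ν x) ≤
                (k + 1) * ν a * x ^ k := mul_le_mul_of_nonneg_left h4 (by positivity)
              linarith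
        _ ≤ (x + ν a) ^ (k + 1) := h5
        _ = (ν a + x) ^ (k + 1) := by rw [add_comm]

theorem esymm_le {α : Type*} [Fintype α] [DecidableEq α] (ν : α → ℝ) (h0 : ∀ x, 0 ≤ ν x) (k : ℕ) :
    (k.factorial : ℝ) * ∑ X ∈ (univ : Finset α).powersetCard k, ∏ x ∈ X, ν x ≤
      (∑ x, ν x) ^ k := by
  exact esymm_le_aux ν h0 univ k

open Classical in
theorem card_heavy {α : Type*} [Fintype α] (ν : α → ℝ) (h0 : ∀ x, 0 ≤ ν x)
    (hs : ∑ x, ν x ≤ 1) (k : ℕ) {P : ℝ} (hP : 0 < P) :
    ((((univ : Finset α).powersetCard k).filter (fun X => P ≤ ∏ x ∈ X, ν x)).card : ℝ) ≤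
      1 / (k.factorial * P) := by
  have h1 := esymm_le ν h0 k
  have h2 : (∑ x, ν x) ^ k ≤ 1 := pow_le_one₀ (Finset.sum_nonneg fun i _ => h0 i) hs
  have hk : (0 : ℝ) < (k.factorial : ℝ) := by positivity
  rw [le_div_iff₀ (by positivity)]
  have h3 : ((((univ : Finset α).powersetCard k).filter
      (fun X => P ≤ ∏ x ∈ X, ν x)).card : ℝ) * P ≤
      ∑ X ∈ (univ : Finset α).powersetCard k, ∏ x ∈ X, ν x := by
    rw [← nsmul_eq_mul, ← Finset.sum_const]
    refine (Finset.sum_le_sum (g := fun X => ∏ x ∈ X, ν x) ?_).trans ?_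
    · intro X hX
      exact (Finset.mem_filter.mp hX).2
    · refine Finset.sum_le_sum_of_subset_of_nonneg (Finset.filter_subset _ _) ?_
      intro X _ _
      exact Finset.prod_nonneg fun x _ => h0 x
  calc ((((univ : Finset α).powersetCard k).filter
      (fun X => P ≤ ∏ x ∈ X, ν x)).card : ℝ) * (k.factorial * P)
      = k.factorial * (((((univ : Finset α).powersetCard k).filter
      (fun X => P ≤ ∏ x ∈ X, ν x)).card : ℝ) * P) := by ring
    _ ≤ k.factorial * ∑ X ∈ (univ : Finset α).powersetCard k, ∏ x ∈ X, ν x :=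
        mul_le_mul_of_nonneg_left h3 hk.le
    _ ≤ (∑ x, ν x) ^ k := h1
    _ ≤ 1 := h2

end H59.N3
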