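import Pool.Agent.H59.N3.Chain
import Pool.Agent.H59.N3.Esym

/-! N3/Count (helper59).  The encoding. -/

set_option autoImplicit false
namespace H59.N3
open Finset

open Classical in
theorem cover {n k r J m0 L q : ℕ} (P : Par n k r J m0 L q) {S : Finset (Cell n)}
    (hS : NoThree S) (hSk : S.card = k) :
    ∃ F ⊆ S, S.card ≤ 2 * (S \ F).card ∧ ∃ a : Fin L → Fin q → Cell n,
      (1 / (n : ℝ) ^ 2) ^ (S \ F).card * (2 ^ L) ^ (S \ F).card ≤
        ∏ x ∈ S \ F, nu (Dir r (4 ^ J * r)) (12 * (16 * m0 / (k : ℝ) ^ 2))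
          (16 * (12 * (16 * m0 / (k : ℝ) ^ 2))) F (List.ofFn a) x := by
  obtain ⟨F, hF, hX, hW⟩ := exists_F (A := r) (B := 4 ^ J * r) hS m0
  obtain ⟨l, hl, h⟩ := chain P hS hSk hF hX hW L le_rfl
  refine ⟨F, hF, hX, ?_⟩
  subst hl
  exact ⟨l.get, by rw [List.ofFn_get]; exact h⟩

open Classical in
theorem count_le {n k r J m0 L' q : ℕ} (P : Par n k r J m0 (2 * L') q) :
    ((((univ : Finset (Cell n)).powersetCard k).filter (fun S => NoThree S)).card : ℝ) ≤
      (((n : ℝ) ^ 2) ^ q) ^ (2 * L') *
        (2 ^ k * ((n : ℝ) ^ 2) ^ k / (k.factorial * (2 ^ L') ^ k)) := by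
  set D := Dir r (4 ^ J * r) with hD
  set κ : ℝ := 12 * (16 * m0 / (k : ℝ) ^ 2) with hκ
  set L := 2 * L' with hL
  have hn0 : (0 : ℝ) < n := by exact_mod_cast P.hn
  have hn2 : (0 : ℝ) < (n : ℝ) ^ 2 := by positivity
  set R := (range (k + 1)).filter (fun j => k ≤ 2 * (k - j)) with hR
  set H : (Fin L → Fin q → Cell n) → ℕ → Finset (Cell n) → Finset (Finset (Cell n)) :=
    fun a j F => ((univ : Finset (Cell n)).powersetCard (k - j)).filter
      (fun X => (1 / (n : ℝ) ^ 2) ^ (k - j) * (2 ^ L) ^ (k - j) ≤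
        ∏ x ∈ X, nu D κ (16 * κ) F (List.ofFn a) x) with hH
  have hsub : ((univ : Finset (Cell n)).powersetCard k).filter (fun S => NoThree S) ⊆
      (univ : Finset (Fin L → Fin q → Cell n)).biUnion (fun a => R.biUnion (fun j =>
        ((univ : Finset (Cell n)).powersetCard j).biUnion (fun F =>
          (H a j F).image (fun X => F ∪ X)))) := by
    intro S hS
    rw [mem_filter, mem_powersetCard] at hS
    obtain ⟨⟨_, hSk⟩, hS⟩ := hS
    obtain ⟨F, hF, hX, a, ha⟩ := cover P hS hSk
    have hc : (S \ F).card = k - F.card := by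
      rw [card_sdiff_of_subset hF, hSk]
    have hFk : F.card ≤ k := by
      rw [← hSk]
      exact card_le_card hF
    simp only [mem_biUnion, mem_image]
    refine ⟨a, mem_univ _, F.card, ?_, F, ?_, S \ F, ?_, ?_⟩
    · rw [hR, mem_filter, mem_range]
      rw [hc, hSk] at hX
      exact ⟨by omega, hX⟩
    · rw [mem_powersetCard]
      exact ⟨subset_univ _, rfl⟩
    · rw [hH, mem_filter, mem_powersetCard]
      rw [hc] at ha
      exact ⟨⟨subset_univ _, hc⟩, ha⟩
    · exact union_sdiff_of_subset hF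
  have hheavy : ∀ a, ∀ j ∈ R, ∀ F, ((H a j F).card : ℝ) ≤
      ((n : ℝ) ^ 2) ^ (k - j) / ((k - j).factorial * (2 ^ L') ^ k) := by
    intro a j hj F
    rw [hR, mem_filter, mem_range] at hj
    obtain ⟨p1, _, _, p4⟩ := nu_props (F := F) P.hn P.hr P.hJ P.c5 (List.ofFn a) (by simp)
    have h := card_heavy (nu D κ (16 * κ) F (List.ofFn a)) p1 p4 (k - j)
      (P := (1 / (n : ℝ) ^ 2) ^ (k - j) * (2 ^ L) ^ (k - j)) (by positivity)
    refine h.trans ?_
    have e : (2 : ℝ) ^ L = (2 ^ L') ^ 2 := by
      rw [hL, ← pow_mul, mul_comm]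
    have hle : ((2 : ℝ) ^ L') ^ k ≤ (2 ^ L) ^ (k - j) := by
      rw [e, ← pow_mul ((2 : ℝ) ^ L') 2 (k - j)]
      have h1 : (1 : ℝ) ≤ 2 ^ L' := one_le_pow₀ (by norm_num)
      exact pow_le_pow_right₀ h1 hj.2
    rw [one_div_pow, div_le_div_iff₀ (by positivity) (by positivity), one_mul]
    have hf : (0 : ℝ) < (k - j).factorial := by exact_mod_cast Nat.factorial_pos _
    have hN : (0 : ℝ) < ((n : ℝ) ^ 2) ^ (k - j) := by positivity
    calc ((k - j).factorial : ℝ) * (2 ^ L') ^ k ≤ (k - j).factorial * (2 ^ L) ^ (k - j) := by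
          gcongr
      _ = ((n : ℝ) ^ 2) ^ (k - j) * ((k - j).factorial *
          (1 / ((n : ℝ) ^ 2) ^ (k - j) * (2 ^ L) ^ (k - j))) := by
          field_simp
  have hcell : (Fintype.card (Cell n) : ℝ) = (n : ℝ) ^ 2 := by
    rw [Fintype.card_prod, Fintype.card_fin]
    push_cast
    ring
  have hFs : ∀ j, ((((univ : Finset (Cell n)).powersetCard j)).card : ℝ) ≤
      ((n : ℝ) ^ 2) ^ j / j.factorial := by
    intro j
    rw [card_powersetCard, card_univ]
    have := Nat.choose_le_pow_div (α := ℝ) j (Fintype.card (Cell n))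
    rwa [hcell] at this
  have hfac : ∀ j ∈ range (k + 1), (1 : ℝ) / (j.factorial * (k - j).factorial) =
      (k.choose j : ℝ) / k.factorial := by
    intro j hj
    rw [mem_range] at hj
    have h := Nat.choose_mul_factorial_mul_factorial (show j ≤ k by omega)
    have h' : (k.choose j : ℝ) * j.factorial * (k - j).factorial = k.factorial := by
      exact_mod_cast h
    have h1 : (0 : ℝ) < j.factorial := by exact_mod_cast Nat.factorial_pos _
    have h2 : (0 : ℝ) < (k - j).factorial := by exact_mod_cast Nat.factorial_pos _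
    have h3 : (0 : ℝ) < k.factorial := by exact_mod_cast Nat.factorial_pos _
    rw [div_eq_div_iff (by positivity) (by positivity), ← h']
    ring
  calc ((((univ : Finset (Cell n)).powersetCard k).filter (fun S => NoThree S)).card : ℝ)
      ≤ ((((univ : Finset (Fin L → Fin q → Cell n)).biUnion (fun a => R.biUnion (fun j =>
        ((univ : Finset (Cell n)).powersetCard j).biUnion (fun F =>
          (H a j F).image (fun X => F ∪ X))))).card : ℕ) : ℝ) := by
        exact_mod_cast card_le_card hsub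
    _ ≤ ∑ a : Fin L → Fin q → Cell n, ∑ j ∈ R,
        ∑ F ∈ (univ : Finset (Cell n)).powersetCard j, ((H a j F).card : ℝ) := by
        have h : ((univ : Finset (Fin L → Fin q → Cell n)).biUnion (fun a => R.biUnion (fun j =>
          ((univ : Finset (Cell n)).powersetCard j).biUnion (fun F =>
            (H a j F).image (fun X => F ∪ X))))).card ≤
            ∑ a : Fin L → Fin q → Cell n, ∑ j ∈ R,
              ∑ F ∈ (univ : Finset (Cell n)).powersetCard j, (H a j F).card := by
          refine card_biUnion_le.trans (sum_le_sum fun a _ => ?_)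
          refine card_biUnion_le.trans (sum_le_sum fun j _ => ?_)
          refine card_biUnion_le.trans (sum_le_sum fun F _ => ?_)
          exact Finset.card_image_le
        exact_mod_cast h
    _ ≤ ∑ _a : Fin L → Fin q → Cell n, ∑ j ∈ R,
        ∑ _F ∈ (univ : Finset (Cell n)).powersetCard j,
          (((n : ℝ) ^ 2) ^ (k - j) / ((k - j).factorial * (2 ^ L') ^ k)) := by
        refine sum_le_sum fun a _ => sum_le_sum fun j hj => sum_le_sum fun F _ => hheavy a j hj F
    _ ≤ ∑ _a : Fin L → Fin q → Cell n, ∑ j ∈ R,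
        (((n : ℝ) ^ 2) ^ k / (2 ^ L') ^ k * ((k.choose j : ℝ) / k.factorial)) := by
        refine sum_le_sum fun a _ => sum_le_sum fun j hj => ?_
        have hj' : j ∈ range (k + 1) := (mem_filter.1 hj).1
        rw [sum_const, nsmul_eq_mul, ← hfac j hj']
        rw [mem_range] at hj'
        have hpos : (0 : ℝ) ≤ ((n : ℝ) ^ 2) ^ (k - j) / ((k - j).factorial * (2 ^ L') ^ k) := by
          positivity
        refine (mul_le_mul_of_nonneg_right (hFs j) hpos).trans (le_of_eq ?_)
        have e : ((n : ℝ) ^ 2) ^ k = ((n : ℝ) ^ 2) ^ j * ((n : ℝ) ^ 2) ^ (k - j) := by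
          rw [← pow_add]
          congr 1
          omega
        rw [e]
        have h1 : (0 : ℝ) < j.factorial := by exact_mod_cast Nat.factorial_pos _
        have h2 : (0 : ℝ) < (k - j).factorial := by exact_mod_cast Nat.factorial_pos _
        field_simp
    _ ≤ ∑ _a : Fin L → Fin q → Cell n,
        (((n : ℝ) ^ 2) ^ k / (2 ^ L') ^ k * (2 ^ k / k.factorial)) := by
        refine sum_le_sum fun a _ => ?_
        rw [← mul_sum, ← sum_div]
        gcongr
        have h := Nat.sum_range_choose k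
        have h' : ∑ j ∈ range (k + 1), (k.choose j : ℝ) = 2 ^ k := by exact_mod_cast h
        rw [← h']
        exact sum_le_sum_of_subset_of_nonneg (filter_subset _ _) (fun _ _ _ => by positivity)
    _ = (((n : ℝ) ^ 2) ^ q) ^ L *
        (2 ^ k * ((n : ℝ) ^ 2) ^ k / (k.factorial * (2 ^ L') ^ k)) := by
        rw [sum_const, nsmul_eq_mul, card_univ, Fintype.card_fun, Fintype.card_fun,
          Fintype.card_fin, Fintype.card_fin]
        push_cast
        rw [hcell]
        field_simp

end H59.N3
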