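import Mathlib

/-!
# Counting no-three-in-line sets (MP_904bce_co, no-three-in-line problem)

Paper proof (complete, helper59, 3 Dec).  Cells are the elements of `Fin n × Fin n`.

THEOREM. For every T there are delta > 0 and n0 such that for n >= n0 and n <= T k the number of
k-element sets of cells with no three cells in line is at most n^(-delta k) * binomial(n^2, k).

Parameters: r = fourth root of n, J = log_2 r, directions d = (a,b) primitive, r < a <= 4^J r,
1 <= b <= a; m0 = J / (2^26 T^2), L = m0 / 32, b0 = 16 m0 / k^2, kappa = 12 b0, tau = 16 kappa.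

For a set S write M S c = number of directions d such that the d-line through the cell c contains
two elements of S different from c.  Unc F = cells c such that no d-line through c contains two
elements of F different from c.  If S has no three in line then S is contained in Unc F for F in S.

Step 1 (random half).  For c not in S the pairs of S on the d-lines through c are disjoint, so a
random subset F of S contains none of them with probability (3/4)^(M S c).  Hence some F in S with
|S minus F| >= |S|/2 has  sum over c in Unc F with M S c >= m0 of M S c  <=  6 n^2 (7/8)^m0.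
So EVERY function nu on Unc F with 0 <= nu <= 16^L/n^2 and total mass <= 1 has
sum nu(c) M S c <= m0 + 6:   the pairs of S have low weight,
sum over p, s in S of nu(line(p,s)) <= 2 (m0 + 6).
Step 2 (cheap update).  A sample Q of q = o(n) points of X = S minus F and nu determine a set Bs of
cells which contains at least half of X and has nu(Bs) <= 1/16 (supersaturation: by convexity every
set of cells of nu-mass beta carries collinear triples of weight >= beta^3 J/(32 n^2)).
Step 3.  Replace nu by nu/2 + 8 nu 1_Bs.  The total mass stays <= 1, the maximum grows at most by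
the factor 16, the product of nu over X grows at least by the factor 2^|X|.  After L steps the
product over X is at least n^(-2|X|) 2^(L|X|).
Step 4 (encoding).  S is determined by F, the L samples and X, and for given F and samples there
are at most n^(2|X|) 2^(-L|X|) / |X|! possibilities for X.
-/

set_option autoImplicit false

namespace H59.N3

open Finset

/-- cells of the `n × n` board -/
abbrev Cell (n : ℕ) := Fin n × Fin n

/-- the determinant `(q - p) × (r - p)`; it is zero exactly when the cells `p, q, r` are collinear -/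
def det {n : ℕ} (p q r : Cell n) : ℤ :=
  (((q.1 : ℕ) : ℤ) - ((p.1 : ℕ) : ℤ)) * (((r.2 : ℕ) : ℤ) - ((p.2 : ℕ) : ℤ)) -
    (((q.2 : ℕ) : ℤ) - ((p.2 : ℕ) : ℤ)) * (((r.1 : ℕ) : ℤ) - ((p.1 : ℕ) : ℤ))

/-- no three distinct cells of `S` lie on a common straight line -/
def NoThree {n : ℕ} (S : Finset (Cell n)) : Prop :=
  ∀ p ∈ S, ∀ q ∈ S, ∀ r ∈ S, p ≠ q → p ≠ r → q ≠ r → det p q r ≠ 0

/-- primitive directions `(a, b)` with `A < a ≤ B`, `1 ≤ b ≤ a` -/
def Dir (A B : ℕ) : Finset (ℕ × ℕ) :=
  (Ioc A B ×ˢ Icc 1 B).filter (fun d => d.2 ≤ d.1 ∧ Nat.Coprime d.1 d.2)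

/-- `b x - a y`: two cells are on the same `d`-line when the values agree -/
def Lin {n : ℕ} (d : ℕ × ℕ) (p : Cell n) : ℤ :=
  (d.2 : ℤ) * ((p.1 : ℕ) : ℤ) - (d.1 : ℤ) * ((p.2 : ℕ) : ℤ)

open Classical in
/-- the mass of the `D`-line through `p` and `s`, without the two cells `p` and `s` -/
noncomputable def W {n : ℕ} (D : Finset (ℕ × ℕ)) (ν : Cell n → ℝ) (p s : Cell n) : ℝ :=
  if p = s then 0 else
    ∑ d ∈ D, if Lin d p = Lin d s then
      ∑ c ∈ univ.filter (fun c : Cell n => c ≠ p ∧ c ≠ s ∧ Lin d c = Lin d p), ν c else 0

open Classical in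
/-- number of directions `d` in `D` such that the `d`-line through `c` contains two elements of
`S` different from `c` -/
noncomputable def M {n : ℕ} (D : Finset (ℕ × ℕ)) (S : Finset (Cell n)) (c : Cell n) : ℕ :=
  (D.filter (fun d => 2 ≤ (S.filter (fun v => v ≠ c ∧ Lin d v = Lin d c)).card)).card

open Classical in
/-- cells which are not covered by a pair of `F` -/
noncomputable def Unc {n : ℕ} (D : Finset (ℕ × ℕ)) (F : Finset (Cell n)) : Finset (Cell n) :=
  univ.filter (fun c => ∀ d ∈ D, (F.filter (fun v => v ≠ c ∧ Lin d v = Lin d c)).card ≤ 1)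

/-- average weight from the sample `Q` to the cell `s` -/
noncomputable def gQ {n q : ℕ} (D : Finset (ℕ × ℕ)) (ν : Cell n → ℝ) (Q : Fin q → Cell n)
    (s : Cell n) : ℝ := (∑ j, W D ν (Q j) s) / q

open Classical in
/-- cells of low average weight to the sample -/
noncomputable def C1 {n q : ℕ} (D : Finset (ℕ × ℕ)) (κ : ℝ) (ν : Cell n → ℝ)
    (Q : Fin q → Cell n) : Finset (Cell n) := univ.filter (fun s => gQ D ν Q s ≤ κ)

/-- weighted degree of `p` into the set `C` -/
noncomputable def deg {n : ℕ} (D : Finset (ℕ × ℕ)) (ν : Cell n → ℝ) (C : Finset (Cell n))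
    (p : Cell n) : ℝ := ∑ s ∈ C, ν s * W D ν p s

open Classical in
/-- the set `B` of the cheap update -/
noncomputable def Bs {n q : ℕ} (D : Finset (ℕ × ℕ)) (κ τ : ℝ) (ν : Cell n → ℝ)
    (Q : Fin q → Cell n) : Finset (Cell n) :=
  (C1 D κ ν Q).filter (fun p => deg D ν (C1 D κ ν Q) p ≤ τ)

open Classical in
/-- one update of the weight function -/
noncomputable def step {n q : ℕ} (D : Finset (ℕ × ℕ)) (κ τ : ℝ) (ν : Cell n → ℝ)
    (Q : Fin q → Cell n) : Cell n → ℝ :=
  fun c => if c ∈ Bs D κ τ ν Q then (17 / 2 : ℝ) * ν c else ν c / 2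

open Classical in
/-- the initial weight function -/
noncomputable def nu0 {n : ℕ} (D : Finset (ℕ × ℕ)) (F : Finset (Cell n)) : Cell n → ℝ :=
  fun c => if c ∈ Unc D F then 1 / (n : ℝ) ^ 2 else 0

/-- the weight function after the updates with the samples of the list `l` -/
noncomputable def nu {n q : ℕ} (D : Finset (ℕ × ℕ)) (κ τ : ℝ) (F : Finset (Cell n)) :
    List (Fin q → Cell n) → Cell n → ℝ
  | [] => nu0 D F
  | Q :: l => step D κ τ (nu D κ τ F l) Q

end H59.N3
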