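import Pool.Agent.H59.N3.CardUnc

/-! MODULE N3/ExF (60-120 lines).  Choice of the half `F`.

(0) for every natural number `x`: `x (3/4)^x ≤ 3 (7/8)^x`, i.e. `x ≤ 3 (7/6)^x` (Bernoulli type:
`(7/6)^x ≥ 1 + x/6 + ...`; e.g. `(7/6)^x ≥ x/3` by `(7/6)^6 > 2.5 > 2` and induction, or check
`x ≤ 7` and then induct with factor `7/6 ≥ (x+1)/x`).
(1) `∑ F ∈ S.powerset, ∑ c ∈ (Unc F) filter (m0 ≤ M S c), M S c
   = ∑ c with m0 ≤ M S c, M S c * #{F ⊆ S | c ∈ Unc F} ≤ n^2 * 2^|S| * 3 (7/8)^m0`
by `card_unc`, (0) and `(7/8)^(M S c) ≤ (7/8)^m0`; the number of cells is `n^2`.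
(2) The subsets `F` of `S` with `|S| ≤ 2 |S \ F|` are at least half of all subsets: `F ↦ S \ F` maps
the subsets which fail (then `|S \ F| < |S|/2`, so `|F| > |S|/2`, i.e. `S \ F` satisfies the
condition) injectively into those which satisfy it.
(3) If the conclusion failed for every such `F`, the sum in (1) would be
`> 2^|S| / 2 * 6 n^2 (7/8)^m0` (or both sides are zero sums: use that there is at least one such `F`,
e.g. `F = ∅`, for strictness), contradiction. -/

set_option autoImplicit false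
namespace H59.N3
open Finset

private lemma aux_bern (x : ℕ) : (x : ℝ) ≤ 3 * (7 / 6) ^ x := by
  induction x with
  | zero => norm_num
  | succ x ih =>
    rcases lt_or_ge x 6 with hx | hx
    · interval_cases x <;> norm_num
    · have hx' : (6 : ℝ) ≤ x := by exact_mod_cast hx
      rw [pow_succ]
      push_cast
      nlinarith

private lemma aux_pow (x : ℕ) : (x : ℝ) * (3 / 4) ^ x ≤ 3 * (7 / 8) ^ x := by
  have h1 : (7 / 8 : ℝ) ^ x = (7 / 6) ^ x * (3 / 4) ^ x := by
    rw [← mul_pow]
    norm_num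
  rw [h1, ← mul_assoc]
  exact mul_le_mul_of_nonneg_right (aux_bern x) (by positivity)

open Classical in
private lemma aux_half {n : ℕ} (S : Finset (Cell n)) :
    (2 : ℝ) ^ S.card ≤ 2 * ((S.powerset.filter (fun F => S.card ≤ 2 * (S \ F).card)).card : ℝ) := by
  have h1 : (S.powerset.filter (fun F => ¬ S.card ≤ 2 * (S \ F).card)).card ≤
      (S.powerset.filter (fun F => S.card ≤ 2 * (S \ F).card)).card := by
    apply Finset.card_le_card_of_injOn (fun F => S \ F)
    · intro F hF
      have hF' : F ∈ S.powerset.filter (fun F => ¬ S.card ≤ 2 * (S \ F).card) := hF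
      rw [mem_filter, mem_powerset] at hF'
      have h2 : S \ F ∈ S.powerset.filter (fun F => S.card ≤ 2 * (S \ F).card) := by
        rw [mem_filter, mem_powerset]
        refine ⟨sdiff_subset, ?_⟩
        rw [Finset.sdiff_sdiff_eq_self hF'.1]
        have := card_sdiff_add_card_eq_card hF'.1
        omega
      exact h2
    · intro F hF G hG h
      have hF' : F ∈ S.powerset.filter (fun F => ¬ S.card ≤ 2 * (S \ F).card) := hF
      have hG' : G ∈ S.powerset.filter (fun F => ¬ S.card ≤ 2 * (S \ F).card) := hG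
      rw [mem_filter, mem_powerset] at hF' hG'
      have h3 : S \ F = S \ G := h
      rw [← Finset.sdiff_sdiff_eq_self hF'.1, h3, Finset.sdiff_sdiff_eq_self hG'.1]
  have h4 := card_filter_add_card_filter_not (s := S.powerset)
    (fun F => S.card ≤ 2 * (S \ F).card)
  rw [card_powerset] at h4
  have h5 : 2 ^ S.card ≤ 2 * (S.powerset.filter (fun F => S.card ≤ 2 * (S \ F).card)).card := by
    omega
  exact_mod_cast h5

open Classical in
theorem exists_F {n A B : ℕ} {S : Finset (Cell n)} (hS : NoThree S) (m0 : ℕ) :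
    ∃ F ⊆ S, S.card ≤ 2 * (S \ F).card ∧
      ∑ c ∈ (Unc (Dir A B) F).filter (fun c => m0 ≤ M (Dir A B) S c),
        (M (Dir A B) S c : ℝ) ≤ 6 * (n : ℝ) ^ 2 * (7 / 8) ^ m0 := by
  set D := Dir A B with hD
  set R : ℝ := (n : ℝ) ^ 2 * (7 / 8) ^ m0 with hR
  have hR0 : 0 ≤ R := by positivity
  set T : Finset (Cell n) := univ.filter (fun c => m0 ≤ M D S c) with hT
  have hsum : ∀ F : Finset (Cell n), ∑ c ∈ (Unc D F).filter (fun c => m0 ≤ M D S c),
      (M D S c : ℝ) = ∑ c ∈ T, if c ∈ Unc D F then (M D S c : ℝ) else 0 := by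
    intro F
    rw [hT, ← sum_filter]
    apply sum_congr _ (fun _ _ => rfl)
    ext c
    simp only [mem_filter, mem_univ, true_and]
    tauto
  have h1 : ∑ F ∈ S.powerset, ∑ c ∈ (Unc D F).filter (fun c => m0 ≤ M D S c), (M D S c : ℝ) ≤
      3 * 2 ^ S.card * R := by
    rw [sum_congr rfl (fun F _ => hsum F), sum_comm]
    have h2 : ∀ c ∈ T, (∑ F ∈ S.powerset, if c ∈ Unc D F then (M D S c : ℝ) else 0) ≤
        2 ^ S.card * (3 * (7 / 8) ^ m0) := by
      intro c hc
      have hc' : m0 ≤ M D S c := (mem_filter.1 hc).2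
      rw [← sum_filter, sum_const, nsmul_eq_mul]
      have h3 := card_unc (A := A) (B := B) hS c
      calc ((S.powerset.filter (fun F => c ∈ Unc D F)).card : ℝ) * (M D S c : ℝ)
          ≤ (2 ^ S.card * (3 / 4) ^ (M D S c)) * (M D S c : ℝ) :=
            mul_le_mul_of_nonneg_right h3 (by positivity)
        _ = 2 ^ S.card * ((M D S c : ℝ) * (3 / 4) ^ (M D S c)) := by ring
        _ ≤ 2 ^ S.card * (3 * (7 / 8) ^ (M D S c)) :=
            mul_le_mul_of_nonneg_left (aux_pow _) (by positivity)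
        _ ≤ 2 ^ S.card * (3 * (7 / 8) ^ m0) := by
            apply mul_le_mul_of_nonneg_left _ (by positivity)
            apply mul_le_mul_of_nonneg_left _ (by norm_num)
            exact pow_le_pow_of_le_one (by norm_num) (by norm_num) hc'
    calc _ ≤ ∑ c ∈ T, (2 : ℝ) ^ S.card * (3 * (7 / 8) ^ m0) := sum_le_sum h2
      _ = (T.card : ℝ) * (2 ^ S.card * (3 * (7 / 8) ^ m0)) := by rw [sum_const, nsmul_eq_mul]
      _ ≤ ((n : ℝ) ^ 2) * (2 ^ S.card * (3 * (7 / 8) ^ m0)) := by
          apply mul_le_mul_of_nonneg_right _ (by positivity)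
          have h4 : T.card ≤ n ^ 2 := by
            refine (card_le_univ _).trans ?_
            rw [Fintype.card_prod, Fintype.card_fin, sq]
          exact_mod_cast h4
      _ = 3 * 2 ^ S.card * R := by rw [hR]; ring
  by_contra hcon
  push Not at hcon
  set G := S.powerset.filter (fun F => S.card ≤ 2 * (S \ F).card) with hG
  have hGne : G.Nonempty := by
    refine ⟨∅, ?_⟩
    rw [hG, mem_filter, mem_powerset]
    refine ⟨empty_subset _, ?_⟩
    rw [sdiff_empty]
    omega
  have h5 : ∑ F ∈ G, (6 * R) < ∑ F ∈ G,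
      ∑ c ∈ (Unc D F).filter (fun c => m0 ≤ M D S c), (M D S c : ℝ) := by
    apply sum_lt_sum_of_nonempty hGne
    intro F hF
    rw [hG, mem_filter, mem_powerset] at hF
    have := hcon F hF.1 hF.2
    rw [hR]
    linarith
  have h6 : ∑ F ∈ G, ∑ c ∈ (Unc D F).filter (fun c => m0 ≤ M D S c), (M D S c : ℝ) ≤
      ∑ F ∈ S.powerset, ∑ c ∈ (Unc D F).filter (fun c => m0 ≤ M D S c), (M D S c : ℝ) := by
    apply sum_le_sum_of_subset_of_nonneg (filter_subset _ _)
    intro F _ _
    exact sum_nonneg (fun c _ => Nat.cast_nonneg _)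
  rw [sum_const, nsmul_eq_mul] at h5
  have h7 := aux_half S
  rw [← hG] at h7
  nlinarith [mul_le_mul_of_nonneg_right h7 hR0]

end H59.N3
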