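import Pool.Agent.H59.N3.Defs

/-! MODULE N3/Geo (60-120 lines).  Elementary geometry of the lines.

* `det_of_lin`: write `dx = q.1 - p.1` etc.  `b dx = a dy`, `b dx' = a dy'`, so
  `a * det = a dx dy' - a dy dx' = dx (b dx') - (b dx) dx' = 0` and `a > 0`.
* `dir_unique`: `b dx = a dy`, `b' dx = a' dy` with `(dx, dy) ≠ (0, 0)`; `dx = 0` would give `dy = 0`,
  so `b a' dx = a a' dy = a b' dx` gives `b a' = a b'`; both are coprime pairs with positive entries: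
  `a ∣ a'` and `a' ∣ a`.
* `card_line_le`: `b x - a y = r` determines `x` modulo `a` (b is invertible modulo a), and `y` from
  `x`; so the cells inject into the residue class of `x` in `range n` (at most `n / a + 1`
  elements, `Nat.count_modEq_card` or inject `c ↦ c.1 / a` into `range (n / a + 1)`: two cells of the
  line with the same `c.1 / a` and the same `c.1 % a` are equal).
* `card_image_le`: the values lie between `-(a (n-1))` and `b (n-1) ≤ a (n-1)`, so there are at most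
  `2 a (n - 1) + 1 ≤ 2 a n` of them (`n = 0`: the image is empty).
* `card_Dir_le`: `Dir A B ⊆ Icc 1 B ×ˢ Icc 1 B`. -/

set_option autoImplicit false
namespace H59.N3
open Finset

theorem det_of_lin {n : ℕ} {d : ℕ × ℕ} (hd : 0 < d.1) {p q r : Cell n}
    (h1 : Lin d p = Lin d q) (h2 : Lin d p = Lin d r) : det p q r = 0 := by
  have ha : (0 : ℤ) < (d.1 : ℤ) := by exact_mod_cast hd
  unfold Lin at h1 h2
  have key : (d.1 : ℤ) * det p q r = 0 := by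
    unfold det
    linear_combination (((q.1 : ℕ) : ℤ) - ((p.1 : ℕ) : ℤ)) * h2 -
      (((r.1 : ℕ) : ℤ) - ((p.1 : ℕ) : ℤ)) * h1
  exact (mul_eq_zero.1 key).resolve_left ha.ne'

private theorem geo_dir {A B : ℕ} {d : ℕ × ℕ} (hd : d ∈ Dir A B) :
    0 < d.1 ∧ d.1 ≤ B ∧ 0 < d.2 ∧ d.2 ≤ d.1 ∧ Nat.Coprime d.1 d.2 := by
  unfold Dir at hd
  rw [mem_filter, mem_product, mem_Ioc, mem_Icc] at hd
  obtain ⟨⟨⟨h1, h2⟩, h3, h4⟩, h5, h6⟩ := hd
  exact ⟨by omega, h2, h3, h5, h6⟩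

theorem dir_unique {n A B : ℕ} {d d' : ℕ × ℕ} (hd : d ∈ Dir A B) (hd' : d' ∈ Dir A B)
    {p c : Cell n} (hpc : p ≠ c) (h : Lin d p = Lin d c) (h' : Lin d' p = Lin d' c) : d = d' := by
  obtain ⟨a1, a2, a3, a4, a5⟩ := geo_dir hd
  obtain ⟨b1, b2, b3, b4, b5⟩ := geo_dir hd'
  unfold Lin at h h'
  have ha : (0 : ℤ) < (d.1 : ℤ) := by exact_mod_cast a1
  have hdx : ((p.1 : ℕ) : ℤ) - ((c.1 : ℕ) : ℤ) ≠ 0 := by
    intro h0
    have h1 : ((p.1 : ℕ) : ℤ) = ((c.1 : ℕ) : ℤ) := by linarith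
    rw [h1] at h
    have h2 : (d.1 : ℤ) * (((p.2 : ℕ) : ℤ) - ((c.2 : ℕ) : ℤ)) = 0 := by linarith
    have h3 := (mul_eq_zero.1 h2).resolve_left ha.ne'
    refine hpc (Prod.ext (Fin.ext ?_) (Fin.ext ?_))
    · exact_mod_cast h1
    · have h4 : ((p.2 : ℕ) : ℤ) = ((c.2 : ℕ) : ℤ) := by linarith
      exact_mod_cast h4
  have key : (((d.2 : ℤ) * (d'.1 : ℤ)) - (d.1 : ℤ) * (d'.2 : ℤ)) *
      (((p.1 : ℕ) : ℤ) - ((c.1 : ℕ) : ℤ)) = 0 := by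
    linear_combination (d'.1 : ℤ) * h - (d.1 : ℤ) * h'
  have key2 : (d.2 : ℤ) * (d'.1 : ℤ) = (d.1 : ℤ) * (d'.2 : ℤ) := by
    have := (mul_eq_zero.1 key).resolve_right hdx
    linarith
  have key3 : d.2 * d'.1 = d.1 * d'.2 := by exact_mod_cast key2
  have e1 : d.1 ∣ d'.1 := by
    refine a5.dvd_of_dvd_mul_left ?_
    rw [key3]
    exact dvd_mul_right _ _
  have e2 : d'.1 ∣ d.1 := by
    refine b5.dvd_of_dvd_mul_right ?_
    rw [← key3]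
    exact dvd_mul_left _ _
  have e3 : d.1 = d'.1 := Nat.dvd_antisymm e1 e2
  refine Prod.ext e3 ?_
  rw [← e3, mul_comm] at key3
  exact Nat.eq_of_mul_eq_mul_left a1 key3

theorem card_line_le {n A B : ℕ} {d : ℕ × ℕ} (hd : d ∈ Dir A B) (r : ℤ) :
    (univ.filter (fun c : Cell n => Lin d c = r)).card ≤ n / d.1 + 1 := by
  obtain ⟨a1, a2, a3, a4, a5⟩ := geo_dir hd
  have h0 : (range (n / d.1 + 1)).card = n / d.1 + 1 := card_range _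
  rw [← h0]
  refine card_le_card_of_injOn (fun c : Cell n => (c.1 : ℕ) / d.1) ?_ ?_
  · intro c _
    simp only [coe_range, Set.mem_Iio]
    exact Nat.lt_succ_of_le (Nat.div_le_div_right c.1.isLt.le)
  · intro c hc c' hc' hcc
    rw [mem_coe, mem_filter] at hc hc'
    have h1 : Lin d c = Lin d c' := hc.2.trans hc'.2.symm
    unfold Lin at h1
    simp only at hcc
    have hdvd : (d.1 : ℤ) ∣ (d.2 : ℤ) * (((c.1 : ℕ) : ℤ) - ((c'.1 : ℕ) : ℤ)) :=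
      ⟨((c.2 : ℕ) : ℤ) - ((c'.2 : ℕ) : ℤ), by linarith⟩
    have hdvd2 : (d.1 : ℤ) ∣ ((c.1 : ℕ) : ℤ) - ((c'.1 : ℕ) : ℤ) :=
      (Nat.isCoprime_iff_coprime.2 a5).dvd_of_dvd_mul_left hdvd
    have hmod : ((c.1 : ℕ) : ℤ) ≡ ((c'.1 : ℕ) : ℤ) [ZMOD (d.1 : ℤ)] :=
      (Int.modEq_iff_dvd.2 hdvd2).symm
    have hmod2 : (c.1 : ℕ) % d.1 = (c'.1 : ℕ) % d.1 := (Int.natCast_modEq_iff.1 hmod)
    have hx : (c.1 : ℕ) = (c'.1 : ℕ) := by
      rw [← Nat.div_add_mod (c.1 : ℕ) d.1, ← Nat.div_add_mod (c'.1 : ℕ) d.1, hcc, hmod2]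
    refine Prod.ext (Fin.ext hx) (Fin.ext ?_)
    rw [hx] at h1
    have ha : (0 : ℤ) < (d.1 : ℤ) := by exact_mod_cast a1
    have h2 : (d.1 : ℤ) * (((c.2 : ℕ) : ℤ) - ((c'.2 : ℕ) : ℤ)) = 0 := by linarith
    have h3 := (mul_eq_zero.1 h2).resolve_left ha.ne'
    have h4 : ((c.2 : ℕ) : ℤ) = ((c'.2 : ℕ) : ℤ) := by linarith
    exact_mod_cast h4

theorem card_image_le {n A B : ℕ} {d : ℕ × ℕ} (hd : d ∈ Dir A B) :
    ((univ : Finset (Cell n)).image (Lin d)).card ≤ 2 * d.1 * n := by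
  obtain ⟨a1, a2, a3, a4, a5⟩ := geo_dir hd
  have hsub : (univ : Finset (Cell n)).image (Lin d) ⊆
      Ico (-((d.1 : ℤ) * n)) ((d.1 : ℤ) * n) := by
    intro v hv
    rw [mem_image] at hv
    obtain ⟨c, _, rfl⟩ := hv
    rw [mem_Ico]
    unfold Lin
    have h1 : ((c.1 : ℕ) : ℤ) + 1 ≤ n := by exact_mod_cast c.1.isLt
    have h2 : ((c.2 : ℕ) : ℤ) + 1 ≤ n := by exact_mod_cast c.2.isLt
    have h3 : (0 : ℤ) ≤ ((c.1 : ℕ) : ℤ) := Int.natCast_nonneg _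
    have h4 : (0 : ℤ) ≤ ((c.2 : ℕ) : ℤ) := Int.natCast_nonneg _
    have ha : (0 : ℤ) < (d.1 : ℤ) := by exact_mod_cast a1
    have hb : (0 : ℤ) < (d.2 : ℤ) := by exact_mod_cast a3
    have hba : (d.2 : ℤ) ≤ (d.1 : ℤ) := by exact_mod_cast a4
    have e1 : 0 ≤ (d.2 : ℤ) * ((c.1 : ℕ) : ℤ) := mul_nonneg hb.le h3
    have e2 : 0 ≤ (d.1 : ℤ) * ((c.2 : ℕ) : ℤ) := mul_nonneg ha.le h4
    have e3 : (d.2 : ℤ) * ((c.1 : ℕ) : ℤ) ≤ (d.1 : ℤ) * ((c.1 : ℕ) : ℤ) :=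
      mul_le_mul_of_nonneg_right hba h3
    have e4 : (d.1 : ℤ) * (((c.1 : ℕ) : ℤ) + 1) ≤ (d.1 : ℤ) * n :=
      mul_le_mul_of_nonneg_left h1 ha.le
    have e5 : (d.1 : ℤ) * (((c.2 : ℕ) : ℤ) + 1) ≤ (d.1 : ℤ) * n :=
      mul_le_mul_of_nonneg_left h2 ha.le
    constructor <;> linarith
  refine (card_le_card hsub).trans ?_
  rw [Int.card_Ico]
  have h1 : (d.1 : ℤ) * n - -((d.1 : ℤ) * n) = ((2 * d.1 * n : ℕ) : ℤ) := by
    push_cast
    ring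
  rw [h1, Int.toNat_natCast]

theorem card_Dir_le (A B : ℕ) : (Dir A B).card ≤ B ^ 2 := by
  have hsub : Dir A B ⊆ Icc 1 B ×ˢ Icc 1 B := by
    intro d hd
    obtain ⟨a1, a2, a3, a4, a5⟩ := geo_dir hd
    rw [mem_product, mem_Icc, mem_Icc]
    exact ⟨⟨a1, a2⟩, a3, a4.trans a2⟩
  refine (card_le_card hsub).trans ?_
  rw [card_product, Nat.card_Icc, Nat.add_sub_cancel, sq]

end H59.N3
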