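import Pool.Agent.H59.N3.Defs

/-! N3/Num (helper59).  Definitions for the final statements. -/

set_option autoImplicit false
namespace H59.N3
open Finset

open Classical in
/-- the number of `k`-element sets of cells of the `n × n` board without three in line -/
noncomputable def numNT (n k : ℕ) : ℕ :=
  (((univ : Finset (Cell n)).powersetCard k).filter (fun S => NoThree S)).card

/-- ordered collinear triples of distinct cells -/
def badT (n : ℕ) : Finset (Cell n × Cell n × Cell n) :=
  univ.filter (fun t => t.1 ≠ t.2.1 ∧ t.1 ≠ t.2.2 ∧ t.2.1 ≠ t.2.2 ∧ det t.1 t.2.1 t.2.2 = 0)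

/-- the difference of the first coordinates -/
def dx {n : ℕ} (p q : Cell n) : ℤ := ((q.1 : ℕ) : ℤ) - ((p.1 : ℕ) : ℤ)

/-- the difference of the second coordinates -/
def dy {n : ℕ} (p q : Cell n) : ℤ := ((q.2 : ℕ) : ℤ) - ((p.2 : ℕ) : ℤ)

end H59.N3
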