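import Pool.Agent.H59.N3.Sz

/-! MODULE N3/P3 (20-40 lines).  `32 (2 L') ≤ m` (`Sz.L_mul_le`) and `(8/7)^32 ≥ 16`
(`norm_num`), so `16^(2 L') ≤ (8/7)^(32 (2 L')) ≤ (8/7)^m` and `(8/7)^m (7/8)^m = 1`. -/

set_option autoImplicit false
namespace H59.N3

theorem P3 {T n k J m L' : ℕ} (h : Sz T n k J m L') :
    (16 : ℝ) ^ (2 * L') * (7 / 8) ^ m ≤ 1 := by
  have h1 : ((7 : ℝ) / 8) ^ m ≤ (7 / 8) ^ (64 * L') :=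
    pow_le_pow_of_le_one (by norm_num) (by norm_num) h.L_mul_le
  have h2 : (16 : ℝ) ^ (2 * L') * (7 / 8) ^ (64 * L') = (16 ^ 2 * (7 / 8) ^ 64) ^ L' := by
    rw [mul_pow, ← pow_mul, ← pow_mul]
  have h3 : (16 : ℝ) ^ 2 * (7 / 8) ^ 64 ≤ 1 := by norm_num
  calc (16 : ℝ) ^ (2 * L') * (7 / 8) ^ m ≤ 16 ^ (2 * L') * (7 / 8) ^ (64 * L') := by gcongr
    _ = (16 ^ 2 * (7 / 8) ^ 64) ^ L' := h2
    _ ≤ 1 := pow_le_one₀ (by positivity) h3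

end H59.N3
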