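import Pool.Agent.H59.N3.Sz

set_option autoImplicit false
/-! MODULE N3/P4 (50-90 lines).  Write `q = qq n J m L'`, `N = 16^(2 L')`.  The exponent is
`E = q * 96 * m * n * 2^J / (k^2 N)` (field arithmetic).  `q ≥ n N J / (m 2^J)` as real numbers
(`Nat.lt_floor_add_one` / `Nat.div_add_one`: `n N J < (a / b + 1) b`, `Nat.lt_mul_div_succ` or
`Nat.div_lt_iff_lt_mul`), and `k ≤ 2 n`, so `E ≥ 24 J`.  Then
`n^2 exp (-E) ≤ n^2 exp (-24 J) ≤ 2^(8 J + 8) * 2^(-24 J) ≤ 2^(8 - 16 J) ≤ 1/4`, by `n < 2^(4J+4)`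
and `exp 1 ≥ 2` (`Real.add_one_le_exp 1`). -/

namespace H59.N3

private theorem qq_real {T n k J m L' : ℕ} (h : Sz T n k J m L') :
    (n : ℝ) * 16 ^ (2 * L') * J ≤ (qq n J m L' : ℕ) * ((m : ℝ) * 2 ^ J) := by
  have hm := h.le_m
  have hpos : 0 < m * 2 ^ J := by positivity
  have h1 : n * 16 ^ (2 * L') * J < m * 2 ^ J * (n * 16 ^ (2 * L') * J / (m * 2 ^ J) + 1) :=
    Nat.lt_mul_div_succ _ hpos
  have h2 : n * 16 ^ (2 * L') * J ≤ qq n J m L' * (m * 2 ^ J) := by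
    unfold qq
    rw [mul_comm (n * 16 ^ (2 * L') * J / (m * 2 ^ J) + 1)]
    exact h1.le
  exact_mod_cast h2

theorem P4 {T n k J m L' : ℕ} (h : Sz T n k J m L') :
    (n : ℝ) ^ 2 * Real.exp (-((qq n J m L' : ℕ) * (12 * (16 * m / (k : ℝ) ^ 2)) /
      ((16 : ℝ) ^ (2 * L') / (n : ℝ) ^ 2 * (2 * n / ((2 ^ J : ℕ) : ℝ))))) ≤ 1 / 4 := by
  have hq := qq_real h
  have hn1 : (1 : ℝ) ≤ n := by exact_mod_cast h.n_pos
  have hk1 : (1 : ℝ) ≤ k := by exact_mod_cast h.k_pos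
  have hm1 : (1 : ℝ) ≤ m := by
    have := h.le_m
    exact_mod_cast (show 1 ≤ m by omega)
  have hJ1 : 1 ≤ J := le_trans (by norm_num) h.J_large
  have hk2 : (k : ℝ) ≤ 2 * n := by exact_mod_cast h.hk2
  have hn0 : (0 : ℝ) < n := by linarith
  have hk0 : (0 : ℝ) < k := by linarith
  have hm0 : (0 : ℝ) < m := by linarith
  have hJ0 : (0 : ℝ) < J := by exact_mod_cast hJ1
  set q : ℝ := ((qq n J m L' : ℕ) : ℝ) with hqd
  set N : ℝ := (16 : ℝ) ^ (2 * L') with hN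
  have hN0 : 0 < N := by positivity
  have h2J : (0 : ℝ) < 2 ^ J := by positivity
  have key : 24 * (J : ℝ) ≤ q * (12 * (16 * m / (k : ℝ) ^ 2)) /
      (N / (n : ℝ) ^ 2 * (2 * n / ((2 ^ J : ℕ) : ℝ))) := by
    rw [Nat.cast_pow, Nat.cast_ofNat, le_div_iff₀ (by positivity)]
    have e1 : 24 * (J : ℝ) * (N / (n : ℝ) ^ 2 * (2 * n / 2 ^ J)) = 48 * J * N / (n * 2 ^ J) := by
      field_simp
      ring
    have e2 : q * (12 * (16 * m / (k : ℝ) ^ 2)) = 192 * (q * m) / (k : ℝ) ^ 2 := by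
      field_simp
      ring
    rw [e1, e2, div_le_div_iff₀ (by positivity) (by positivity)]
    have h3 : (k : ℝ) ^ 2 ≤ 4 * n ^ 2 := by nlinarith
    calc 48 * J * N * (k : ℝ) ^ 2 ≤ 48 * J * N * (4 * n ^ 2) := by gcongr
      _ = 192 * n * (n * N * J) := by ring
      _ ≤ 192 * n * (q * (m * 2 ^ J)) := by gcongr
      _ = 192 * (q * m) * (n * 2 ^ J) := by ring
  have hnup : (n : ℝ) ^ 2 ≤ 2 ^ (8 * J + 8) := by
    have h3 : (n : ℝ) ≤ 2 ^ (4 * J + 4) := by exact_mod_cast h.hup.le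
    calc (n : ℝ) ^ 2 ≤ (2 ^ (4 * J + 4)) ^ 2 := by gcongr
      _ = 2 ^ (8 * J + 8) := by rw [← pow_mul]; congr 1; ring
  have hexp : Real.exp (-(q * (12 * (16 * m / (k : ℝ) ^ 2)) /
      (N / (n : ℝ) ^ 2 * (2 * n / ((2 ^ J : ℕ) : ℝ))))) ≤ 1 / 2 ^ (24 * J) := by
    have h4 : (2 : ℝ) ≤ Real.exp 1 := by
      have := Real.add_one_le_exp (1 : ℝ)
      linarith
    have h5 : (2 : ℝ) ^ (24 * J) ≤ Real.exp (24 * (J : ℝ)) := by
      calc (2 : ℝ) ^ (24 * J) ≤ Real.exp 1 ^ (24 * J) := by gcongr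
        _ = Real.exp (24 * (J : ℝ)) := by
          rw [← Real.exp_nat_mul]
          congr 1
          push_cast
          ring
    rw [Real.exp_neg, one_div]
    apply inv_anti₀ (by positivity)
    exact h5.trans (Real.exp_le_exp.2 key)
  calc (n : ℝ) ^ 2 * Real.exp (-(q * (12 * (16 * m / (k : ℝ) ^ 2)) /
      (N / (n : ℝ) ^ 2 * (2 * n / ((2 ^ J : ℕ) : ℝ))))) ≤
      2 ^ (8 * J + 8) * (1 / 2 ^ (24 * J)) := by gcongr
    _ ≤ 1 / 4 := by
      rw [mul_one_div, div_le_div_iff₀ (by positivity) (by norm_num), one_mul]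
      calc (2 : ℝ) ^ (8 * J + 8) * 4 = 2 ^ (8 * J + 10) := by
            rw [pow_add, pow_add]
            norm_num
            ring
        _ ≤ 2 ^ (24 * J) := pow_le_pow_right₀ (by norm_num) (by omega)

end H59.N3
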