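import Pool.Agent.H59.N3.Sz
import Pool.Agent.H59.N3.Geo

/-! MODULE N3/P5 (60-110 lines).  Two parts, each at most `1/512`:
(i) `32 n^2 / J * (16 * 12 * 16 m / k^2) = 98304 (n/k)^2 m / J ≤ 98304 T^2 m / J ≤ 98304 / 2^26
≤ 1/512` by `n ≤ T k` and `2^26 T^2 m ≤ J` (`Sz.m_mul_le`).
(ii) `32 n^2 / J * 9/2 * (16^(2L') / n^2)^2 * #Dir = 144 * 16^(4 L') * #Dir / (J n^2)`;
`#Dir ≤ (4^J 2^J)^2 = 2^(6J)` (`card_Dir_le`), `n^2 ≥ 2^(8J)`, `16^(4 L') = 2^(16 L') ≤ 2^J` since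
`2^32 L' ≤ J` (`Sz.L_le_J`); so (ii) is at most `144 * 2^(7 J) / (J 2^(8 J)) ≤ 144 / J ≤ 1/512`
(`Sz.J_large`). -/

set_option autoImplicit false
namespace H59.N3

theorem P5 {T n k J m L' : ℕ} (h : Sz T n k J m L') :
    32 * (n : ℝ) ^ 2 / J * (16 * (12 * (16 * m / (k : ℝ) ^ 2)) +
      9 / 2 * ((16 : ℝ) ^ (2 * L') / (n : ℝ) ^ 2) ^ 2 * (Dir (2 ^ J) (4 ^ J * 2 ^ J)).card) ≤
      1 / 256 := by
  have hJ1 : (2 : ℝ) ^ 36 ≤ (J : ℝ) := by exact_mod_cast h.J_large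
  have hJpos : (0 : ℝ) < J := lt_of_lt_of_le (by positivity) hJ1
  have hkpos : (0 : ℝ) < k := by exact_mod_cast h.k_pos
  have hnpos : (0 : ℝ) < n := by exact_mod_cast h.n_pos
  have hnk : (n : ℝ) ≤ T * k := by exact_mod_cast h.hk1
  have hn2 : (n : ℝ) ^ 2 ≤ (T : ℝ) ^ 2 * (k : ℝ) ^ 2 := by
    rw [← mul_pow]
    exact pow_le_pow_left₀ hnpos.le hnk 2
  have hm : (2 : ℝ) ^ 26 * (T : ℝ) ^ 2 * m ≤ J := by exact_mod_cast h.m_mul_le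
  -- first part
  have hi : 32 * (n : ℝ) ^ 2 / J * (16 * (12 * (16 * m / (k : ℝ) ^ 2))) ≤ 1 / 512 := by
    have h1 : (n : ℝ) ^ 2 * m * 2 ^ 26 ≤ (k : ℝ) ^ 2 * J := by
      calc (n : ℝ) ^ 2 * m * 2 ^ 26 ≤ ((T : ℝ) ^ 2 * (k : ℝ) ^ 2) * m * 2 ^ 26 := by gcongr
        _ = (k : ℝ) ^ 2 * (2 ^ 26 * (T : ℝ) ^ 2 * m) := by ring
        _ ≤ (k : ℝ) ^ 2 * J := by gcongr
    have h2 : 32 * (n : ℝ) ^ 2 / J * (16 * (12 * (16 * m / (k : ℝ) ^ 2))) =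
        98304 * ((n : ℝ) ^ 2 * m) / ((k : ℝ) ^ 2 * J) := by
      field_simp
      ring
    rw [h2, div_le_iff₀ (by positivity)]
    have h3 : (0 : ℝ) ≤ (k : ℝ) ^ 2 * J := by positivity
    linarith
  -- second part
  have hii : 32 * (n : ℝ) ^ 2 / J * (9 / 2 * ((16 : ℝ) ^ (2 * L') / (n : ℝ) ^ 2) ^ 2 *
      (Dir (2 ^ J) (4 ^ J * 2 ^ J)).card) ≤ 1 / 512 := by
    have hD : ((Dir (2 ^ J) (4 ^ J * 2 ^ J)).card : ℝ) ≤ (2 : ℝ) ^ (6 * J) := by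
      have h1 := card_Dir_le (2 ^ J) (4 ^ J * 2 ^ J)
      have h2 : (4 ^ J * 2 ^ J) ^ 2 = 2 ^ (6 * J) := by
        rw [← mul_pow, ← pow_mul, pow_mul 2 6 J, mul_comm J 2, pow_mul]
        norm_num
      rw [h2] at h1
      exact_mod_cast h1
    have hL : ((16 : ℝ) ^ (2 * L')) ^ 2 ≤ (2 : ℝ) ^ J := by
      have h1 : ((16 : ℝ) ^ (2 * L')) ^ 2 = (2 : ℝ) ^ (16 * L') := by
        rw [← pow_mul, show (16 : ℝ) = 2 ^ 4 by norm_num, ← pow_mul]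
        congr 1
        ring
      rw [h1]
      refine pow_le_pow_right₀ (by norm_num) ?_
      have h2 := h.L_le_J
      have h3 : 16 * L' ≤ 2 ^ 32 * L' := Nat.mul_le_mul_right _ (by norm_num)
      exact h3.trans h2
    have hn8 : (2 : ℝ) ^ (8 * J) ≤ (n : ℝ) ^ 2 := by
      have h1 : (2 : ℝ) ^ (4 * J) ≤ n := by exact_mod_cast h.hlo
      have h2 := pow_le_pow_left₀ (by positivity) h1 2
      rw [← pow_mul] at h2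
      rwa [show 8 * J = 4 * J * 2 by ring]
    have h78 : ((16 : ℝ) ^ (2 * L')) ^ 2 * (Dir (2 ^ J) (4 ^ J * 2 ^ J)).card ≤ (n : ℝ) ^ 2 := by
      calc ((16 : ℝ) ^ (2 * L')) ^ 2 * (Dir (2 ^ J) (4 ^ J * 2 ^ J)).card
          ≤ (2 : ℝ) ^ J * (2 : ℝ) ^ (6 * J) := by gcongr
        _ = (2 : ℝ) ^ (7 * J) := by
            rw [← pow_add]
            congr 1
            ring
        _ ≤ (2 : ℝ) ^ (8 * J) := pow_le_pow_right₀ (by norm_num) (by omega)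
        _ ≤ (n : ℝ) ^ 2 := hn8
    have h2 : 32 * (n : ℝ) ^ 2 / J * (9 / 2 * ((16 : ℝ) ^ (2 * L') / (n : ℝ) ^ 2) ^ 2 *
        (Dir (2 ^ J) (4 ^ J * 2 ^ J)).card) =
        144 * (((16 : ℝ) ^ (2 * L')) ^ 2 * (Dir (2 ^ J) (4 ^ J * 2 ^ J)).card) /
          ((n : ℝ) ^ 2 * J) := by
      field_simp
      ring
    rw [h2, div_le_iff₀ (by positivity)]
    have h3 : (n : ℝ) ^ 2 * 2 ^ 36 ≤ (n : ℝ) ^ 2 * J := by gcongr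
    have h4 : (0 : ℝ) ≤ (n : ℝ) ^ 2 := by positivity
    linarith
  calc 32 * (n : ℝ) ^ 2 / J * (16 * (12 * (16 * m / (k : ℝ) ^ 2)) +
      9 / 2 * ((16 : ℝ) ^ (2 * L') / (n : ℝ) ^ 2) ^ 2 * (Dir (2 ^ J) (4 ^ J * 2 ^ J)).card)
      = 32 * (n : ℝ) ^ 2 / J * (16 * (12 * (16 * m / (k : ℝ) ^ 2))) +
        32 * (n : ℝ) ^ 2 / J * (9 / 2 * ((16 : ℝ) ^ (2 * L') / (n : ℝ) ^ 2) ^ 2 *
          (Dir (2 ^ J) (4 ^ J * 2 ^ J)).card) := by ring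
    _ ≤ 1 / 512 + 1 / 512 := add_le_add hi hii
    _ = 1 / 256 := by norm_num

end H59.N3
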