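import Pool.Agent.H59.N3.Sz

/-! MODULE N3/P6 (80-130 lines, natural numbers).  `n < 2^(4J+4)`, so the left side is at most
`2^((8 J + 8) * q * (2 L'))` and it is enough that `(8 J + 8) * q * (2 L') ≤ k`, `q = qq n J m L'`.
Multiply by `2 T`: it is enough that `2 T (8 J + 8) (2 L') q ≤ 2 n` (`n ≤ T k`).  Two parts:
(i) `2 T (8J+8) (2L') * (n 16^(2L') J / (m 2^J)) ≤ n`: by `64 L' ≤ m` and `8 J + 8 ≤ 16 J` the left side
is at most `T * 64 * J * L' * n * 2^(8L') * J / (m 2^J) ≤ n * T * J^2 * 2^(8 L') / 2^J`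
(`Nat.div_mul_le`: with `A = n 16^(2L') J / (m 2^J)` use `A * (m 2^J) ≤ n 16^(2L') J`),
and `T * J^2 * 2^(8 L') ≤ J^3 * 2^(8 L') ≤ 2^(3 (J/4)) * 2^(J/4) ≤ 2^J` by `J ≤ 2^(J/4)` (true for
`J ≥ 16`; `J < 2^(J/4)`... induction or `Nat.lt_two_pow_self` applied to `J / 8` twice) and
`8 L' ≤ J/4`.
(ii) `2 T (8J+8) (2L') ≤ n`: at most `2 J * 16 J * 2 J = 64 J^3 ≤ 2^(6 + 3 J) ≤ 2^(4J) ≤ n`. -/

set_option autoImplicit false
namespace H59.N3

theorem P6 {T n k J m L' : ℕ} (h : Sz T n k J m L') :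
    ((n ^ 2) ^ (qq n J m L')) ^ (2 * L') ≤ 2 ^ k := by
  have hJl := h.J_large
  have hTJ := h.T_le_J
  have hLJ := h.L_le_J
  have hLm := h.L_mul_le
  have hmm := h.m_mul_le
  have hT := h.hT
  have hmpos := h.le_m
  have hmJ : m ≤ J := by
    have hT2 : 1 ≤ T ^ 2 := Nat.one_le_pow _ _ hT
    calc m = 1 * 1 * m := by ring
      _ ≤ 2 ^ 26 * T ^ 2 * m := by gcongr; norm_num
      _ ≤ J := hmm
  -- `J ≤ 2^(2t)`, `t = J / 8`
  obtain ⟨t, ht⟩ : ∃ t, t = J / 8 := ⟨_, rfl⟩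
  have ht8 : 8 * t ≤ J := by rw [ht]; exact Nat.mul_div_le J 8
  have ht9 : J < 8 * (t + 1) := by omega
  have ht10 : 8 ≤ t + 1 := by
    have : (2 : ℕ) ^ 36 = 68719476736 := by norm_num
    omega
  have hJt : J ≤ 2 ^ (2 * t) := by
    have h1 : t + 1 ≤ 2 ^ t := Nat.lt_two_pow_self
    calc J ≤ 8 * (t + 1) := ht9.le
      _ ≤ (t + 1) * (t + 1) := by gcongr
      _ ≤ 2 ^ t * 2 ^ t := by gcongr
      _ = 2 ^ (2 * t) := by rw [← pow_add]; congr 1; ring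
  have hJ3 : J * J * J ≤ 2 ^ (6 * t) := by
    calc J * J * J ≤ 2 ^ (2 * t) * 2 ^ (2 * t) * 2 ^ (2 * t) := by gcongr
      _ = 2 ^ (6 * t) := by rw [← pow_add, ← pow_add]; congr 1; ring
  have hexp : 6 * t + 8 * L' ≤ J := by
    have : (2 : ℕ) ^ 32 = 4294967296 := by norm_num
    omega
  have hkey : T * J * J * 16 ^ (2 * L') ≤ 2 ^ J := by
    have h16 : (16 : ℕ) ^ (2 * L') = 2 ^ (8 * L') := by
      rw [show (16 : ℕ) = 2 ^ 4 by norm_num, ← pow_mul]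
      congr 1
      ring
    calc T * J * J * 16 ^ (2 * L') ≤ J * J * J * 2 ^ (8 * L') := by rw [h16]; gcongr
      _ ≤ 2 ^ (6 * t) * 2 ^ (8 * L') := by gcongr
      _ = 2 ^ (6 * t + 8 * L') := by rw [pow_add]
      _ ≤ 2 ^ J := Nat.pow_le_pow_right (by norm_num) hexp
  obtain ⟨A, hA⟩ : ∃ A, A = n * 16 ^ (2 * L') * J / (m * 2 ^ J) := ⟨_, rfl⟩
  have hA1 : A * (m * 2 ^ J) ≤ n * 16 ^ (2 * L') * J := by
    rw [hA]
    exact Nat.div_mul_le_self _ _
  have hq : qq n J m L' = A + 1 := by rw [qq, hA]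
  have hX : 2 * T * ((8 * J + 8) * (2 * L')) ≤ T * J * m := by
    calc 2 * T * ((8 * J + 8) * (2 * L')) ≤ 2 * T * ((16 * J) * (2 * L')) := by
          gcongr
          omega
      _ = T * J * (64 * L') := by ring
      _ ≤ T * J * m := by gcongr
  have hi : 2 * T * ((8 * J + 8) * (2 * L')) * A ≤ n := by
    have h2 : 0 < 2 ^ J := by positivity
    refine Nat.le_of_mul_le_mul_right ?_ h2
    calc 2 * T * ((8 * J + 8) * (2 * L')) * A * 2 ^ J ≤ T * J * m * A * 2 ^ J := by gcongr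
      _ = T * J * (A * (m * 2 ^ J)) := by ring
      _ ≤ T * J * (n * 16 ^ (2 * L') * J) := by gcongr
      _ = n * (T * J * J * 16 ^ (2 * L')) := by ring
      _ ≤ n * 2 ^ J := by gcongr
  have hii : 2 * T * ((8 * J + 8) * (2 * L')) ≤ n := by
    calc 2 * T * ((8 * J + 8) * (2 * L')) ≤ T * J * m := hX
      _ ≤ J * J * J := by gcongr
      _ ≤ 2 ^ (6 * t) := hJ3
      _ ≤ 2 ^ (4 * J) := Nat.pow_le_pow_right (by norm_num) (by omega)
      _ ≤ n := h.hlo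
  have hmain : (8 * J + 8) * (2 * L') * qq n J m L' ≤ k := by
    have hTpos : 0 < 2 * T := by omega
    refine Nat.le_of_mul_le_mul_left ?_ hTpos
    calc 2 * T * ((8 * J + 8) * (2 * L') * qq n J m L')
        = 2 * T * ((8 * J + 8) * (2 * L')) * A + 2 * T * ((8 * J + 8) * (2 * L')) := by
          rw [hq]; ring
      _ ≤ n + n := by gcongr
      _ ≤ T * k + T * k := by
          have := h.hk1
          gcongr
      _ = 2 * T * k := by ring
  calc ((n ^ 2) ^ (qq n J m L')) ^ (2 * L') = n ^ (2 * qq n J m L' * (2 * L')) := by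
        rw [← pow_mul, ← pow_mul, mul_assoc]
    _ ≤ (2 ^ (4 * J + 4)) ^ (2 * qq n J m L' * (2 * L')) :=
        Nat.pow_le_pow_left h.hup.le _
    _ = 2 ^ ((8 * J + 8) * (2 * L') * qq n J m L') := by
        rw [← pow_mul]
        congr 1
        ring
    _ ≤ 2 ^ k := Nat.pow_le_pow_right (by norm_num) hmain

end H59.N3
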