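import Pool.Agent.H59.N3.Sz

/-! MODULE N3/P7 (40-70 lines).  `n^δ ≤ (2^(4J+4))^δ = 2^(δ (4J+4))`, `δ = 1/(2^36 T^2)`, so it is enough
that `3 + (4 J + 4) / (2^36 T^2) ≤ L'` (real numbers, `Real.rpow_natCast`, `Real.rpow_mul`,
`Real.rpow_le_rpow_of_exponent_le`).  `L' = m/64` and `m = J/(2^26 T^2)` (natural division), so
`L' > m/64 - 1` and `m > J/(2^26 T^2) - 1` as real numbers, hence `L' ≥ J/(2^32 T^2) - 2`.  With
`x = J / (2^36 T^2) ≥ 1`: `L' ≥ 16 x - 2` and `3 + (4 J + 4)/(2^36 T^2) ≤ 3 + 8 x`; and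
`3 + 8 x ≤ 16 x - 2` since `x ≥ 1` gives `8 x ≥ 8 ≥ 5`. -/

set_option autoImplicit false
namespace H59.N3

theorem P7 {T n k J m L' : ℕ} (h : Sz T n k J m L') :
    8 * (n : ℝ) ^ ((1 : ℝ) / (2 ^ 36 * (T : ℝ) ^ 2)) ≤ 2 ^ L' := by
  have hT : (1 : ℝ) ≤ (T : ℝ) ^ 2 := by
    have h1 : (1 : ℝ) ≤ (T : ℝ) := by exact_mod_cast h.hT
    nlinarith
  have hTpos : (0 : ℝ) < 2 ^ 36 * (T : ℝ) ^ 2 := by positivity
  have hJ : 2 ^ 36 * (T : ℝ) ^ 2 ≤ (J : ℝ) := by exact_mod_cast h.hJ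
  have hJ1 : (1 : ℝ) ≤ J := by
    have := h.J_large
    have h2 : 1 ≤ J := le_trans (by norm_num) this
    exact_mod_cast h2
  -- the lower bound for `L'`
  have hL : (J : ℝ) < ((L' : ℝ) + 1) * (2 ^ 32 * (T : ℝ) ^ 2) := by
    have hTn : 0 < T := h.hT
    have hpos : 0 < 2 ^ 26 * T ^ 2 := by positivity
    have h1 : J < 2 ^ 26 * T ^ 2 * (m + 1) := by
      rw [h.hm]
      exact Nat.lt_mul_div_succ J hpos
    have h2 : m < 64 * (L' + 1) := by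
      rw [h.hL]
      exact Nat.lt_mul_div_succ m (by norm_num)
    have h3 : J < (L' + 1) * (2 ^ 32 * T ^ 2) := by
      calc J < 2 ^ 26 * T ^ 2 * (m + 1) := h1
        _ ≤ 2 ^ 26 * T ^ 2 * (64 * (L' + 1)) := Nat.mul_le_mul_left _ h2
        _ = (L' + 1) * (2 ^ 32 * T ^ 2) := by ring
    exact_mod_cast h3
  have hexp : 3 + (4 * (J : ℝ) + 4) * (1 / (2 ^ 36 * (T : ℝ) ^ 2)) ≤ (L' : ℝ) := by
    have hx : (1 : ℝ) ≤ (J : ℝ) / (2 ^ 36 * (T : ℝ) ^ 2) := by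
      rw [le_div_iff₀ hTpos, one_mul]
      exact hJ
    have h1 : (4 * (J : ℝ) + 4) * (1 / (2 ^ 36 * (T : ℝ) ^ 2)) ≤
        8 * ((J : ℝ) / (2 ^ 36 * (T : ℝ) ^ 2)) := by
      rw [mul_one_div, ← mul_div_assoc]
      exact div_le_div_of_nonneg_right (by linarith) hTpos.le
    have h2 : 16 * ((J : ℝ) / (2 ^ 36 * (T : ℝ) ^ 2)) < (L' : ℝ) + 1 := by
      rw [← mul_div_assoc, div_lt_iff₀ hTpos]
      have h3 : ((L' : ℝ) + 1) * (2 ^ 36 * (T : ℝ) ^ 2) =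
          16 * (((L' : ℝ) + 1) * (2 ^ 32 * (T : ℝ) ^ 2)) := by ring
      rw [h3]
      linarith
    linarith
  have hn : (n : ℝ) ≤ (2 : ℝ) ^ ((4 * (J : ℝ) + 4)) := by
    have h1 : (n : ℝ) ≤ (2 : ℝ) ^ (4 * J + 4) := by exact_mod_cast h.hup.le
    have h2 : (2 : ℝ) ^ ((4 * (J : ℝ) + 4)) = (2 : ℝ) ^ (4 * J + 4) := by
      rw [← Real.rpow_natCast]
      push_cast
      rfl
    rw [h2]
    exact h1
  have hδ : (0 : ℝ) ≤ 1 / (2 ^ 36 * (T : ℝ) ^ 2) := by positivity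
  calc 8 * (n : ℝ) ^ ((1 : ℝ) / (2 ^ 36 * (T : ℝ) ^ 2))
      ≤ 8 * ((2 : ℝ) ^ ((4 * (J : ℝ) + 4))) ^ ((1 : ℝ) / (2 ^ 36 * (T : ℝ) ^ 2)) := by
        have := Real.rpow_le_rpow (Nat.cast_nonneg n) hn hδ
        linarith
    _ = (2 : ℝ) ^ (3 + (4 * (J : ℝ) + 4) * (1 / (2 ^ 36 * (T : ℝ) ^ 2))) := by
        rw [← Real.rpow_mul (by norm_num), Real.rpow_add (by norm_num)]
        norm_num
    _ ≤ (2 : ℝ) ^ (L' : ℝ) := Real.rpow_le_rpow_of_exponent_le (by norm_num) hexp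
    _ = 2 ^ L' := Real.rpow_natCast 2 L'

end H59.N3
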