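import Mathlib

/-! MODULE N3/P8 (15-40 lines, Mathlib only).  `k! C(N,k) = N (N-1) ... (N-k+1) ≥ (N-k+1)^k`
(`Nat.pow_sub_le_descFactorial`, `Nat.descFactorial_eq_factorial_mul_choose`) and
`2 (N - k + 1) ≥ N`. -/

set_option autoImplicit false
namespace H59.N3

theorem P8 {N k : ℕ} (h : 2 * k ≤ N) : N ^ k ≤ 2 ^ k * (k.factorial * N.choose k) := by
  rw [← Nat.descFactorial_eq_factorial_mul_choose]
  calc N ^ k ≤ (2 * (N + 1 - k)) ^ k := Nat.pow_le_pow_left (by omega) k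
    _ = 2 ^ k * (N + 1 - k) ^ k := Nat.mul_pow 2 (N + 1 - k) k
    _ ≤ 2 ^ k * N.descFactorial k := Nat.mul_le_mul_left _ (Nat.pow_sub_le_descFactorial N k)

end H59.N3
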