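import Pool.Agent.H59.N3.Count
import Pool.Agent.H59.N3.Num
import Pool.Agent.H59.N3.P3
import Pool.Agent.H59.N3.P4
import Pool.Agent.H59.N3.P5
import Pool.Agent.H59.N3.P6
import Pool.Agent.H59.N3.P7
import Pool.Agent.H59.N3.P8

/-! N3/Main (helper59).  The upper bound for all sizes. -/

set_option autoImplicit false
namespace H59.N3
open Finset

theorem Sz.par {T n k J m L' : ℕ} (h : Sz T n k J m L') :
    Par n k (2 ^ J) J m (2 * L') (qq n J m L') where
  hn := h.n_pos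
  hk := h.k_pos
  hr := Nat.one_le_two_pow
  hrn := by
    refine le_trans ?_ h.hlo
    exact Nat.pow_le_pow_right (by norm_num) (by omega)
  hJ := by
    have := h.J_large
    omega
  hm := by
    have := h.le_m
    omega
  hq := Nat.succ_pos _
  c3 := P3 h
  c4 := P4 h
  c5 := P5 h

open Classical in
theorem main_sz {T n k J m L' : ℕ} (h : Sz T n k J m L') :
    (numNT n k : ℝ) ≤
      Real.exp (-((k : ℝ) / (2 ^ 36 * (T : ℝ) ^ 2) * Real.log n)) * ((n ^ 2).choose k : ℝ) := by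
  have hn := h.n_pos
  have hn0 : (0 : ℝ) < n := by exact_mod_cast hn
  have h1 : (numNT n k : ℝ) ≤ (((n : ℝ) ^ 2) ^ (qq n J m L')) ^ (2 * L') *
      (2 ^ k * ((n : ℝ) ^ 2) ^ k / (k.factorial * (2 ^ L') ^ k)) := count_le h.par
  have h6 : (((n : ℝ) ^ 2) ^ (qq n J m L')) ^ (2 * L') ≤ 2 ^ k := by
    have := P6 h
    exact_mod_cast this
  have h8 : ((n : ℝ) ^ 2) ^ k ≤ 2 ^ k * (k.factorial * ((n ^ 2).choose k : ℝ)) := by
    have hk : 2 * k ≤ n ^ 2 := by
      have hk2 := h.hk2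
      have hJ := h.J_large
      have h4 : 2 ^ 2 ≤ n := by
        refine le_trans (Nat.pow_le_pow_right (by norm_num) ?_) h.hlo
        omega
      nlinarith
    have := P8 hk
    exact_mod_cast this
  have h7 := P7 h
  set δ : ℝ := (1 : ℝ) / (2 ^ 36 * (T : ℝ) ^ 2) with hδ
  set C : ℝ := ((n ^ 2).choose k : ℝ) with hC
  have hC0 : 0 ≤ C := by positivity
  have hf : (0 : ℝ) < k.factorial := by exact_mod_cast Nat.factorial_pos _
  have hL0 : (0 : ℝ) < 2 ^ L' := by positivity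
  have h2 : (numNT n k : ℝ) ≤ (8 / 2 ^ L') ^ k * C := by
    refine h1.trans ?_
    calc (((n : ℝ) ^ 2) ^ (qq n J m L')) ^ (2 * L') *
          (2 ^ k * ((n : ℝ) ^ 2) ^ k / (k.factorial * (2 ^ L') ^ k))
        ≤ 2 ^ k * (2 ^ k * (2 ^ k * (k.factorial * C)) / (k.factorial * (2 ^ L') ^ k)) := by
          gcongr
      _ = (8 / 2 ^ L') ^ k * C := by
          rw [div_pow, show (8 : ℝ) = 2 * 2 * 2 by norm_num, mul_pow, mul_pow]
          field_simp
  have h3 : (8 : ℝ) / 2 ^ L' ≤ Real.exp (-(δ * Real.log n)) := by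
    rw [Real.rpow_def_of_pos hn0] at h7
    rw [Real.exp_neg, div_le_iff₀ hL0, inv_mul_eq_div, le_div_iff₀ (Real.exp_pos _)]
    rwa [mul_comm δ]
  refine h2.trans ?_
  refine mul_le_mul_of_nonneg_right ?_ hC0
  calc ((8 : ℝ) / 2 ^ L') ^ k ≤ (Real.exp (-(δ * Real.log n))) ^ k := by
        gcongr
    _ = Real.exp (-((k : ℝ) / (2 ^ 36 * (T : ℝ) ^ 2) * Real.log n)) := by
        rw [← Real.exp_nat_mul]
        congr 1
        rw [hδ]
        ring

open Classical in
theorem numNT_le (n k : ℕ) : numNT n k ≤ (n ^ 2).choose k := by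
  unfold numNT
  refine (card_filter_le _ _).trans ?_
  rw [card_powersetCard, card_univ, Fintype.card_prod, Fintype.card_fin, pow_two]

open Classical in
theorem numNT_eq_zero {n k : ℕ} (h : 2 * n < k) : numNT n k = 0 := by
  unfold numNT
  rw [card_eq_zero, filter_eq_empty_iff]
  intro S hS hN
  rw [mem_powersetCard] at hS
  have := card_le_two_mul hN
  omega

theorem main_A {n : ℕ} (hn : 1 ≤ n) (k : ℕ) :
    (numNT n k : ℝ) ≤
      Real.exp (4 * k - (k : ℝ) ^ 3 * Real.log n / (2 ^ 40 * (n : ℝ) ^ 2)) *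
        ((n ^ 2).choose k : ℝ) := by
  have hn0 : (0 : ℝ) < n := by exact_mod_cast hn
  have hlog : 0 ≤ Real.log n := Real.log_nonneg (by exact_mod_cast hn)
  have htriv : (numNT n k : ℝ) ≤ ((n ^ 2).choose k : ℝ) := by exact_mod_cast numNT_le n k
  have hC0 : (0 : ℝ) ≤ ((n ^ 2).choose k : ℝ) := by positivity
  -- it is enough to bound the exponent
  have key : (k : ℝ) ^ 3 * Real.log n / (2 ^ 40 * (n : ℝ) ^ 2) ≤ 4 * k →
      (numNT n k : ℝ) ≤
      Real.exp (4 * k - (k : ℝ) ^ 3 * Real.log n / (2 ^ 40 * (n : ℝ) ^ 2)) *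
        ((n ^ 2).choose k : ℝ) := by
    intro h
    refine htriv.trans ?_
    have : (1 : ℝ) ≤ Real.exp (4 * k - (k : ℝ) ^ 3 * Real.log n / (2 ^ 40 * (n : ℝ) ^ 2)) :=
      Real.one_le_exp (by linarith)
    nlinarith
  rcases Nat.eq_zero_or_pos k with hk0 | hk
  · refine key ?_
    rw [hk0]
    simp
  by_cases hk2 : k ≤ 2 * n
  swap
  · rw [numNT_eq_zero (by omega)]
    push_cast
    positivity
  have hkR : (0 : ℝ) < k := by exact_mod_cast hk
  have hk2R : (k : ℝ) ≤ 2 * n := by exact_mod_cast hk2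
  set T := n / k + 1 with hT
  have hTn : n ≤ T * k := by
    rw [hT]
    have := Nat.lt_div_mul_add (a := n) hk
    have e : (n / k + 1) * k = n / k * k + k := by ring
    omega
  have hT3 : (T : ℝ) * k ≤ 3 * n := by
    have h1 : n / k * k ≤ n := Nat.div_mul_le_self n k
    have h2 : T * k ≤ n + k := by
      rw [hT]
      have e : (n / k + 1) * k = n / k * k + k := by ring
      omega
    have h3 : T * k ≤ 3 * n := by omega
    exact_mod_cast h3
  have hT0 : (0 : ℝ) < T := by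
    rw [hT]
    positivity
  set J := Nat.log 2 n / 4 with hJ
  have hlo : 2 ^ (4 * J) ≤ n := by
    refine le_trans (Nat.pow_le_pow_right (by norm_num) ?_) (Nat.pow_log_le_self 2 (by omega))
    omega
  have hup : n < 2 ^ (4 * J + 4) := by
    refine lt_of_lt_of_le (Nat.lt_pow_succ_log_self (b := 2) (by norm_num) n) ?_
    refine Nat.pow_le_pow_right (by norm_num) ?_
    omega
  by_cases hcase : 2 ^ 36 * T ^ 2 ≤ J
  · have hS : Sz T n k J (J / (2 ^ 26 * T ^ 2)) (J / (2 ^ 26 * T ^ 2) / 64) :=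
      ⟨Nat.le_add_left 1 (n / k), hcase, hlo, hup, hTn, hk2, rfl, rfl⟩
    refine (main_sz hS).trans ?_
    refine mul_le_mul_of_nonneg_right (Real.exp_le_exp.2 ?_) hC0
    have h1 : (k : ℝ) ^ 3 * Real.log n / (2 ^ 40 * (n : ℝ) ^ 2) ≤
        (k : ℝ) / (2 ^ 36 * (T : ℝ) ^ 2) * Real.log n := by
      rw [div_mul_eq_mul_div, div_le_div_iff₀ (by positivity) (by positivity)]
      have h2 : (T : ℝ) ^ 2 * (k : ℝ) ^ 2 ≤ 9 * (n : ℝ) ^ 2 := by
        have := mul_self_le_mul_self (by positivity) hT3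
        nlinarith
      have h3 : 0 ≤ (k : ℝ) * Real.log n := by positivity
      nlinarith [mul_le_mul_of_nonneg_left h2 h3]
    have : (0 : ℝ) ≤ 4 * k := by positivity
    linarith
  · refine key ?_
    push Not at hcase
    have h1 : Real.log n ≤ 4 * (J + 1) := by
      have h2 : (n : ℝ) ≤ 2 ^ (4 * J + 4) := by exact_mod_cast hup.le
      calc Real.log n ≤ Real.log (2 ^ (4 * J + 4)) := Real.log_le_log hn0 h2
        _ = (4 * J + 4 : ℕ) * Real.log 2 := by rw [Real.log_pow]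
        _ ≤ (4 * J + 4 : ℕ) * 1 := by
          have := Real.log_two_lt_d9
          gcongr
          linarith
        _ = 4 * (J + 1) := by
          push_cast
          ring
    have h3 : (J : ℝ) + 1 ≤ 2 ^ 36 * (T : ℝ) ^ 2 := by exact_mod_cast hcase
    rw [div_le_iff₀ (by positivity)]
    have h4 : (T : ℝ) ^ 2 * (k : ℝ) ^ 2 ≤ 9 * (n : ℝ) ^ 2 := by
      have := mul_self_le_mul_self (by positivity) hT3
      nlinarith
    have h5 : (k : ℝ) ^ 2 * Real.log n ≤ 2 ^ 38 * (9 * (n : ℝ) ^ 2) := by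
      calc (k : ℝ) ^ 2 * Real.log n ≤ (k : ℝ) ^ 2 * (4 * (2 ^ 36 * (T : ℝ) ^ 2)) := by
            gcongr
            linarith
        _ = 2 ^ 38 * ((T : ℝ) ^ 2 * (k : ℝ) ^ 2) := by ring
        _ ≤ 2 ^ 38 * (9 * (n : ℝ) ^ 2) := by gcongr
    calc (k : ℝ) ^ 3 * Real.log n = k * ((k : ℝ) ^ 2 * Real.log n) := by ring
      _ ≤ k * (2 ^ 38 * (9 * (n : ℝ) ^ 2)) := by gcongr
      _ ≤ 4 * k * (2 ^ 40 * (n : ℝ) ^ 2) := by
        have : (0 : ℝ) ≤ k * (n : ℝ) ^ 2 := by positivity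
        nlinarith

end H59.N3
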