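import Pool.Agent.H59.N3.Geo

/-! MODULE N3/NoTh (60-120 lines).  Consequences of `NoThree`.

* `card_class_le`: three distinct elements of a class would be collinear by `det_of_lin`
  (`Finset.two_lt_card`).  Members of `Dir A B` have positive first entry.
* `subset_Unc`: for `c ∈ S` and a direction `d` two distinct elements `v ≠ c` of `F ⊆ S` on the
  `d`-line through `c` would give three elements of `S` on that line
  (`Finset.one_lt_card`, `card_class_le` or `det_of_lin`).
* `M_eq_zero`: the same with `F = S`: the filter in the definition of `M` is empty.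
* `card_le_two_mul`: each row `{v ∈ S | v.1 = i}` has at most two elements (three cells with the same
  first coordinate have `det = 0`); `Finset.card_le_mul_card_image` or
  `Finset.card_eq_sum_card_fiberwise`. -/

set_option autoImplicit false
namespace H59.N3
open Finset

private theorem fst_pos {A B : ℕ} {d : ℕ × ℕ} (hd : d ∈ Dir A B) : 0 < d.1 := by
  unfold Dir at hd
  rw [mem_filter, mem_product, mem_Ioc] at hd
  omega

private theorem three_on_line {n : ℕ} {S : Finset (Cell n)} (hS : NoThree S) {d : ℕ × ℕ}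
    (hd : 0 < d.1) {p q r : Cell n} (hp : p ∈ S) (hq : q ∈ S) (hr : r ∈ S) (hpq : p ≠ q)
    (hpr : p ≠ r) (hqr : q ≠ r) (h1 : Lin d p = Lin d q) (h2 : Lin d p = Lin d r) : False :=
  hS p hp q hq r hr hpq hpr hqr (det_of_lin hd h1 h2)

theorem card_class_le {n A B : ℕ} {S : Finset (Cell n)} (hS : NoThree S) {d : ℕ × ℕ}
    (hd : d ∈ Dir A B) (r : ℤ) : (S.filter (fun v => Lin d v = r)).card ≤ 2 := by
  by_contra hcon
  rw [not_le, Finset.two_lt_card] at hcon
  obtain ⟨a, ha, b, hb, c, hc, hab, hac, hbc⟩ := hcon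
  rw [mem_filter] at ha hb hc
  exact three_on_line hS (fst_pos hd) ha.1 hb.1 hc.1 hab hac hbc (ha.2.trans hb.2.symm)
    (ha.2.trans hc.2.symm)

private theorem line_through {n A B : ℕ} {S F : Finset (Cell n)} (hS : NoThree S) (hF : F ⊆ S)
    {c : Cell n} (hc : c ∈ S) {d : ℕ × ℕ} (hd : d ∈ Dir A B) (T : Finset (Cell n))
    (hT : ∀ v ∈ T, v ∈ F ∧ v ≠ c ∧ Lin d v = Lin d c) : T.card ≤ 1 := by
  by_contra hcon
  rw [not_le, Finset.one_lt_card] at hcon
  obtain ⟨a, ha, b, hb, hab⟩ := hcon
  obtain ⟨ha1, ha2, ha3⟩ := hT a ha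
  obtain ⟨hb1, hb2, hb3⟩ := hT b hb
  exact three_on_line hS (fst_pos hd) hc (hF ha1) (hF hb1) (Ne.symm ha2) (Ne.symm hb2) hab
    ha3.symm hb3.symm

theorem subset_Unc {n A B : ℕ} {S F : Finset (Cell n)} (hS : NoThree S) (hF : F ⊆ S) :
    S ⊆ Unc (Dir A B) F := by
  intro c hc
  unfold Unc
  rw [mem_filter]
  refine ⟨mem_univ _, fun d hd => ?_⟩
  exact line_through hS hF hc hd _ (fun v hv => by
    rw [mem_filter] at hv
    exact hv)

theorem M_eq_zero {n A B : ℕ} {S : Finset (Cell n)} (hS : NoThree S) {c : Cell n} (hc : c ∈ S) :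
    M (Dir A B) S c = 0 := by
  unfold M
  rw [card_eq_zero, filter_eq_empty_iff]
  intro d hd
  have h := line_through hS (Finset.Subset.refl S) hc hd
    (S.filter (fun v => v ≠ c ∧ Lin d v = Lin d c)) (fun v hv => by
      rw [mem_filter] at hv
      exact hv)
  omega

theorem card_le_two_mul {n : ℕ} {S : Finset (Cell n)} (hS : NoThree S) : S.card ≤ 2 * n := by
  have h1 : S.card = ∑ i ∈ (univ : Finset (Fin n)), (S.filter (fun v => v.1 = i)).card :=
    card_eq_sum_card_fiberwise (fun v _ => mem_univ _)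
  have h2 : ∀ i ∈ (univ : Finset (Fin n)), (S.filter (fun v => v.1 = i)).card ≤ 2 := by
    intro i _
    by_contra hcon
    rw [not_le, Finset.two_lt_card] at hcon
    obtain ⟨a, ha, b, hb, c, hc, hab, hac, hbc⟩ := hcon
    rw [mem_filter] at ha hb hc
    refine hS a ha.1 b hb.1 c hc.1 hab hac hbc ?_
    unfold det
    rw [ha.2, hb.2, hc.2]
    ring
  rw [h1]
  refine (sum_le_sum h2).trans ?_
  rw [sum_const, smul_eq_mul, card_univ, Fintype.card_fin]
  omega

end H59.N3
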