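import Pool.Agent.H59.N3.Num

/-! N3/Prb (helper59).  The subsets of the parabola modulo a prime (Erdős). -/

set_option autoImplicit false
namespace H59.N3
open Finset

/-- the cell `(x, x^2 mod p)` -/
def pcell (n p : ℕ) (hp : 0 < p) (hpn : p ≤ n) (x : Fin p) : Cell n :=
  (⟨x, lt_of_lt_of_le x.2 hpn⟩, ⟨(x : ℕ) ^ 2 % p, lt_of_lt_of_le (Nat.mod_lt _ hp) hpn⟩)

theorem pcell_injective {n p : ℕ} (hp : 0 < p) (hpn : p ≤ n) :
    Function.Injective (pcell n p hp hpn) := by
  intro x y h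
  have h1 := congrArg (fun c : Cell n => (c.1 : ℕ)) h
  exact Fin.ext h1

theorem det_pcell {n p : ℕ} (hp : p.Prime) (hpn : p ≤ n) {x y z : Fin p}
    (hxy : x ≠ y) (hxz : x ≠ z) (hyz : y ≠ z) :
    det (pcell n p hp.pos hpn x) (pcell n p hp.pos hpn y) (pcell n p hp.pos hpn z) ≠ 0 := by
  intro h
  have hinj : Function.Injective (fun x : Fin p => ((x : ℕ) : ZMod p)) := by
    intro a b hab
    have h1 : ((a : ℕ) : ZMod p) = ((b : ℕ) : ZMod p) := hab
    rw [ZMod.natCast_eq_natCast_iff'] at h1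
    rw [Nat.mod_eq_of_lt a.2, Nat.mod_eq_of_lt b.2] at h1
    exact Fin.ext h1
  have : Fact p.Prime := ⟨hp⟩
  have h2 : ((det (pcell n p hp.pos hpn x) (pcell n p hp.pos hpn y)
      (pcell n p hp.pos hpn z) : ℤ) : ZMod p) = 0 := by
    rw [h]
    simp
  unfold det pcell at h2
  push_cast at h2
  have h3 : (((y : ℕ) : ZMod p) - ((x : ℕ) : ZMod p)) * (((z : ℕ) : ZMod p) - ((x : ℕ) : ZMod p)) *
      (((z : ℕ) : ZMod p) - ((y : ℕ) : ZMod p)) = 0 := by
    rw [← h2]
    ring
  rcases mul_eq_zero.1 h3 with h4 | h4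
  · rcases mul_eq_zero.1 h4 with h5 | h5
    · exact hxy (hinj (sub_eq_zero.1 h5)).symm
    · exact hxz (hinj (sub_eq_zero.1 h5)).symm
  · exact hyz (hinj (sub_eq_zero.1 h4)).symm

open Classical in
theorem choose_le_numNT {n p : ℕ} (hp : p.Prime) (hpn : p ≤ n) (k : ℕ) :
    p.choose k ≤ numNT n k := by
  unfold numNT
  have e : p.choose k = ((univ : Finset (Fin p)).powersetCard k).card := by
    rw [card_powersetCard, card_univ, Fintype.card_fin]
  rw [e]
  refine card_le_card_of_injOn (fun X => X.map ⟨pcell n p hp.pos hpn, pcell_injective hp.pos hpn⟩)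
    ?_ ?_
  · intro X hX
    rw [mem_coe, mem_powersetCard] at hX
    rw [mem_coe, mem_filter, mem_powersetCard]
    refine ⟨⟨subset_univ _, by rw [card_map, hX.2]⟩, ?_⟩
    intro a ha b hb c hc hab hac hbc
    rw [mem_map] at ha hb hc
    obtain ⟨x, _, rfl⟩ := ha
    obtain ⟨y, _, rfl⟩ := hb
    obtain ⟨z, _, rfl⟩ := hc
    refine det_pcell hp hpn ?_ ?_ ?_
    · rintro rfl
      exact hab rfl
    · rintro rfl
      exact hac rfl
    · rintro rfl
      exact hbc rfl
  · intro X _ Y _ h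
    exact Finset.map_injective _ h

theorem parabola_lower {n k : ℕ} (hk : 4 * k ≤ n) :
    ((n ^ 2).choose k : ℝ) ≤ (4 * (n : ℝ)) ^ k * numNT n k := by
  rcases Nat.eq_zero_or_pos k with hk0 | hk0
  · subst hk0
    have h : 1 ≤ numNT n 0 := by
      classical
      unfold numNT
      rw [Nat.one_le_iff_ne_zero, ← Nat.pos_iff_ne_zero, card_pos]
      refine ⟨∅, ?_⟩
      rw [mem_filter, mem_powersetCard]
      refine ⟨⟨empty_subset _, rfl⟩, ?_⟩
      intro p hp
      simp at hp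
    have h' : (1 : ℝ) ≤ numNT n 0 := by exact_mod_cast h
    simpa using h'
  · obtain ⟨p, hp, h1, h2⟩ := Nat.exists_prime_lt_and_le_two_mul (n / 2) (by omega)
    have hpn : p ≤ n := by omega
    have hnp : n ≤ 2 * p := by omega
    have h3 : (p.choose k : ℝ) ≤ numNT n k := by exact_mod_cast choose_le_numNT hp hpn k
    have hf : (0 : ℝ) < k.factorial := by exact_mod_cast Nat.factorial_pos _
    have h4 : ((p + 1 - k : ℕ) : ℝ) ^ k / k.factorial ≤ p.choose k := by
      have := Nat.pow_le_choose (α := ℝ) k p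
      exact_mod_cast this
    have h5 : (n : ℝ) / 4 ≤ ((p + 1 - k : ℕ) : ℝ) := by
      have : n ≤ 4 * (p + 1 - k) := by omega
      have h6 : (n : ℝ) ≤ 4 * ((p + 1 - k : ℕ) : ℝ) := by exact_mod_cast this
      linarith
    have h6 : ((n ^ 2).choose k : ℝ) ≤ ((n : ℝ) ^ 2) ^ k / k.factorial := by
      have := Nat.choose_le_pow_div (α := ℝ) k (n ^ 2)
      exact_mod_cast this
    have h7 : ((n : ℝ) / 4) ^ k / k.factorial ≤ numNT n k := by
      refine le_trans ?_ (h4.trans h3)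
      gcongr
    calc ((n ^ 2).choose k : ℝ) ≤ ((n : ℝ) ^ 2) ^ k / k.factorial := h6
      _ = (4 * (n : ℝ)) ^ k * (((n : ℝ) / 4) ^ k / k.factorial) := by
          rw [mul_div_assoc', ← mul_pow]
          congr 2
          ring
      _ ≤ (4 * (n : ℝ)) ^ k * numNT n k := by gcongr

end H59.N3
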