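import Pool.Agent.H59.N3.Num
import Pool.Agent.H59.N3.ChS

/-! MODULE N3/RandA (25-50 lines).  Union bound: the `m`-sets `V` which contain a `k`-set `S` without
three in line are covered by the sets `{V | S ⊆ V}`, `S` ranging over the `numNT n k` sets; each of
them satisfies `card_super_le` (`Fintype.card (Cell n) = n^2`). -/

set_option autoImplicit false
namespace H59.N3
open Finset

open Classical in
theorem rand_union (n k m : ℕ) :
    (n ^ 2) ^ k * (((univ : Finset (Cell n)).powersetCard m).filter
      (fun V => ∃ S ⊆ V, S.card = k ∧ NoThree S)).card ≤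
      numNT n k * (m ^ k * (n ^ 2).choose m) := by
  have hN : Fintype.card (Cell n) = n ^ 2 := by
    simp [Cell, sq]
  set T : Finset (Finset (Cell n)) :=
    ((univ : Finset (Cell n)).powersetCard k).filter (fun S => NoThree S) with hT
  have hsub : ((univ : Finset (Cell n)).powersetCard m).filter
      (fun V => ∃ S ⊆ V, S.card = k ∧ NoThree S) ⊆
      T.biUnion (fun S => ((univ : Finset (Cell n)).powersetCard m).filter (fun V => S ⊆ V)) := by
    intro V hV
    rw [mem_filter] at hV
    obtain ⟨hV1, S, hSV, hSk, hS3⟩ := hV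
    rw [mem_biUnion]
    refine ⟨S, ?_, ?_⟩
    · rw [hT, mem_filter, mem_powersetCard]
      exact ⟨⟨subset_univ _, hSk⟩, hS3⟩
    · rw [mem_filter]
      exact ⟨hV1, hSV⟩
  have h1 := (card_le_card hsub).trans card_biUnion_le
  calc (n ^ 2) ^ k * (((univ : Finset (Cell n)).powersetCard m).filter
        (fun V => ∃ S ⊆ V, S.card = k ∧ NoThree S)).card
      ≤ (n ^ 2) ^ k * ∑ S ∈ T,
        (((univ : Finset (Cell n)).powersetCard m).filter (fun V => S ⊆ V)).card :=
        Nat.mul_le_mul le_rfl h1
    _ = ∑ S ∈ T, (n ^ 2) ^ k *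
        (((univ : Finset (Cell n)).powersetCard m).filter (fun V => S ⊆ V)).card := by
        rw [mul_sum]
    _ ≤ ∑ S ∈ T, (m ^ k * (n ^ 2).choose m) := by
        refine sum_le_sum (fun S hS => ?_)
        rw [hT, mem_filter, mem_powersetCard] at hS
        have h2 := card_super_le S m
        rw [hS.1.2, hN] at h2
        exact h2
    _ = numNT n k * (m ^ k * (n ^ 2).choose m) := by
        rw [sum_const, smul_eq_mul]
        rfl

end H59.N3
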