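import Pool.Agent.H59.N3.RandA

/-! MODULE N3/RandB (50-90 lines).  `rand_union` and the hypothesis `hA` (the main theorem) give, with
`N = n^2`, `C(N, k) ≤ N^k / k! ≤ N^k (e / k)^k` (`Nat.choose_le_pow_div`; `k^k / k! ≤ e^k` is
`Real.pow_div_factorial_le_exp` at `x = k`):
number `≤ exp (4 k - k^3 log n / (2^40 n^2)) (e m / k)^k C(N, m)`, and by `hm`
`(m / k)^k ≤ exp (-6 k) * (n^(k^2/(2^40 n^2)))^k = exp (-6 k + k^3 log n / (2^40 n^2))`
(`Real.rpow_def_of_pos`).  Together `exp (4 k + k - 6 k) = exp (-k)`. -/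

set_option autoImplicit false
namespace H59.N3
open Finset

open Classical in
theorem rand_bound {n k m : ℕ} (hn : 1 ≤ n) (hk : 1 ≤ k)
    (hA : (numNT n k : ℝ) ≤
      Real.exp (4 * k - (k : ℝ) ^ 3 * Real.log n / (2 ^ 40 * (n : ℝ) ^ 2)) * ((n ^ 2).choose k : ℝ))
    (hm : (m : ℝ) ≤ k * Real.exp (-6) * (n : ℝ) ^ ((k : ℝ) ^ 2 / (2 ^ 40 * (n : ℝ) ^ 2))) :
    ((((univ : Finset (Cell n)).powersetCard m).filter
      (fun V => ∃ S ⊆ V, S.card = k ∧ NoThree S)).card : ℝ) ≤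
      Real.exp (-(k : ℝ)) * ((n ^ 2).choose m : ℝ) := by
  have hn0 : (0 : ℝ) < n := by exact_mod_cast hn
  have hU := rand_union n k m
  generalize hX : (((univ : Finset (Cell n)).powersetCard m).filter
      (fun V => ∃ S ⊆ V, S.card = k ∧ NoThree S)).card = X at hU ⊢
  have hU' : ((n : ℝ) ^ 2) ^ k * X ≤ numNT n k * ((m : ℝ) ^ k * ((n ^ 2).choose m : ℝ)) := by
    exact_mod_cast hU
  have hC : ((n ^ 2).choose k : ℝ) ≤ ((n : ℝ) ^ 2) ^ k / (k.factorial : ℝ) := by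
    have := Nat.choose_le_pow_div (α := ℝ) k (n ^ 2)
    push_cast at this
    exact this
  generalize hE : (k : ℝ) ^ 3 * Real.log n / (2 ^ 40 * (n : ℝ) ^ 2) = E at hA
  have hmk : (m : ℝ) ^ k ≤ (k : ℝ) ^ k * Real.exp (-6 * k) * Real.exp E := by
    have h1 := pow_le_pow_left₀ (Nat.cast_nonneg m) hm k
    refine h1.trans (le_of_eq ?_)
    rw [mul_pow, mul_pow, ← Real.exp_nat_mul, Real.rpow_def_of_pos hn0, ← Real.exp_nat_mul]
    congr 2
    · congr 1
      ring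
    · rw [← hE]
      ring
  have hkf : (k : ℝ) ^ k / (k.factorial : ℝ) ≤ Real.exp k :=
    Real.pow_div_factorial_le_exp (k : ℝ) (Nat.cast_nonneg k) k
  have hf : (0 : ℝ) < (k.factorial : ℝ) := by exact_mod_cast Nat.factorial_pos k
  have hNk : (0 : ℝ) < ((n : ℝ) ^ 2) ^ k := by positivity
  have hCm : (0 : ℝ) ≤ ((n ^ 2).choose m : ℝ) := Nat.cast_nonneg _
  have hA' : (numNT n k : ℝ) ≤ Real.exp (4 * k - E) * (((n : ℝ) ^ 2) ^ k / (k.factorial : ℝ)) :=
    hA.trans (mul_le_mul_of_nonneg_left hC (Real.exp_pos _).le)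
  have key : ((n : ℝ) ^ 2) ^ k * X ≤
      ((n : ℝ) ^ 2) ^ k * (Real.exp (-(k : ℝ)) * ((n ^ 2).choose m : ℝ)) := by
    calc ((n : ℝ) ^ 2) ^ k * X ≤ numNT n k * ((m : ℝ) ^ k * ((n ^ 2).choose m : ℝ)) := hU'
      _ ≤ (Real.exp (4 * k - E) * (((n : ℝ) ^ 2) ^ k / (k.factorial : ℝ))) *
          (((k : ℝ) ^ k * Real.exp (-6 * k) * Real.exp E) * ((n ^ 2).choose m : ℝ)) := by
        refine mul_le_mul hA' (mul_le_mul_of_nonneg_right hmk hCm) (by positivity) (by positivity)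
      _ = ((n : ℝ) ^ 2) ^ k * ((Real.exp (4 * k - E) * Real.exp (-6 * k) * Real.exp E *
          ((k : ℝ) ^ k / (k.factorial : ℝ))) * ((n ^ 2).choose m : ℝ)) := by
        field_simp
      _ ≤ ((n : ℝ) ^ 2) ^ k * ((Real.exp (4 * k - E) * Real.exp (-6 * k) * Real.exp E *
          Real.exp k) * ((n ^ 2).choose m : ℝ)) := by
        refine mul_le_mul_of_nonneg_left (mul_le_mul_of_nonneg_right
          (mul_le_mul_of_nonneg_left hkf (by positivity)) hCm) hNk.le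
      _ = ((n : ℝ) ^ 2) ^ k * (Real.exp (-(k : ℝ)) * ((n ^ 2).choose m : ℝ)) := by
        rw [← Real.exp_add, ← Real.exp_add, ← Real.exp_add]
        congr 3
        ring
  exact le_of_mul_le_mul_left key hNk

end H59.N3
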