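import Pool.Agent.H59.N3.Num

/-! MODULE N3/Sol (40-80 lines).  The number of solutions (`k = 2 n`).

`hA` is the main theorem for `k = 2 n`: `k^3 / n^2 = 8 n`, so the exponential is
`exp (8 n) * n^(-n/2^37)` (`Real.rpow_def_of_pos`, `8 / 2^40 = 1/2^37`).  Further
`C(n^2, 2n) ≤ (n^2)^(2n) / (2n)!` (`Nat.choose_le_pow_div`), `(2n)^(2n) / (2n)! ≤ exp (2n)`
(`Real.pow_div_factorial_le_exp`), so `C(n^2, 2n) ≤ (n^2 / (2 n))^(2n) exp (2n) = (n^2/4)^n exp (2n)`,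
and `C(n, 2) = n (n-1) / 2 ≥ n^2 / 4` for `n ≥ 2` (`Nat.choose_two_right`). -/

set_option autoImplicit false
namespace H59.N3
open Finset

theorem solutions {n : ℕ} (hn : 2 ≤ n)
    (hA : (numNT n (2 * n) : ℝ) ≤
      Real.exp (4 * ((2 * n : ℕ) : ℝ) - ((2 * n : ℕ) : ℝ) ^ 3 * Real.log n / (2 ^ 40 * (n : ℝ) ^ 2)) *
        ((n ^ 2).choose (2 * n) : ℝ)) :
    (numNT n (2 * n) : ℝ) ≤
      Real.exp (10 * n) * (n : ℝ) ^ (-((n : ℝ) / 2 ^ 37)) * ((n.choose 2 : ℕ) : ℝ) ^ n := by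
  have hn0 : (0 : ℝ) < n := by
    have : 0 < n := by omega
    exact_mod_cast this
  have hn2 : (2 : ℝ) ≤ n := by exact_mod_cast hn
  have h1 : Real.exp (4 * ((2 * n : ℕ) : ℝ) -
      ((2 * n : ℕ) : ℝ) ^ 3 * Real.log n / (2 ^ 40 * (n : ℝ) ^ 2)) =
      Real.exp (8 * n) * (n : ℝ) ^ (-((n : ℝ) / 2 ^ 37)) := by
    rw [Real.rpow_def_of_pos hn0, ← Real.exp_add]
    congr 1
    push_cast
    field_simp
    ring
  have h2 : ((n ^ 2).choose (2 * n) : ℝ) ≤ Real.exp (2 * n) * ((n.choose 2 : ℕ) : ℝ) ^ n := by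
    have a1 : ((n ^ 2).choose (2 * n) : ℝ) ≤ ((n ^ 2 : ℕ) : ℝ) ^ (2 * n) / ((2 * n).factorial : ℝ) :=
      Nat.choose_le_pow_div (2 * n) (n ^ 2)
    have a2 : ((2 * n : ℝ)) ^ (2 * n) / ((2 * n).factorial : ℝ) ≤ Real.exp (2 * n) :=
      Real.pow_div_factorial_le_exp (2 * n : ℝ) (by positivity) (2 * n)
    have a3 : ((n ^ 2 : ℕ) : ℝ) ^ (2 * n) = ((n : ℝ) ^ 2 / 4) ^ n * (2 * n : ℝ) ^ (2 * n) := by
      push_cast
      rw [pow_mul (2 * (n : ℝ)) 2 n, ← mul_pow, pow_mul ((n : ℝ) ^ 2) 2 n]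
      congr 1
      ring
    have a4 : (n : ℝ) ^ 2 / 4 ≤ ((n.choose 2 : ℕ) : ℝ) := by
      rw [Nat.cast_choose_two]
      nlinarith
    calc ((n ^ 2).choose (2 * n) : ℝ) ≤ ((n ^ 2 : ℕ) : ℝ) ^ (2 * n) / ((2 * n).factorial : ℝ) := a1
      _ = ((n : ℝ) ^ 2 / 4) ^ n * ((2 * n : ℝ) ^ (2 * n) / ((2 * n).factorial : ℝ)) := by
          rw [a3, mul_div_assoc]
      _ ≤ ((n.choose 2 : ℕ) : ℝ) ^ n * Real.exp (2 * n) := by
          refine mul_le_mul (pow_le_pow_left₀ (by positivity) a4 n) a2 (by positivity)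
            (by positivity)
      _ = Real.exp (2 * n) * ((n.choose 2 : ℕ) : ℝ) ^ n := mul_comm _ _
  rw [h1] at hA
  have h3 : (0 : ℝ) ≤ Real.exp (8 * n) * (n : ℝ) ^ (-((n : ℝ) / 2 ^ 37)) := by positivity
  calc (numNT n (2 * n) : ℝ)
      ≤ Real.exp (8 * n) * (n : ℝ) ^ (-((n : ℝ) / 2 ^ 37)) * ((n ^ 2).choose (2 * n) : ℝ) := hA
    _ ≤ Real.exp (8 * n) * (n : ℝ) ^ (-((n : ℝ) / 2 ^ 37)) *
        (Real.exp (2 * n) * ((n.choose 2 : ℕ) : ℝ) ^ n) := mul_le_mul_of_nonneg_left h2 h3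
    _ = (Real.exp (8 * n) * Real.exp (2 * n)) * (n : ℝ) ^ (-((n : ℝ) / 2 ^ 37)) *
        ((n.choose 2 : ℕ) : ℝ) ^ n := by ring
    _ = Real.exp (10 * n) * (n : ℝ) ^ (-((n : ℝ) / 2 ^ 37)) * ((n.choose 2 : ℕ) : ℝ) ^ n := by
        rw [← Real.exp_add]
        congr 3
        ring

end H59.N3
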