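import Pool.Agent.H59.N3.Defs

/-! MODULE N3/Tot (80-150 lines).  Sum of `1/a^2` over the primitive directions.

Step 1: `∑ a ∈ Icc 1 N, φ(a) * (N / a) = N (N + 1) / 2` (natural division `N / a`): the left side is
`∑ a ∈ Icc 1 N, φ(a) * #{m ∈ Icc 1 N | a ∣ m} = ∑ m ∈ Icc 1 N, ∑ a ∣ m, φ(a) = ∑ m ∈ Icc 1 N, m`
(`Nat.sum_totient`, `Nat.Ioc_filter_dvd_card_eq_div`).  Since `N / a ≤ N / a` (real division) this
gives `∑ a ∈ Icc 1 N, φ(a)/a ≥ (N + 1)/2 ≥ N/2`.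
Step 2: `∑ a ∈ Icc 1 x, φ(a)/a ≤ x`.  With `N = 4 x`:
`∑ a ∈ Ioc x (4x), φ(a)/a ≥ 2 x - x = x`, hence `∑ a ∈ Ioc x (4x), φ(a)/a^2 ≥ x / (4 x) = 1/4`
(`x ≥ 1`).
Step 3: add the blocks `x = 4^j r`, `j < J` (induction on `J`,
`Ioc r (4^(J+1) r) = Ioc r (4^J r) ∪ Ioc (4^J r) (4^(J+1) r)`, `Finset.sum_Ioc_consecutive`).
Step 4: the number of `d ∈ Dir r (4^J r)` with `d.1 = a` (`r < a ≤ 4^J r`) is `φ(a)`:
`b` ranges over `1 ≤ b ≤ a` coprime to `a` (`Nat.totient` = card of `range a` filter coprime;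
for `a ≥ 2` the same as `Icc 1 a` filter, for `a = 1` both are 1; only `≥` is needed). -/

set_option autoImplicit false
namespace H59.N3
open Finset

private lemma tot1 (N : ℕ) :
    ∑ a ∈ Ioc 0 N, Nat.totient a * (N / a) = ∑ m ∈ Ioc 0 N, m := by
  have h1 : ∀ a ∈ Ioc 0 N, Nat.totient a * (N / a)
      = ∑ m ∈ Ioc 0 N, if a ∣ m then Nat.totient a else 0 := by
    intro a _
    rw [← Nat.Ioc_filter_dvd_card_eq_div N a, ← Finset.sum_filter, Finset.sum_const, smul_eq_mul,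
      mul_comm]
  rw [Finset.sum_congr rfl h1, Finset.sum_comm]
  refine Finset.sum_congr rfl fun m hm => ?_
  rw [Finset.mem_Ioc] at hm
  rw [← Finset.sum_filter]
  have h2 : (Ioc 0 N).filter (fun a => a ∣ m) = m.divisors := by
    ext a
    simp only [Finset.mem_filter, Finset.mem_Ioc, Nat.mem_divisors]
    constructor
    · rintro ⟨_, h⟩
      exact ⟨h, by omega⟩
    · rintro ⟨h, _⟩
      have h3 := Nat.le_of_dvd (by omega) h
      have h4 : 0 < a := Nat.pos_of_dvd_of_pos h (by omega)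
      exact ⟨⟨h4, by omega⟩, h⟩
  rw [h2, Nat.sum_totient]

private lemma sumIoc (N : ℕ) : ∑ m ∈ Ioc 0 N, (m : ℝ) = N * (N + 1) / 2 := by
  induction N with
  | zero => simp
  | succ n ih =>
    rw [Finset.sum_Ioc_succ_top (Nat.zero_le n), ih]
    push_cast
    ring

private lemma tot2 {N : ℕ} (hN : 1 ≤ N) :
    ((N : ℝ) + 1) / 2 ≤ ∑ a ∈ Ioc 0 N, (Nat.totient a : ℝ) / a := by
  have hN' : (0 : ℝ) < N := by exact_mod_cast hN
  have h1 : (∑ a ∈ Ioc 0 N, (Nat.totient a : ℝ) * ((N / a : ℕ) : ℝ)) = N * (N + 1) / 2 := by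
    rw [← sumIoc]
    have := congrArg (fun z : ℕ => (z : ℝ)) (tot1 N)
    push_cast at this
    exact this
  have h2 : (∑ a ∈ Ioc 0 N, (Nat.totient a : ℝ) * ((N / a : ℕ) : ℝ))
      ≤ N * ∑ a ∈ Ioc 0 N, (Nat.totient a : ℝ) / a := by
    rw [Finset.mul_sum]
    refine Finset.sum_le_sum fun a _ => ?_
    have h3 : ((N / a : ℕ) : ℝ) ≤ (N : ℝ) / a := Nat.cast_div_le
    calc (Nat.totient a : ℝ) * ((N / a : ℕ) : ℝ) ≤ (Nat.totient a : ℝ) * ((N : ℝ) / a) :=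
          mul_le_mul_of_nonneg_left h3 (Nat.cast_nonneg _)
      _ = N * ((Nat.totient a : ℝ) / a) := by ring
  rw [h1] at h2
  have h4 : (N : ℝ) * (((N : ℝ) + 1) / 2) ≤ N * ∑ a ∈ Ioc 0 N, (Nat.totient a : ℝ) / a := by
    linarith
  exact le_of_mul_le_mul_left h4 hN'

private lemma tot3 (x : ℕ) : ∑ a ∈ Ioc 0 x, (Nat.totient a : ℝ) / a ≤ x := by
  calc ∑ a ∈ Ioc 0 x, (Nat.totient a : ℝ) / a ≤ ∑ _a ∈ Ioc 0 x, (1 : ℝ) := by
        refine Finset.sum_le_sum fun a _ => ?_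
        apply div_le_one_of_le₀ _ (Nat.cast_nonneg _)
        exact_mod_cast Nat.totient_le a
    _ = x := by simp

private lemma tot4 {x : ℕ} (hx : 1 ≤ x) :
    (1 : ℝ) / 4 ≤ ∑ a ∈ Ioc x (4 * x), (Nat.totient a : ℝ) / (a : ℝ) ^ 2 := by
  have hx' : (0 : ℝ) < x := by exact_mod_cast hx
  have h1 : ∑ a ∈ Ioc 0 x, (Nat.totient a : ℝ) / a + ∑ a ∈ Ioc x (4 * x), (Nat.totient a : ℝ) / a
      = ∑ a ∈ Ioc 0 (4 * x), (Nat.totient a : ℝ) / a :=
    Finset.sum_Ioc_consecutive _ (Nat.zero_le x) (by omega)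
  have h2 := tot2 (N := 4 * x) (by omega)
  have h3 := tot3 x
  push_cast at h2
  have h4 : (x : ℝ) ≤ ∑ a ∈ Ioc x (4 * x), (Nat.totient a : ℝ) / a := by linarith
  have h5 : (∑ a ∈ Ioc x (4 * x), (Nat.totient a : ℝ) / a) / (4 * x)
      ≤ ∑ a ∈ Ioc x (4 * x), (Nat.totient a : ℝ) / (a : ℝ) ^ 2 := by
    rw [Finset.sum_div]
    refine Finset.sum_le_sum fun a ha => ?_
    rw [Finset.mem_Ioc] at ha
    have ha0 : (0 : ℝ) < a := by
      have : 0 < a := by omega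
      exact_mod_cast this
    have ha1 : (a : ℝ) ≤ 4 * x := by exact_mod_cast ha.2
    have e : (Nat.totient a : ℝ) / (a : ℝ) ^ 2 = (Nat.totient a : ℝ) / a / a := by
      rw [pow_two, ← div_div]
    rw [e]
    exact div_le_div_of_nonneg_left (by positivity) ha0 ha1
  refine le_trans ?_ h5
  rw [div_le_div_iff₀ (by norm_num) (by positivity)]
  linarith

private lemma tot5 {r : ℕ} (hr : 1 ≤ r) (J : ℕ) :
    (J : ℝ) / 4 ≤ ∑ a ∈ Ioc r (4 ^ J * r), (Nat.totient a : ℝ) / (a : ℝ) ^ 2 := by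
  induction J with
  | zero => simp
  | succ J ih =>
    have h0 : 1 ≤ 4 ^ J := Nat.one_le_pow _ _ (by norm_num)
    have h1 : r ≤ 4 ^ J * r := Nat.le_mul_of_pos_left r h0
    have h2 : 4 ^ (J + 1) * r = 4 * (4 ^ J * r) := by ring
    have h3 := Finset.sum_Ioc_consecutive (fun a : ℕ => (Nat.totient a : ℝ) / (a : ℝ) ^ 2) h1
      (show 4 ^ J * r ≤ 4 * (4 ^ J * r) by omega)
    rw [h2, ← h3]
    have h4 := tot4 (x := 4 ^ J * r) (le_trans hr h1)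
    push_cast
    linarith

theorem sum_inv_sq {r J : ℕ} (hr : 1 ≤ r) :
    (J : ℝ) / 4 ≤ ∑ d ∈ Dir r (4 ^ J * r), 1 / ((d.1 : ℝ)) ^ 2 := by
  refine le_trans (tot5 hr J) ?_
  rw [Dir, Finset.sum_filter, Finset.sum_product]
  refine Finset.sum_le_sum fun a ha => ?_
  rw [Finset.mem_Ioc] at ha
  rw [← Finset.sum_filter]
  change (Nat.totient a : ℝ) / (a : ℝ) ^ 2 ≤
    ∑ _b ∈ (Icc 1 (4 ^ J * r)).filter (fun b => b ≤ a ∧ Nat.Coprime a b), 1 / (a : ℝ) ^ 2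
  rw [Finset.sum_const, nsmul_eq_mul, mul_one_div]
  apply div_le_div_of_nonneg_right _ (by positivity)
  rw [Nat.totient_eq_card_coprime]
  norm_cast
  apply Finset.card_le_card
  intro b hb
  rw [Finset.mem_filter, Finset.mem_range] at hb
  rw [Finset.mem_filter, Finset.mem_Icc]
  have hb0 : b ≠ 0 := by
    rintro rfl
    have := hb.2
    rw [Nat.coprime_zero_right] at this
    omega
  exact ⟨⟨by omega, by omega⟩, by omega, hb.2⟩

end H59.N3
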