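import Pool.Agent.H59.N3.Geo
import Pool.Agent.H59.N3.Tot

/-! MODULE N3/Super (150-220 lines).  Supersaturation: `super`.

Write `D = Dir r (4^J r)`, `β = ∑ f`.  Expanding `W`:
`∑ p, ∑ s, f p f s W f p s = ∑ d ∈ D, ∑ v ∈ image (Lin d), T(K)`, `K = {c | Lin d c = v}`,
`T(K) = ∑ p ∈ K, ∑ s ∈ K, ∑ c ∈ K, [p ≠ s, c ≠ p, c ≠ s] f p f s f c`.
(1) `triple_line`: `T(K) ≥ u^3 - 3 (∑ f^2) u ≥ u^3 - 3 M0 u^2 ≥ u^3/2 - (9/2) M0^2 u` with `u = ∑ c ∈ K, f c`:
the triples with two equal entries have total at most `3 (∑ c ∈ K, f c ^2) u`, `f c ^2 ≤ M0 f c`, and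
`u/2 (u - 3 M0)^2 ≥ 0`.
(2) `∑ v, u_v^3 ≥ β^3 / N^2`, `N = #image (Lin d) ≤ 2 a n` (`card_image_le`), by the power mean
inequality (`inner_le_nnorm_mul_nnorm` or `pow_sum_div_card_le_sum_pow` with exponent 3);
`∑ v, u_v = β`.
So the sum for `d` is at least `β^3 / (8 a^2 n^2) - (9/2) M0^2 β`.
(3) sum over `d ∈ D` with `sum_inv_sq`: `∑ 1/a^2 ≥ J/4`. -/

set_option autoImplicit false
namespace H59.N3
open Finset

open Classical in
theorem triple_line {α : Type*} (K : Finset α) (f : α → ℝ) {M0 : ℝ} (h0 : ∀ c ∈ K, 0 ≤ f c)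
    (hM : ∀ c ∈ K, f c ≤ M0) :
    (∑ c ∈ K, f c) ^ 3 / 2 - 9 / 2 * M0 ^ 2 * (∑ c ∈ K, f c) ≤
      ∑ p ∈ K, ∑ s ∈ K, ∑ c ∈ K, (if p ≠ s ∧ c ≠ p ∧ c ≠ s then f p * f s * f c else 0) := by
  set u : ℝ := ∑ c ∈ K, f c with hu
  have hu0 : 0 ≤ u := Finset.sum_nonneg h0
  set q : ℝ := ∑ c ∈ K, f c ^ 2 with hq
  have hqu : q ≤ M0 * u := by
    rw [hq, hu, Finset.mul_sum]
    refine Finset.sum_le_sum (fun c hc => ?_)
    rw [pow_two]
    exact mul_le_mul_of_nonneg_right (hM c hc) (h0 c hc)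
  have hcube : u ^ 3 = ∑ p ∈ K, ∑ s ∈ K, ∑ c ∈ K, f p * f s * f c := by
    have e1 : ∀ p ∈ K, ∑ s ∈ K, ∑ c ∈ K, f p * f s * f c = f p * (u * u) := by
      intro p _
      have e2 : ∀ s ∈ K, ∑ c ∈ K, f p * f s * f c = f p * u * f s := by
        intro s _
        rw [← Finset.mul_sum, ← hu]
        ring
      rw [Finset.sum_congr rfl e2, ← Finset.mul_sum, ← hu]
      ring
    rw [Finset.sum_congr rfl e1, ← Finset.sum_mul, ← hu]
    ring
  have hA : ∑ p ∈ K, ∑ s ∈ K, ∑ c ∈ K, (if p = s then f p * f s * f c else 0) = q * u := by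
    have e1 : ∀ p ∈ K, ∑ s ∈ K, ∑ c ∈ K, (if p = s then f p * f s * f c else 0) =
        f p ^ 2 * u := by
      intro p hp
      rw [Finset.sum_eq_single p]
      · simp only [if_true]
        rw [← Finset.mul_sum, ← hu]
        ring
      · intro s _ hs
        exact Finset.sum_eq_zero (fun c _ => if_neg (fun h => hs h.symm))
      · intro h
        exact absurd hp h
    rw [Finset.sum_congr rfl e1, ← Finset.sum_mul, ← hq]
  have hB : ∑ p ∈ K, ∑ s ∈ K, ∑ c ∈ K, (if c = p then f p * f s * f c else 0) = q * u := by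
    have e1 : ∀ p ∈ K, ∑ s ∈ K, ∑ c ∈ K, (if c = p then f p * f s * f c else 0) =
        f p ^ 2 * u := by
      intro p hp
      have e2 : ∀ s ∈ K, ∑ c ∈ K, (if c = p then f p * f s * f c else 0) = f p ^ 2 * f s := by
        intro s _
        rw [Finset.sum_eq_single p]
        · simp only [if_true]
          ring
        · intro c _ hc
          exact if_neg hc
        · intro h
          exact absurd hp h
      rw [Finset.sum_congr rfl e2, ← Finset.mul_sum, ← hu]
    rw [Finset.sum_congr rfl e1, ← Finset.sum_mul, ← hq]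
  have hC : ∑ p ∈ K, ∑ s ∈ K, ∑ c ∈ K, (if c = s then f p * f s * f c else 0) = q * u := by
    have e1 : ∀ p ∈ K, ∑ s ∈ K, ∑ c ∈ K, (if c = s then f p * f s * f c else 0) =
        f p * q := by
      intro p _
      have e2 : ∀ s ∈ K, ∑ c ∈ K, (if c = s then f p * f s * f c else 0) = f p * f s ^ 2 := by
        intro s hs
        rw [Finset.sum_eq_single s]
        · simp only [if_true]
          ring
        · intro c _ hc
          exact if_neg hc
        · intro h
          exact absurd hs h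
      rw [Finset.sum_congr rfl e2, ← Finset.mul_sum, ← hq]
    rw [Finset.sum_congr rfl e1, ← Finset.sum_mul, ← hu]
    ring
  have hmain : u ^ 3 ≤
      (∑ p ∈ K, ∑ s ∈ K, ∑ c ∈ K, (if p ≠ s ∧ c ≠ p ∧ c ≠ s then f p * f s * f c else 0)) +
        (q * u + q * u + q * u) := by
    rw [hcube]
    nth_rewrite 1 [← hA]
    nth_rewrite 1 [← hB]
    rw [← hC, ← Finset.sum_add_distrib, ← Finset.sum_add_distrib, ← Finset.sum_add_distrib]
    refine Finset.sum_le_sum (fun p hp => ?_)
    rw [← Finset.sum_add_distrib, ← Finset.sum_add_distrib, ← Finset.sum_add_distrib]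
    refine Finset.sum_le_sum (fun s hs => ?_)
    rw [← Finset.sum_add_distrib, ← Finset.sum_add_distrib, ← Finset.sum_add_distrib]
    refine Finset.sum_le_sum (fun c hc => ?_)
    have hpos : 0 ≤ f p * f s * f c := mul_nonneg (mul_nonneg (h0 p hp) (h0 s hs)) (h0 c hc)
    have hite : ∀ (P : Prop) [Decidable P], 0 ≤ (if P then f p * f s * f c else 0) := by
      intro P _
      by_cases hP : P
      · rw [if_pos hP]
        exact hpos
      · rw [if_neg hP]
    by_cases h1 : p = s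
    · rw [if_pos h1]
      have a1 : 0 ≤ (if p ≠ s ∧ c ≠ p ∧ c ≠ s then f p * f s * f c else 0) := hite _
      have a2 : 0 ≤ (if c = p then f p * f s * f c else 0) := hite _
      have a3 : 0 ≤ (if c = s then f p * f s * f c else 0) := hite _
      linarith
    · by_cases h2 : c = p
      · rw [if_pos h2]
        have a1 : 0 ≤ (if p ≠ s ∧ c ≠ p ∧ c ≠ s then f p * f s * f c else 0) := hite _
        have a2 : 0 ≤ (if p = s then f p * f s * f c else 0) := hite _
        have a3 : 0 ≤ (if c = s then f p * f s * f c else 0) := hite _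
        linarith
      · by_cases h3 : c = s
        · rw [if_pos h3]
          have a1 : 0 ≤ (if p ≠ s ∧ c ≠ p ∧ c ≠ s then f p * f s * f c else 0) := hite _
          have a2 : 0 ≤ (if p = s then f p * f s * f c else 0) := hite _
          have a3 : 0 ≤ (if c = p then f p * f s * f c else 0) := hite _
          linarith
        · rw [if_pos ⟨h1, h2, h3⟩, if_neg h1, if_neg h2, if_neg h3]
          linarith
  have hqq : q * u ≤ M0 * u * u := mul_le_mul_of_nonneg_right hqu hu0
  have hsq : 0 ≤ u * (u - 3 * M0) ^ 2 := mul_nonneg hu0 (sq_nonneg _)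
  nlinarith [hmain, hqq, hsq]

theorem super {n r J : ℕ} (hn : 1 ≤ n) (hr : 1 ≤ r) {f : Cell n → ℝ} {M0 : ℝ}
    (h0 : ∀ c, 0 ≤ f c) (hM : ∀ c, f c ≤ M0) :
    (∑ c, f c) ^ 3 * J / (32 * (n : ℝ) ^ 2) -
        9 / 2 * M0 ^ 2 * (∑ c, f c) * (Dir r (4 ^ J * r)).card ≤
      ∑ p, ∑ s, f p * f s * W (Dir r (4 ^ J * r)) f p s := by
  classical
  set D : Finset (ℕ × ℕ) := Dir r (4 ^ J * r) with hD
  set β : ℝ := ∑ c, f c with hβ
  have hβ0 : 0 ≤ β := Finset.sum_nonneg (fun c _ => h0 c)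
  have hn' : (0 : ℝ) < n := by exact_mod_cast hn
  -- expansion
  have hexp : ∀ p s, f p * f s * W D f p s = ∑ d ∈ D, (if Lin d s = Lin d p then
      ∑ c ∈ univ.filter (fun c : Cell n => Lin d c = Lin d p),
        (if p ≠ s ∧ c ≠ p ∧ c ≠ s then f p * f s * f c else 0) else 0) := by
    intro p s
    unfold W
    by_cases hps : p = s
    · rw [if_pos hps, mul_zero]
      symm
      refine Finset.sum_eq_zero (fun d _ => ?_)
      split_ifs
      · exact Finset.sum_eq_zero (fun c _ => if_neg (fun h => h.1 hps))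
      · rfl
    · rw [if_neg hps, Finset.mul_sum]
      refine Finset.sum_congr rfl (fun d _ => ?_)
      by_cases hl : Lin d p = Lin d s
      · rw [if_pos hl, if_pos hl.symm, Finset.mul_sum]
        have e1 : (univ.filter (fun c : Cell n => c ≠ p ∧ c ≠ s ∧ Lin d c = Lin d p)) =
            (univ.filter (fun c : Cell n => Lin d c = Lin d p)).filter
              (fun c => p ≠ s ∧ c ≠ p ∧ c ≠ s) := by
          ext c
          simp only [Finset.mem_filter, Finset.mem_univ, true_and]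
          constructor
          · rintro ⟨a, b, c'⟩
            exact ⟨c', hps, a, b⟩
          · rintro ⟨c', _, a, b⟩
            exact ⟨a, b, c'⟩
        rw [e1, Finset.sum_filter]
      · rw [if_neg hl, if_neg (fun h => hl h.symm), mul_zero]
  have hswap : ∑ p, ∑ s, f p * f s * W D f p s = ∑ d ∈ D, ∑ p : Cell n, ∑ s : Cell n,
      (if Lin d s = Lin d p then
      ∑ c ∈ univ.filter (fun c : Cell n => Lin d c = Lin d p),
        (if p ≠ s ∧ c ≠ p ∧ c ≠ s then f p * f s * f c else 0) else 0) := by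
    have e1 : ∀ p : Cell n, ∑ s, f p * f s * W D f p s = ∑ d ∈ D, ∑ s : Cell n,
        (if Lin d s = Lin d p then
        ∑ c ∈ univ.filter (fun c : Cell n => Lin d c = Lin d p),
        (if p ≠ s ∧ c ≠ p ∧ c ≠ s then f p * f s * f c else 0) else 0) := by
      intro p
      rw [Finset.sum_congr rfl (fun s _ => hexp p s), Finset.sum_comm]
    rw [Finset.sum_congr rfl (fun p _ => e1 p), Finset.sum_comm]
  rw [hswap]
  -- one direction
  have hdir : ∀ d ∈ D, β ^ 3 / (8 * (n : ℝ) ^ 2) * (1 / ((d.1 : ℝ)) ^ 2) - 9 / 2 * M0 ^ 2 * β ≤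
      ∑ p : Cell n, ∑ s : Cell n, (if Lin d s = Lin d p then
      ∑ c ∈ univ.filter (fun c : Cell n => Lin d c = Lin d p),
        (if p ≠ s ∧ c ≠ p ∧ c ≠ s then f p * f s * f c else 0) else 0) := by
    intro d hd
    set I : Finset ℤ := (univ : Finset (Cell n)).image (Lin d) with hI
    have hmaps : ∀ p ∈ (univ : Finset (Cell n)), Lin d p ∈ I :=
      fun p hp => Finset.mem_image_of_mem _ hp
    have hfib : ∑ p : Cell n, ∑ s : Cell n, (if Lin d s = Lin d p then
      ∑ c ∈ univ.filter (fun c : Cell n => Lin d c = Lin d p),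
        (if p ≠ s ∧ c ≠ p ∧ c ≠ s then f p * f s * f c else 0) else 0) =
        ∑ v ∈ I, ∑ p ∈ univ.filter (fun p : Cell n => Lin d p = v),
          ∑ s ∈ univ.filter (fun p : Cell n => Lin d p = v),
          ∑ c ∈ univ.filter (fun p : Cell n => Lin d p = v),
          (if p ≠ s ∧ c ≠ p ∧ c ≠ s then f p * f s * f c else 0) := by
      rw [← Finset.sum_fiberwise_of_maps_to hmaps]
      refine Finset.sum_congr rfl (fun v _ => ?_)
      refine Finset.sum_congr rfl (fun p hp => ?_)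
      have hv : Lin d p = v := (Finset.mem_filter.mp hp).2
      rw [← Finset.sum_filter, hv]
    rw [hfib]
    have hu : ∑ v ∈ I, ∑ c ∈ univ.filter (fun p : Cell n => Lin d p = v), f c = β := by
      rw [Finset.sum_fiberwise_of_maps_to hmaps]
    have hline : ∑ v ∈ I, ((∑ c ∈ univ.filter (fun p : Cell n => Lin d p = v), f c) ^ 3 / 2 -
        9 / 2 * M0 ^ 2 * (∑ c ∈ univ.filter (fun p : Cell n => Lin d p = v), f c)) ≤
        ∑ v ∈ I, ∑ p ∈ univ.filter (fun p : Cell n => Lin d p = v),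
          ∑ s ∈ univ.filter (fun p : Cell n => Lin d p = v),
          ∑ c ∈ univ.filter (fun p : Cell n => Lin d p = v),
          (if p ≠ s ∧ c ≠ p ∧ c ≠ s then f p * f s * f c else 0) :=
      Finset.sum_le_sum (fun v _ => le_trans (triple_line _ f (fun c _ => h0 c) (fun c _ => hM c))
        (le_of_eq (Finset.sum_congr rfl (fun p _ => Finset.sum_congr rfl (fun s _ =>
          Finset.sum_congr rfl (fun c _ => by
            by_cases hP : p ≠ s ∧ c ≠ p ∧ c ≠ s
            · rw [if_pos hP, if_pos hP]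
            · rw [if_neg hP, if_neg hP]))))))
    refine le_trans ?_ hline
    rw [Finset.sum_sub_distrib, ← Finset.mul_sum, hu, ← Finset.sum_div]
    have hpm := pow_sum_div_card_le_sum_pow (s := I)
      (f := fun v => ∑ c ∈ univ.filter (fun p : Cell n => Lin d p = v), f c)
      (fun v _ => Finset.sum_nonneg (fun c _ => h0 c)) 2
    simp only [hu] at hpm
    have hdmem := hd
    rw [hD] at hdmem
    unfold Dir at hdmem
    have hd1 := (Finset.mem_filter.mp hdmem).1
    have hd2 := (Finset.mem_product.mp hd1).1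
    have hd3 : 0 < d.1 := by
      have := (Finset.mem_Ioc.mp hd2).1
      omega
    have hd4 : (0 : ℝ) < (d.1 : ℝ) := by exact_mod_cast hd3
    have hcard : (I.card : ℝ) ≤ 2 * (d.1 : ℝ) * n := by
      have := card_image_le (n := n) (A := r) (B := 4 ^ J * r) (d := d) (by rw [← hD]; exact hd)
      have h' : I.card ≤ 2 * d.1 * n := this
      calc (I.card : ℝ) ≤ ((2 * d.1 * n : ℕ) : ℝ) := by exact_mod_cast h'
        _ = 2 * (d.1 : ℝ) * n := by push_cast; ring
    have hIpos : (0 : ℝ) < (I.card : ℝ) := by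
      have hne : I.Nonempty := by
        have : (⟨0, by omega⟩, ⟨0, by omega⟩) ∈ (univ : Finset (Cell n)) := Finset.mem_univ _
        exact ⟨_, Finset.mem_image_of_mem _ this⟩
      exact_mod_cast Finset.card_pos.mpr hne
    have hlow : β ^ 3 / (2 * (d.1 : ℝ) * n) ^ 2 ≤ β ^ 3 / (I.card : ℝ) ^ 2 := by
      apply div_le_div_of_nonneg_left (pow_nonneg hβ0 3) (pow_pos hIpos 2)
      exact pow_le_pow_left₀ hIpos.le hcard 2
    have hchain : β ^ 3 / (2 * (d.1 : ℝ) * n) ^ 2 ≤
        ∑ v ∈ I, (∑ c ∈ univ.filter (fun p : Cell n => Lin d p = v), f c) ^ 3 :=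
      le_trans hlow hpm
    have hid : β ^ 3 / (8 * (n : ℝ) ^ 2) * (1 / ((d.1 : ℝ)) ^ 2) =
        β ^ 3 / (2 * (d.1 : ℝ) * n) ^ 2 / 2 := by
      field_simp
      ring
    rw [hid]
    linarith
  refine le_trans ?_ (Finset.sum_le_sum hdir)
  rw [Finset.sum_sub_distrib, ← Finset.mul_sum, Finset.sum_const, nsmul_eq_mul]
  have hinv := sum_inv_sq (r := r) (J := J) hr
  have hc0 : 0 ≤ β ^ 3 / (8 * (n : ℝ) ^ 2) := by positivity
  have hfin := mul_le_mul_of_nonneg_left hinv hc0
  have hid2 : β ^ 3 / (8 * (n : ℝ) ^ 2) * ((J : ℝ) / 4) = β ^ 3 * J / (32 * (n : ℝ) ^ 2) := by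
    field_simp
    ring
  rw [hid2] at hfin
  linarith

end H59.N3
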