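import Mathlib

/-! N3/Sz (helper59).  The parameters and their simplest properties. -/

set_option autoImplicit false
namespace H59.N3

/-- the conditions on the sizes: `r = 2^J`, `m = J / (2^26 T^2)`, `L' = m / 64` (natural division) -/
structure Sz (T n k J m L' : ℕ) : Prop where
  hT : 1 ≤ T
  hJ : 2 ^ 36 * T ^ 2 ≤ J
  hlo : 2 ^ (4 * J) ≤ n
  hup : n < 2 ^ (4 * J + 4)
  hk1 : n ≤ T * k
  hk2 : k ≤ 2 * n
  hm : m = J / (2 ^ 26 * T ^ 2)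
  hL : L' = m / 64

/-- the length of the samples -/
def qq (n J m L' : ℕ) : ℕ := n * 16 ^ (2 * L') * J / (m * 2 ^ J) + 1

theorem Sz.m_mul_le {T n k J m L' : ℕ} (h : Sz T n k J m L') : 2 ^ 26 * T ^ 2 * m ≤ J := by
  rw [h.hm]
  exact Nat.mul_div_le J _

theorem Sz.le_m {T n k J m L' : ℕ} (h : Sz T n k J m L') : 1024 ≤ m := by
  have hT := h.hT
  have hpos : 0 < 2 ^ 26 * T ^ 2 := by positivity
  rw [h.hm, Nat.le_div_iff_mul_le hpos]
  have := h.hJ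
  calc 1024 * (2 ^ 26 * T ^ 2) = 2 ^ 36 * T ^ 2 := by ring
    _ ≤ J := this

theorem Sz.L_mul_le {T n k J m L' : ℕ} (h : Sz T n k J m L') : 64 * L' ≤ m := by
  rw [h.hL]
  exact Nat.mul_div_le m 64

theorem Sz.L_le_J {T n k J m L' : ℕ} (h : Sz T n k J m L') : 2 ^ 32 * L' ≤ J := by
  have h1 := h.m_mul_le
  have h2 := h.L_mul_le
  have hT : 1 ≤ T ^ 2 := Nat.one_le_pow _ _ h.hT
  calc 2 ^ 32 * L' = 2 ^ 26 * 1 * (64 * L') := by ring
    _ ≤ 2 ^ 26 * T ^ 2 * m := by gcongr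
    _ ≤ J := h1

theorem Sz.J_large {T n k J m L' : ℕ} (h : Sz T n k J m L') : 2 ^ 36 ≤ J := by
  have hT : 1 ≤ T ^ 2 := Nat.one_le_pow _ _ h.hT
  calc 2 ^ 36 = 2 ^ 36 * 1 := by ring
    _ ≤ 2 ^ 36 * T ^ 2 := by gcongr
    _ ≤ J := h.hJ

theorem Sz.T_le_J {T n k J m L' : ℕ} (h : Sz T n k J m L') : T ≤ J := by
  have hT := h.hT
  calc T ≤ T ^ 2 := Nat.le_self_pow (by norm_num) T
    _ ≤ 2 ^ 36 * T ^ 2 := Nat.le_mul_of_pos_left _ (by positivity)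
    _ ≤ J := h.hJ

theorem Sz.n_pos {T n k J m L' : ℕ} (h : Sz T n k J m L') : 1 ≤ n :=
  (Nat.one_le_two_pow).trans h.hlo

theorem Sz.k_pos {T n k J m L' : ℕ} (h : Sz T n k J m L') : 1 ≤ k := by
  have h1 := h.n_pos
  have h2 := h.hk1
  rcases Nat.eq_zero_or_pos k with hk | hk
  · rw [hk] at h2
    omega
  · exact hk

end H59.N3
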